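import Pool.Agent.U35.OW.Lev

set_option autoImplicit false

/-! The main theorem in terms of relations. -/

open Encodable MeasureTheory
open scoped ENNReal NNReal
open Pool.Agent.Helper227 (S1 IsUniversal IsMachine KU KU_le KTrivial pre take_pre length_pre
  pre_prefix PP.ex_lt PP.all_lt PP.ex_mem PP.all_mem lam cyl lam_cyl UE Mono3 mem_cyl_iff
  measurableSet_cyl)

namespace Pool.Agent.U35.OW

theorem antitone_const {u : ℕ → ℕ} (h : ∀ t, u (t + 1) ≤ u t) : ∃ N, ∀ t ≥ N, u t = u N := by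
  classical
  have hex : ∃ m t, u t = m := ⟨_, 0, rfl⟩
  obtain ⟨N, hN⟩ := Nat.find_spec hex
  have ha : Antitone u := antitone_nat_of_succ_le h
  refine ⟨N, fun t ht => le_antisymm (ha ht) ?_⟩
  rw [hN]
  exact Nat.find_min' hex ⟨t, rfl⟩

theorem monotone_const {u : ℕ → ℕ} {B : ℕ} (h : ∀ t, u t ≤ u (t + 1)) (hB : ∀ t, u t ≤ B) :
    ∃ N, ∀ t ≥ N, u t = u N := by
  obtain ⟨N, hN⟩ := antitone_const (u := fun t => B - u t) fun t => by
    have := h t
    omega
  refine ⟨N, fun t ht => ?_⟩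
  have h1 := hN t ht
  have h2 := hB t
  have h3 := hB N
  omega

section
variable {KD : ℕ → List Bool → ℕ → Bool} {v : List Bool → ℕ} {α : ℕ → List Bool}

/-- representation of `γ` -/
def gtri (KD : ℕ → List Bool → ℕ → Bool) (v : List Bool → ℕ) (α : ℕ → List Bool) (t : ℕ) : Tri :=
  (wN (rs (Gm KD v α t)) (Gm KD v α t), 0, 2 ^ rs (Gm KD v α t) - 1)

theorem pr_gtri (hKD : Primrec fun p : ℕ × List Bool × ℕ => KD p.1 p.2.1 p.2.2) (hv : Primrec v)
    (hα : Primrec α) : Primrec (gtri KD v α) := by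
  unfold gtri
  have h1 := pr_Gm hKD hv hα
  exact (pr_wN (pr_rs h1) h1).pair ((Primrec.const 0).pair
    (pr_sub (pr_pw (Primrec.const 2) (pr_rs h1)) (Primrec.const 1)))

theorem bv_gtri (t : ℕ) : bv (gtri KD v α t) = gam KD v α t := by
  unfold bv gtri gam
  simp only
  have h1 : (wN (rs (Gm KD v α t)) (Gm KD v α t) : ℝ) = 2 ^ rs (Gm KD v α t) * w (Gm KD v α t) :=
    wN_cast fun p => le_rs
  have h2 : ((2 ^ rs (Gm KD v α t) - 1 : ℕ) : ℝ) + 1 = 2 ^ rs (Gm KD v α t) := by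
    have h3 : 1 ≤ 2 ^ rs (Gm KD v α t) := Nat.one_le_two_pow
    rw [Nat.cast_sub h3]
    push_cast
    ring
  rw [h1, h2]
  have h3 : (0 : ℝ) < 2 ^ rs (Gm KD v α t) := by positivity
  field_simp
  simp

theorem Qf_final {Γ : ℝ} (cmp : ∀ t, α (t + 1) <+: α t ∨ α t <+: α (t + 1))
    (hΓ : ∀ t, gam KD v α t ≤ Γ) (l : ℕ) : ∃ N, ∀ t ≥ N, Qf KD v α t l = Qf KD v α N l := by
  obtain ⟨B, hB⟩ := exists_nat_ge (Γ * 2 ^ l)
  refine monotone_const (B := B) (fun t => Qf_mono cmp l (Nat.le_succ t)) fun t => ?_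
  have h1 := (Qf_spec (KD := KD) (v := v) (α := α) t l).1
  have h2 := hΓ t
  have h3 : (0 : ℝ) < 2 ^ l := by positivity
  have h4 : (Qf KD v α t l : ℝ) ≤ B := by nlinarith
  exact_mod_cast h4

/-- variation after a final value -/
theorem var_final (cmp : ∀ t, α (t + 1) <+: α t ∨ α t <+: α (t + 1)) {t l : ℕ}
    (h : ∀ j ≥ t, Qf KD v α j l = Qf KD v α t l) (j : ℕ) (hj : t ≤ j) :
    ∑ i ∈ Finset.Ico t j, |Vv v (α (i + 1)) - Vv v (α i)| ≤ hp l := by
  have h1 : ∑ i ∈ Finset.Ico t j, |Vv v (α (i + 1)) - Vv v (α i)| ≤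
      gam KD v α j - gam KD v α t := by
    induction j, hj using Nat.le_induction with
    | base => simp
    | succ j hj ih =>
      rw [Finset.sum_Ico_succ_top hj, gam_succ cmp]
      have h2 := w_nonneg (nw KD j)
      have h3 := hp_nonneg (j + 1)
      linarith
  have h2 := (Qf_spec (KD := KD) (v := v) (α := α) t l).1
  have h3 := (Qf_spec (KD := KD) (v := v) (α := α) j l).2
  rw [h j hj] at h3
  have h4 := hp_mul_two_pow l
  have h5 : (0 : ℝ) < 2 ^ l := by positivity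
  have h6 : (gam KD v α j - gam KD v α t) * 2 ^ l ≤ hp l * 2 ^ l := by nlinarith
  exact h1.trans (le_of_mul_le_mul_right h6 h5)

end

/-- The main theorem. -/
theorem main {U : List Bool →. List Bool} (hU : IsUniversal U) {A : ℕ → Bool}
    (hA : KTrivial U A) {E : List Bool × ℕ × List Bool → Prop} (hE : S1 E)
    (hdesc : ∀ m, UE E A (m + 1) ⊆ UE E A m) {f : ℕ → Tri}
    {qf : List Bool × ℕ × ℕ → ℕ → Prop} (hc : Comp qf A f) (hmono : Monotone fun m => bv (f m))
    {b : ℝ} (hb : ∀ m, bv (f m) ≤ b) (hlub : ∀ δ > 0, ∃ m, b - δ < bv (f m)) {C : ℝ≥0}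
    (hC : ∀ m, lam (UE E A m) ≤ C * ENNReal.ofReal (b - bv (f m))) {Z : ℕ → Bool}
    (hZ : ∀ m, Z ∈ UE E A m) :
    ∃ (E' : List Bool × ℕ × List Bool → Prop) (f' : ℕ → Tri) (g : ℝ) (C' : ℝ≥0),
      S1 E' ∧ Primrec f' ∧ StrictMono (fun m => bv (f' m)) ∧
      IsLUB (Set.range fun m => bv (f' m)) g ∧
      (∀ m, UE E' (fun _ => false) (m + 1) ⊆ UE E' (fun _ => false) m) ∧
      (∀ m, lam (UE E' (fun _ => false) m) ≤ C' * ENNReal.ofReal (g - bv (f' m))) ∧
      ∀ m, Z ∈ UE E' (fun _ => false) m := by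
  classical
  obtain ⟨Bd, hBd⟩ := exists_nat_ge (max (4 * (b - bv (f 0))) 1)
  have hBd1 : 4 * (b - bv (f 0)) ≤ Bd := (le_max_left _ _).trans hBd
  have hBd2 : 0 < Bd := by
    have : (1 : ℝ) ≤ Bd := (le_max_right _ _).trans hBd
    have : 1 ≤ Bd := by exact_mod_cast this
    omega
  obtain ⟨α, W, hG⟩ := KLt hU hA (pr_bw (x0 := f 0) hc.pr Bd)
  obtain ⟨KD, hK⟩ := exists_KD hU
  set v := vt (bw qf (f 0) Bd) with hv
  have hpv : Primrec v := pr_vt (pr_bw hc.pr Bd)
  have hsv : SumV v := sumV_vt _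
  have cmp := hG.cmp
  set Γ : ℝ := max 1 (4 + 2 * W) with hΓdef
  have hΓ1 : 1 ≤ Γ := le_max_left _ _
  have hΓ : ∀ t, gam KD v α t ≤ Γ := fun t => (gam_bound hU hK hsv hG t).trans (le_max_right _ _)
  obtain ⟨g, hg⟩ := pow_unbounded_of_one_lt Γ (one_lt_two (α := ℝ))
  obtain ⟨a, ha⟩ := pow_unbounded_of_one_lt ((C : ℝ) * (2 * Bd)) (one_lt_two (α := ℝ))
  obtain ⟨qE, hqE, hqEm, hqEe⟩ := hE
  set I : ℕ → ℕ := fun t => ind qf (f 0) (α t) with hI
  have hIp : Primrec I := (pr_ind hc.pr).comp hG.pr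
  have hdesc' : ∀ m n, m ≤ n → UE E A n ⊆ UE E A m := by
    intro m n hmn
    induction n, hmn using Nat.le_induction with
    | base => exact subset_rfl
    | succ n _ ih => exact (hdesc n).trans ih
  obtain ⟨c5, hc5⟩ := rel_bound hU hA (pr_covA (I := I) hqE (pr_Qf hK.prim hpv hG.pr) hIp)
    (covA_mono hqEm) a
  obtain ⟨c1, hc1⟩ := kap_sound hU hK g
  obtain ⟨a1, ha1⟩ := lam_covB hU hK (c1 + c5)
  -- the relative sets
  have hfin : ∀ l q N, (∀ t ≥ N, Qf KD v α t l = q) →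
      ∃ n, KU U (cod (l, q) (pre Z n)) + l ≤ KU U (zs (Nat.pair l q)) + n + c5 := by
    intro l q N hN
    have hexm : ∃ m, b - bv (f m) ≤ 2 * Bd * hp l := by
      have h1 : (0 : ℝ) < 2 * Bd * hp l := by
        have := hp_pos l
        have : (0 : ℝ) < Bd := by exact_mod_cast hBd2
        positivity
      obtain ⟨m, hm⟩ := hlub _ h1
      exact ⟨m, by linarith⟩
    have hm1 := Nat.find_spec hexm
    have hm2 := fun m => Nat.find_min' hexm (m := m)
    set ms := Nat.find hexm with hms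
    have hsubset : {X | ∃ n, covA qE (Qf KD v α) I (l, q) (pre A n) (pre X n)} ⊆ UE E A ms := by
      intro X hX
      obtain ⟨t, ht1, ht2⟩ := (covA_iff hqEm hqEe).1 hX
      simp only at ht1
      have hconst : ∀ j ≥ t, Qf KD v α j l = Qf KD v α t l := by
        intro j hj
        refine le_antisymm ?_ (Qf_mono cmp l hj)
        have h1 := Qf_mono (KD := KD) (v := v) cmp l (le_max_left j N)
        rw [hN (max j N) (le_max_right _ _)] at h1
        rw [ht1]; exact h1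
      obtain ⟨m0, h1, h2⟩ := beta_key hc hmono hb hlub hBd1 hBd2 hG
        (fun j hj => var_final cmp hconst j hj)
      exact hdesc' ms (I t) ((hm2 m0 h2).trans h1) ht2
    have hmeas : lam {X | ∃ n, covA qE (Qf KD v α) I (l, q) (pre A n) (pre X n)} ≤
        ENNReal.ofReal (2 ^ a * hp (Prod.fst (l, q))) := by
      refine (measure_mono hsubset).trans ((hC ms).trans ?_)
      rw [← ENNReal.ofReal_coe_nnreal, ← ENNReal.ofReal_mul (NNReal.coe_nonneg C)]
      refine ENNReal.ofReal_le_ofReal ?_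
      have h1 : (C : ℝ) * (b - bv (f ms)) ≤ C * (2 * Bd * hp l) :=
        mul_le_mul_of_nonneg_left hm1 C.2
      have h2 := hp_pos l
      calc (C : ℝ) * (b - bv (f ms)) ≤ C * (2 * Bd * hp l) := h1
        _ = C * (2 * Bd) * hp l := by ring
        _ ≤ 2 ^ a * hp l := mul_le_mul_of_nonneg_right ha.le h2.le
    have hmemZ : ∃ n, covA qE (Qf KD v α) I (l, q) (pre A n) (pre Z n) :=
      (covA_iff hqEm hqEe).2 ⟨N, hN N le_rfl, hZ _⟩
    obtain ⟨n, hn⟩ := DD_cover (L := Prod.fst) (a := a) (fun n => trn_of_lam n hmeas) hmemZ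
    obtain ⟨n', hn'⟩ : ∃ n', (pre Z n').length = n' ∧
        DD (covA qE (Qf KD v α) I) a Prod.fst (l, q) (pre A n) (pre Z n') := by
      obtain ⟨n1, hn1⟩ := DD_cover (L := Prod.fst) (a := a) (fun n => trn_of_lam n hmeas) hmemZ
      exact ⟨n, length_pre _ _, hn⟩
    refine ⟨n', ?_⟩
    have := hc5 (l, q) (pre Z n') n hn'.2
    rw [length_pre] at this
    exact this
  -- the final sets
  have hZH : ∀ m, Z ∈ HS KD v α (c1 + c5) (a1 + (c1 + c5)) m := by
    intro m
    have hexn : ∃ n, ∃ s, m < s ∧ hp (n + 1) ≤ gam KD v α s - gam KD v α m := by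
      obtain ⟨n, hn⟩ := ex_lev (KD := KD) (v := v) cmp (Nat.lt_succ_self m)
      exact ⟨n, _, Nat.lt_succ_self m, hn⟩
    obtain ⟨s0, hs0, hs0'⟩ := Nat.find_spec hexn
    have hmin := fun n => Nat.find_min hexn (m := n)
    set n := Nat.find hexn with hndef
    obtain ⟨N1, hN1⟩ := Qf_final (KD := KD) (v := v) cmp hΓ (2 * n)
    set q := Qf KD v α N1 (2 * n) with hq
    obtain ⟨N2, hN2⟩ := kap_final hK (2 * n) q
    set s := s0 + N1 + N2 with hs
    have hms : m < s := by omega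
    have hQs : Qf KD v α s (2 * n) = q := hN1 s (by omega)
    have hlev : lev KD v α m s n := by
      rw [lev_iff hms.le]
      constructor
      · have := gam_mono (KD := KD) (v := v) cmp (show s0 ≤ s by omega)
        linarith
      · rcases Nat.eq_zero_or_pos n with h0 | h0
        · exact Or.inl h0
        · right
          have h1 := hmin (n - 1) (by omega)
          push Not at h1
          have h2 := h1 s hms
          rwa [Nat.sub_add_cancel h0] at h2
    have hqlt : q < 2 ^ (2 * n + g) := by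
      have h1 := (Qf_spec (KD := KD) (v := v) (α := α) s (2 * n)).1
      rw [hQs] at h1
      have h2 := hΓ s
      have h3 : (0 : ℝ) < 2 ^ (2 * n) := by positivity
      have h4 : (q : ℝ) < 2 ^ (2 * n + g) := by
        rw [pow_add]
        nlinarith
      exact_mod_cast h4
    have hk1 := hc1 s (2 * n) q hqlt
    have hk2 := hN2 s (by omega)
    obtain ⟨n1, hn1⟩ := hfin (2 * n) q N1 hN1
    rw [mem_HS]
    refine ⟨s, n, hms, hlev, ?_⟩
    have hcs : cset KD v α s n = ((2 * n, q), kap KD s (2 * n) q) := by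
      unfold cset
      rw [hQs]
    rw [hcs]
    obtain ⟨n2, hn2⟩ := covB_of (c7 := c1 + c5) (c := (2 * n, q)) (ρ := kap KD s (2 * n) q)
      (n := n1) (X := Z) hK (by simp only; omega)
    refine ⟨n2, hn2, trn_of_lam n2 ?_⟩
    exact ha1 (2 * n, q) _ hk2
  -- assembling
  have hbdd : BddAbove (Set.range (gam KD v α)) := ⟨Γ, by rintro _ ⟨t, rfl⟩; exact hΓ t⟩
  have hlub2 := isLUB_ciSup hbdd
  set gs := ⨆ t, gam KD v α t with hgs
  have hgle : ∀ t, gam KD v α t ≤ gs := fun t => hlub2.1 ⟨t, rfl⟩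
  have hfun : (fun m => bv (gtri KD v α m)) = gam KD v α := funext bv_gtri
  let E' : List Bool × ℕ × List Bool → Prop := fun x =>
    ∀ m' < x.2.1 + 1, HE KD v α (c1 + c5) (a1 + (c1 + c5)) m' x.2.2
  have hE' : S1 E' := by
    refine S1.all_lt (α := List Bool × ℕ × List Bool) (f := fun x => x.2.1 + 1)
      (p := fun x m' => HE KD v α (c1 + c5) (a1 + (c1 + c5)) m' x.2.2) ?_
      (Primrec.succ.comp (Primrec.fst.comp Primrec.snd))
    exact (s1_HE hK.prim hpv hG.pr).comp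
      (f := fun x : (List Bool × ℕ × List Bool) × ℕ => (x.2, x.1.2.2))
      (Primrec.snd.pair (Primrec.snd.comp (Primrec.snd.comp Primrec.fst)))
  have hD0 : 0 ≤ (5 + 2 * Γ) * 2 ^ (a1 + (c1 + c5)) * 4 := by
    have : (0 : ℝ) < 2 ^ (a1 + (c1 + c5)) := by positivity
    nlinarith
  refine ⟨E', gtri KD v α, gs, ⟨(5 + 2 * Γ) * 2 ^ (a1 + (c1 + c5)) * 4, hD0⟩, hE',
    pr_gtri hK.prim hpv hG.pr, ?_, ?_, ?_, ?_, ?_⟩
  · rw [hfun]
    refine strictMono_nat_of_lt_succ fun t => ?_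
    have h1 := gam_lt (KD := KD) (v := v) cmp t
    have h2 := hp_pos (t + 1)
    linarith
  · rw [hfun]; exact hlub2
  · rintro m X ⟨s, t, h⟩
    exact ⟨s, t, fun m' hm' => h m' (by simp only at hm' ⊢; omega)⟩
  · intro m
    have h1 : UE E' (fun _ => false) m ⊆ HS KD v α (c1 + c5) (a1 + (c1 + c5)) m := by
      rintro X ⟨s, t, h⟩
      exact ⟨t, h m (Nat.lt_succ_self m)⟩
    refine (measure_mono h1).trans ((lam_HS cmp hK hΓ hΓ1 hgle m).trans ?_)
    rw [← ENNReal.ofReal_coe_nnreal, ← ENNReal.ofReal_mul (NNReal.coe_nonneg _), bv_gtri]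
    exact le_rfl
  · intro m
    choose t ht using hZH
    refine ⟨0, ∑ m' ∈ Finset.range (m + 1), t m', fun m' hm' => ?_⟩
    refine HE_mono (pre_prefix Z ?_) (ht m')
    exact Finset.single_le_sum (f := t) (fun _ _ => Nat.zero_le _) (Finset.mem_range.2 hm')

end Pool.Agent.U35.OW
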