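import Pool.Agent.U35.OW.Step

set_option autoImplicit false

/-! The machine step preserves the full invariant. -/

namespace Pool.Agent.U35.OW

/-- all elements of a frame -/
def fel (f : Frame) : List Elt := (fD f).flatten ++ fE f

/-- all elements of the stack -/
def elems (stk : List Frame) : List Elt := (stk.map fel).flatten

theorem elems_cons (f : Frame) (stk : List Frame) : elems (f :: stk) = fel f ++ elems stk := by
  simp [elems]

theorem elems_append (l r : List Frame) : elems (l ++ r) = elems l ++ elems r := by
  simp [elems]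

theorem cnt_fel (p : Elt) (f : Frame) :
    (fel f).count p = (fD f).flatten.count p + (fE f).count p := by
  unfold fel
  rw [List.count_append]

theorem cnt_elems_cons (p : Elt) (f : Frame) (stk : List Frame) :
    (elems (f :: stk)).count p = (fD f).flatten.count p + (fE f).count p + (elems stk).count p := by
  rw [elems_cons, List.count_append, cnt_fel]

theorem cnt_upd (p : Elt) (b b' : List Bool) (Ec : List Elt) (f : Frame) :
    (fD (upd b b' Ec f)).flatten.count p + (fE (upd b b' Ec f)).count p =
      Ec.count p + ((fD f).flatten.count p + (fE f).count p) := by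
  have h1 : (fD f).flatten.count p = ((fD f).take (keep b b' f)).flatten.count p +
      ((fD f).drop (keep b b' f)).flatten.count p := by
    rw [← List.count_append, ← List.flatten_append, List.take_append_drop]
  have h2 : fE (upd b b' Ec f) = Ec ++ (((fD f).drop (keep b b' f)).flatten ++ fE f) := rfl
  have h3 : fD (upd b b' Ec f) = (fD f).take (keep b b' f) := rfl
  rw [h2, h3, List.count_append, List.count_append]
  omega

theorem cnt_elems_drop (p : Elt) (stk : List Frame) (n : ℕ) :
    (elems (stk.drop n)).count p ≤ (elems stk).count p := by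
  conv_rhs => rw [← List.take_append_drop n stk]
  rw [elems_append, List.count_append]
  omega

section
variable {k : ℕ} {v : List Bool → ℕ} {hist : List (List Bool)} {iss : List Elt} {b b' : List Bool}

theorem Below.att {E : List Elt} {p : Frame} {r : List Frame} (h : Below k v hist iss b p r) :
    Below k v hist iss b (att E p) r := by
  cases r with
  | nil => exact h
  | cons q r => exact h

theorem Below.upd {Ec : List Elt} {p : Frame} {r : List Frame} (h : Below k v hist iss b p r)
    (c c' : List Bool) : Below k v hist iss b (upd c c' Ec p) r := by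
  cases r with
  | nil => exact h
  | cons q r => exact h

theorem Top.return {f p : Frame} {r : List Frame} {Ec : List Elt} (hh : hist.headD [] = b)
    (h : Sel k v hist iss b b' f (p :: r) Ec)
    (hbig : hp (fg f) ≤ w (fE (OW.upd b b' Ec f))) :
    Top k v (b' :: hist) iss b' (OW.att (fE (OW.upd b b' Ec f)) p) r := by
  obtain ⟨hF, -, -⟩ := upd_good hh h
  obtain ⟨⟨h3, h4, h5, h6⟩, h7, h8, h9, h10⟩ := h.bel
  have hlen := h.len
  simp only [List.length_cons] at hlen hF
  have hsp : sm b b' (fx p + (fD p).length) = true := sm_mono (by omega) h.smf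
  have hVD : VD v b' (OW.att (fE (OW.upd b b' Ec f)) p) = VD v b p + hp (v (b.take (fx f))) := by
    have e : VD v b' (OW.att (fE (OW.upd b b' Ec f)) p) =
        VD v b' p + hp (v (b'.take (fx p + (fD p).length + 1))) := by
      unfold VD
      have : (fD (OW.att (fE (OW.upd b b' Ec f)) p)).length = (fD p).length + 1 := by
        change (fD p ++ [fE (OW.upd b b' Ec f)]).length = _
        simp
      rw [this, Finset.sum_range_succ]
      rfl
    rw [e, VD_same hsp, ← h3, take_eq_of_sm h.smf le_rfl]
  refine ⟨by omega, ?_, ?_, ?_, ?_, ?_, ?_, ?_⟩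
  · exact (Below.same hh (sm_mono (by omega) h.smf) h10).att
  · have h8' := h8.same hh hsp
    refine ⟨h8'.e, ?_⟩
    intro y hy
    have hD : fD (OW.att (fE (OW.upd b b' Ec f)) p) = fD p ++ [fE (OW.upd b b' Ec f)] := rfl
    rw [hD] at hy ⊢
    rw [List.length_append, List.length_singleton] at hy
    change Gd (b' :: hist) iss (k - r.length - 1) (fx p + y + 1) _ ∧
      hp (v (b'.take (fx p + y + 1)) + fh p + 1) ≤ _
    rcases Nat.lt_succ_iff_lt_or_eq.1 hy with hy | hy
    · rw [List.getD_append _ _ _ _ hy]
      exact h8'.d y hy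
    · subst hy
      have h11 : (fD p ++ [fE (OW.upd b b' Ec f)]).getD (fD p).length [] =
          fE (OW.upd b b' Ec f) := by
        rw [List.getD_append_right _ _ _ _ le_rfl]; simp
      rw [h11, ← h3]
      refine ⟨?_, ?_⟩
      · have h12 : k - r.length - 1 = k - (r.length + 1) := by omega
        rw [h12]
        exact hF.e
      · rw [← take_eq_of_sm h.smf le_rfl, ← h4]
        exact hbig
  · exact h7
  · have := h.sle
    change fs p < (b' :: hist).length
    simp only [List.length_cons]; omega
  · have := h.pos
    change fx p + (fD p ++ [fE (OW.upd b b' Ec f)]).length < (b' :: hist).length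
    simp only [List.length_cons, List.length_append, List.length_nil]; omega
  · intro _
    rw [hVD]
    change Uu iss (fs p) + hp (fh p + 2 + ((b' :: hist).length - 1)) ≤
      w (fE p) + hp (fh p + 1) * (VD v b p + hp (v (b.take (fx f)))) + hp (fh p + 2 + fs p)
    have e1 : hp (fg f) = hp (fh p + 1) * hp (v (b.take (fx f))) := by
      rw [h4, ← hp_add]; congr 1; omega
    have e2 : hp (fh f) = hp (fh p + 1 + fs f) / 4 := by
      rw [h5, show fh p + 3 + fs f = fh p + 1 + fs f + 1 + 1 by omega, hp_succ, hp_succ]; ring
    have e3 : hp (fh p + 2 + ((b' :: hist).length - 1)) ≤ hp (fh p + 1 + fs f) / 2 := by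
      rw [← hp_succ]
      have := h.sle
      exact hp_le (by simp only [List.length_cons]; omega)
    have e4 := h.us
    have e5 := h.wt
    have e6 := hp_pos (fh p + 1 + fs f)
    rw [mul_add, ← e1]
    linarith
  · intro h11; omega

theorem Top.push {f : Frame} {rest : List Frame} {Ec : List Elt} (hh : hist.headD [] = b)
    (hne : hist ≠ []) (hiss : ∀ p ∈ iss, p.1 < hist.length)
    (h : Sel k v hist iss b b' f rest Ec) (hk : rest.length + 1 < k)
    (hbig : ¬ hp (fg f) ≤ w (fE (OW.upd b b' Ec f))) {nf : Frame}
    (hnf : nf = newF v hist.length b' (OW.upd b b' Ec f)) {iss' : List Elt}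
    (hiss' : iss' = if rest.length + 2 = k then (hist.length, fh nf) :: iss else iss) :
    Top k v (b' :: hist) iss' b' nf (OW.upd b b' Ec f :: rest) := by
  have hl : 0 < hist.length := List.length_pos_of_ne_nil hne
  obtain ⟨hF, h2, -⟩ := upd_good hh h
  have h2' := h2 hk
  have hsub : ∀ p ∈ iss, p ∈ iss' := by
    intro p hp
    rw [hiss']
    split_ifs
    · exact List.mem_cons_of_mem _ hp
    · exact hp
  have hU0 : Uu iss hist.length = 0 := Uu_zero_of_lt hiss
  have hbel : Below k v (b' :: hist) iss' b' (OW.upd b b' Ec f) rest := by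
    have h3 := (Below.same hh h.smf h.bel).upd (Ec := Ec) b b'
    rw [hiss']
    split_ifs
    · exact h3.issue (show fs f ≤ hist.length from h.sle.le)
    · exact h3
  have hnx : fx nf = fx f + (fD (OW.upd b b' Ec f)).length + 1 := by rw [hnf]; rfl
  have hng : fg nf = v (b'.take (fx f + (fD (OW.upd b b' Ec f)).length + 1)) + fh f + 1 := by
    rw [hnf]; rfl
  have hnh : fh nf = fh f + 3 + hist.length := by rw [hnf]; rfl
  have hns : fs nf = hist.length := by rw [hnf]; rfl
  have hnE : fE nf = [] := by rw [hnf]; rfl
  have hnD : fD nf = [] := by rw [hnf]; rfl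
  refine ⟨by simp only [List.length_cons]; omega, ⟨⟨hnx, ?_, ?_, ?_⟩, ?_, hF.mono_iss hsub, ?_, hbel⟩,
    ⟨?_, ?_⟩, ?_, ?_, ?_, ?_, ?_⟩
  · rw [hng, hnx]; rfl
  · rw [hnh, hns]; rfl
  · rw [hns]; exact h.sle
  · exact not_le.1 hbig
  · rw [hns]
    change Uu iss' (fs f) + hp (fh f + 1 + hist.length) ≤ w (fE (OW.upd b b' Ec f)) +
      hp (fh f + 1) * VD v b' (OW.upd b b' Ec f) + hp (fh f + 2 + fs f) + Uu iss' hist.length
    have e1 : fh f + 2 + (hist.length - 1) = fh f + 1 + hist.length := by omega
    rw [e1] at h2'
    rw [hiss']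
    split_ifs
    · rw [Uu_cons h.sle.le, Uu_cons le_rfl, hU0]
      linarith
    · rw [hU0]
      linarith
  · rw [hnE]; exact Gd.nil _ _ _ _
  · intro y hy
    rw [hnD] at hy
    simp at hy
  · rw [hnE, w_nil]; exact hp_pos _
  · rw [hns]; simp
  · have := h.pos
    have hkl : (fD (OW.upd b b' Ec f)).length ≤ (fD f).length := by
      change ((fD f).take _).length ≤ _
      exact List.length_take_le' _ _
    rw [hnx, hnD]
    simp only [List.length_cons, List.length_nil]; omega
  · intro h3
    simp only [List.length_cons] at h3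
    rw [hiss', if_neg (by omega), hns, hU0, hnE, w_nil]
    have : VD v b' nf = 0 := by
      unfold VD; rw [hnD]; simp
    rw [this]
    simp
  · intro h3
    simp only [List.length_cons] at h3
    refine ⟨hnD, ?_⟩
    rw [hiss', if_pos (by omega), hns, Uu_cons le_rfl, hU0, hnE, w_nil]
    linarith

theorem Top.stay {f : Frame} {rest : List Frame} {Ec : List Elt} (hh : hist.headD [] = b)
    (h : Sel k v hist iss b b' f rest Ec) (hk : rest.length + 1 = k)
    (hbig : ¬ hp (fg f) ≤ w (fE (OW.upd b b' Ec f))) :
    Top k v (b' :: hist) ((hist.length, fh f) :: iss) b' (OW.upd b b' Ec f) rest := by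
  obtain ⟨hF, -, h2⟩ := upd_good hh h
  obtain ⟨h3, h4⟩ := h2 hk
  have hkl : (fD (OW.upd b b' Ec f)).length ≤ (fD f).length := by
    change ((fD f).take _).length ≤ _
    exact List.length_take_le' _ _
  refine ⟨h.len, ((Below.same hh h.smf h.bel).upd b b').issue (show fs f ≤ hist.length from h.sle.le),
    hF.mono_iss fun _ => List.mem_cons_of_mem _, not_le.1 hbig, ?_, ?_, ?_, ?_⟩
  · have := h.sle
    change fs f < (b' :: hist).length
    simp only [List.length_cons]; omega
  · have := h.pos
    change fx f + (fD (OW.upd b b' Ec f)).length < (b' :: hist).length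
    simp only [List.length_cons]; omega
  · intro h5; omega
  · intro _
    refine ⟨h3, ?_⟩
    change Uu _ (fs f) ≤ _ + hp (fh f)
    rw [Uu_cons h.sle.le]
    linarith

end

end Pool.Agent.U35.OW
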