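import Pool.Agent.U35.OW.Low

set_option autoImplicit false

/-! Approximation of the relative left-c.e. real along the approximation of the oracle. -/

open Encodable
open Pool.Agent.Helper227 (S1 IsUniversal IsMachine KU KU_le KTrivial pre take_pre length_pre
  PP.ex_lt PP.all_lt PP.ex_mem PP.all_mem)

namespace Pool.Agent.U35.OW

/-- codes of rationals -/
abbrev Tri := ℕ × ℕ × ℕ

/-- the rational coded by `x` -/
noncomputable def bv (x : Tri) : ℝ := ((x.1 : ℝ) - x.2.1) / (x.2.2 + 1)

section
variable (qf : List Bool × ℕ × ℕ → ℕ → Prop) [∀ a n, Decidable (qf a n)]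

/-- value found by the string `σ` at the argument `n` -/
def fnd (σ : List Bool) (n : ℕ) : Option Tri :=
  ((List.range (σ.length + 1)).filterMap fun m =>
    if ∃ i < σ.length + 1, qf (σ.take i, n, m) σ.length then decode m else none).head?

variable (x0 : Tri)

def valsN (τ : List Bool) (n : ℕ) : List Tri :=
  Nat.rec [x0] (fun y L => L ++ (fnd qf (τ.take (y + 1)) L.length).toList) n

theorem valsN_zero (τ : List Bool) : valsN qf x0 τ 0 = [x0] := rfl

theorem valsN_succ (τ : List Bool) (n : ℕ) : valsN qf x0 τ (n + 1) =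
    valsN qf x0 τ n ++ (fnd qf (τ.take (n + 1)) (valsN qf x0 τ n).length).toList := rfl

def vals (τ : List Bool) : List Tri := valsN qf x0 τ τ.length

def ind (τ : List Bool) : ℕ := (vals qf x0 τ).length - 1

def lastv (τ : List Bool) : Tri := (vals qf x0 τ).getD (ind qf x0 τ) x0

/-- test for the size of the increment -/
def smd (Bd v : ℕ) (x x' : Tri) : Bool :=
  decide (2 ^ (v + 1) * (x'.1 * (x.2.2 + 1) + x.2.1 * (x'.2.2 + 1)) ≤
    Bd * ((x.2.2 + 1) * (x'.2.2 + 1)) +
      2 ^ (v + 1) * (x.1 * (x'.2.2 + 1) + x'.2.1 * (x.2.2 + 1)))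

theorem smd_iff {Bd v : ℕ} {x x' : Tri} :
    smd Bd v x x' = true ↔ bv x' - bv x ≤ Bd * hp (v + 1) := by
  unfold smd bv
  rw [decide_eq_true_eq]
  have h1 : (2 ^ (v + 1) * (x'.1 * (x.2.2 + 1) + x.2.1 * (x'.2.2 + 1)) ≤
    Bd * ((x.2.2 + 1) * (x'.2.2 + 1)) +
      2 ^ (v + 1) * (x.1 * (x'.2.2 + 1) + x'.2.1 * (x.2.2 + 1))) ↔
    ((2 : ℝ) ^ (v + 1) * (x'.1 * (x.2.2 + 1) + x.2.1 * (x'.2.2 + 1)) ≤
    Bd * ((x.2.2 + 1) * (x'.2.2 + 1)) +
      2 ^ (v + 1) * (x.1 * (x'.2.2 + 1) + x'.2.1 * (x.2.2 + 1))) := by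
    exact_mod_cast Iff.rfl
  rw [h1]
  have h2 : (0 : ℝ) < x.2.2 + 1 := by positivity
  have h3 : (0 : ℝ) < x'.2.2 + 1 := by positivity
  have h4 : (0 : ℝ) < 2 ^ (v + 1) := by positivity
  have h5 : hp (v + 1) = 1 / 2 ^ (v + 1) := by
    rw [eq_div_iff h4.ne']; exact hp_mul_two_pow _
  rw [h5, div_sub_div _ _ h3.ne' h2.ne', mul_one_div, div_le_div_iff₀ (by positivity) h4]
  constructor
  · intro h; nlinarith
  · intro h; nlinarith

def bw (Bd : ℕ) (τ : List Bool) : ℕ :=
  ((List.range (τ.length + 1)).filter fun v =>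
    smd Bd v (lastv qf x0 (τ.take (τ.length - 1))) (lastv qf x0 τ)).length

end

section
variable {qf : List Bool × ℕ × ℕ → ℕ → Prop} [∀ a n, Decidable (qf a n)] {x0 : Tri}

theorem pr_fnd (hq : PrimrecRel qf) : Primrec₂ (fnd qf) := by
  unfold fnd
  refine Primrec.list_head?.comp (Primrec.listFilterMap
    (f := fun x : List Bool × ℕ => List.range (x.1.length + 1))
    (g := fun x m => if ∃ i < x.1.length + 1, qf (x.1.take i, x.2, m) x.1.length
      then decode m else none)
    (Primrec.list_range.comp (Primrec.succ.comp (pr_len (f := fun x : List Bool × ℕ => x.1)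
      Primrec.fst))) ?_)
  have h1 : PrimrecPred fun x : (List Bool × ℕ) × ℕ =>
      ∃ i < x.1.1.length + 1, qf (x.1.1.take i, x.1.2, x.2) x.1.1.length := by
    refine PP.ex_lt (α := (List Bool × ℕ) × ℕ)
      (p := fun x i => qf (x.1.1.take i, x.1.2, x.2) x.1.1.length) ?_
      (Primrec.succ.comp (Primrec.list_length.comp (Primrec.fst.comp Primrec.fst)))
    exact hq.comp ((pr_take Primrec.snd (Primrec.fst.comp (Primrec.fst.comp Primrec.fst))).pair
      ((Primrec.snd.comp (Primrec.fst.comp Primrec.fst)).pair (Primrec.snd.comp Primrec.fst)))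
      (pr_len (Primrec.fst.comp (Primrec.fst.comp Primrec.fst)))
  exact (Primrec.ite h1 (Primrec.decode.comp Primrec.snd) (Primrec.const none)).to₂

theorem pr_valsN (hq : PrimrecRel qf) : Primrec₂ (valsN qf x0) := by
  unfold valsN
  refine Primrec.nat_rec' (f := fun p : List Bool × ℕ => p.2) (g := fun _ => [x0])
    (h := fun p r => r.2 ++ (fnd qf (p.1.take (r.1 + 1)) r.2.length).toList)
    Primrec.snd (Primrec.const _) ?_
  have h1 : Primrec fun x : (List Bool × ℕ) × (ℕ × List Tri) => x.2.2 :=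
    Primrec.snd.comp Primrec.snd
  have h2 : Primrec fun x : (List Bool × ℕ) × (ℕ × List Tri) => x.1.1.take (x.2.1 + 1) :=
    pr_take (Primrec.succ.comp (Primrec.fst.comp Primrec.snd)) (Primrec.fst.comp Primrec.fst)
  exact (pr_append h1 (Primrec.optionToList.comp ((pr_fnd hq).comp h2 (pr_len h1)))).to₂

theorem pr_vals (hq : PrimrecRel qf) : Primrec (vals qf x0) := by
  unfold vals
  exact (pr_valsN hq).comp Primrec.id Primrec.list_length

theorem pr_ind (hq : PrimrecRel qf) : Primrec (ind qf x0) := by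
  unfold ind
  exact pr_sub (pr_len (pr_vals hq)) (Primrec.const 1)

theorem pr_lastv (hq : PrimrecRel qf) : Primrec (lastv qf x0) := by
  unfold lastv
  exact pr_getD x0 (pr_vals hq) (pr_ind hq)

theorem pr_smd {α : Type*} [Primcodable α] {Bd : ℕ} {v : α → ℕ} {x x' : α → Tri}
    (hv : Primrec v) (hx : Primrec x) (hx' : Primrec x') :
    Primrec fun a => smd Bd (v a) (x a) (x' a) := by
  unfold smd
  have h1 := Primrec.fst.comp hx
  have h2 := Primrec.fst.comp (Primrec.snd.comp hx)
  have h3 := pr_add (Primrec.snd.comp (Primrec.snd.comp hx)) (Primrec.const 1)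
  have h1' := Primrec.fst.comp hx'
  have h2' := Primrec.fst.comp (Primrec.snd.comp hx')
  have h3' := pr_add (Primrec.snd.comp (Primrec.snd.comp hx')) (Primrec.const 1)
  have h4 := pr_pw (Primrec.const 2) (pr_add hv (Primrec.const 1))
  exact (Primrec.nat_le.comp (pr_mul h4 (pr_add (pr_mul h1' h3) (pr_mul h2 h3')))
    (pr_add (pr_mul (Primrec.const Bd) (pr_mul h3 h3'))
      (pr_mul h4 (pr_add (pr_mul h1 h3') (pr_mul h2' h3))))).decide

theorem pr_bw (hq : PrimrecRel qf) (Bd : ℕ) : Primrec (bw qf x0 Bd) := by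
  unfold bw
  refine pr_filter_len (f := fun τ : List Bool => List.range (τ.length + 1))
    (p := fun τ v => smd Bd v (lastv qf x0 (τ.take (τ.length - 1))) (lastv qf x0 τ))
    (Primrec.list_range.comp (Primrec.succ.comp Primrec.list_length)) ?_
  exact (pr_smd Primrec.snd ((pr_lastv hq).comp (pr_take (pr_sub (pr_len Primrec.fst)
    (Primrec.const 1)) Primrec.fst)) ((pr_lastv hq).comp Primrec.fst)).to₂

theorem valsN_take (τ : List Bool) {n m : ℕ} (h : n ≤ m) :
    valsN qf x0 (τ.take m) n = valsN qf x0 τ n := by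
  induction n with
  | zero => rfl
  | succ n ih =>
    rw [valsN_succ, valsN_succ, ih (by omega), List.take_take, min_eq_left h]

theorem vals_take (τ : List Bool) {n : ℕ} (h : n ≤ τ.length) :
    vals qf x0 (τ.take n) = valsN qf x0 τ n := by
  unfold vals
  rw [List.length_take, min_eq_left h, valsN_take τ le_rfl]

theorem valsN_prefix (τ : List Bool) {n m : ℕ} (h : n ≤ m) :
    valsN qf x0 τ n <+: valsN qf x0 τ m := by
  induction m, h using Nat.le_induction with
  | base => exact List.prefix_rfl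
  | succ m h ih =>
    rw [valsN_succ]
    exact ih.trans (List.prefix_append _ _)

theorem vals_prefix {σ τ : List Bool} (h : σ <+: τ) : vals qf x0 σ <+: vals qf x0 τ := by
  rw [List.prefix_iff_eq_take.1 h, vals_take τ h.length_le]
  exact valsN_prefix τ h.length_le

theorem ind_mono {σ τ : List Bool} (h : σ <+: τ) : ind qf x0 σ ≤ ind qf x0 τ := by
  unfold ind
  have := (vals_prefix (qf := qf) (x0 := x0) h).length_le
  omega

theorem vals_pos (τ : List Bool) : 0 < (vals qf x0 τ).length := by
  have h := (vals_prefix (qf := qf) (x0 := x0) (List.nil_prefix (l := τ))).length_le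
  have h2 : vals qf x0 [] = [x0] := rfl
  rw [h2] at h
  exact Nat.lt_of_lt_of_le (by simp) h

variable {A : ℕ → Bool} {f : ℕ → Tri}

/-- the relation computes `f` from `A` -/
structure Comp (qf : List Bool × ℕ × ℕ → ℕ → Prop) (A : ℕ → Bool) (f : ℕ → Tri) : Prop where
  pr : PrimrecRel qf
  mono : ∀ a m n, m ≤ n → qf a m → qf a n
  sound : ∀ s n m t, qf (pre A s, n, m) t → m = encode (f n)
  compl : ∀ n, ∃ s t, qf (pre A s, n, encode (f n)) t

theorem fnd_true (hc : Comp qf A f) {l n : ℕ} {x : Tri} (h : fnd qf (pre A l) n = some x) :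
    x = f n := by
  unfold fnd at h
  have h1 := List.mem_of_mem_head? h
  rw [List.mem_filterMap] at h1
  obtain ⟨m, h2, h3⟩ := h1
  split_ifs at h3 with h4
  · obtain ⟨i, hi, h5⟩ := h4
    rw [length_pre] at hi
    rw [take_pre A l i (by omega)] at h5
    have h6 := hc.sound _ _ _ _ h5
    rw [h6, encodek] at h3
    exact (Option.some.inj h3).symm

theorem fnd_ex (hc : Comp qf A f) (n : ℕ) : ∃ N, ∀ l ≥ N, fnd qf (pre A l) n = some (f n) := by
  obtain ⟨s, t, h⟩ := hc.compl n
  refine ⟨s + t + encode (f n), fun l hl => ?_⟩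
  cases h1 : fnd qf (pre A l) n with
  | some x => rw [fnd_true hc h1]
  | none =>
    exfalso
    unfold fnd at h1
    rw [List.head?_eq_none_iff, List.filterMap_eq_nil_iff] at h1
    have h2 := h1 (encode (f n)) (by rw [List.mem_range, length_pre]; omega)
    rw [if_pos, encodek] at h2
    · exact absurd h2 (by simp)
    · refine ⟨s, by rw [length_pre]; omega, ?_⟩
      rw [take_pre A l s (by omega), length_pre]
      exact hc.mono _ _ _ (by omega) h

theorem vals_pre_succ (n : ℕ) : vals qf x0 (pre A (n + 1)) =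
    vals qf x0 (pre A n) ++ (fnd qf (pre A (n + 1)) (vals qf x0 (pre A n)).length).toList := by
  have h1 := vals_take (qf := qf) (x0 := x0) (pre A (n + 1)) (n := n) (by rw [length_pre]; omega)
  have h2 := vals_take (qf := qf) (x0 := x0) (pre A (n + 1)) (n := n + 1) (by rw [length_pre])
  rw [take_pre A _ _ (by omega)] at h1 h2
  rw [h1, h2, valsN_succ, take_pre A _ _ le_rfl]

theorem vals_true (hc : Comp qf A f) (n : ℕ) :
    vals qf (f 0) (pre A n) = (List.range (vals qf (f 0) (pre A n)).length).map f := by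
  induction n with
  | zero =>
    have : vals qf (f 0) (pre A 0) = [f 0] := rfl
    rw [this]; rfl
  | succ n ih =>
    rw [vals_pre_succ]
    cases h : fnd qf (pre A (n + 1)) (vals qf (f 0) (pre A n)).length with
    | none => simpa using ih
    | some x =>
      rw [fnd_true hc h, Option.toList_some, List.length_append, List.length_singleton,
        List.range_succ, List.map_append, ← ih]
      rfl

theorem lastv_true (hc : Comp qf A f) (n : ℕ) :
    lastv qf (f 0) (pre A n) = f (ind qf (f 0) (pre A n)) := by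
  unfold lastv
  have h1 : ind qf (f 0) (pre A n) < (vals qf (f 0) (pre A n)).length := by
    have := vals_pos (qf := qf) (x0 := f 0) (pre A n)
    unfold ind
    omega
  have h2 := congrArg (fun l => l.getD (ind qf (f 0) (pre A n)) (f 0)) (vals_true hc n)
  refine h2.trans ?_
  rw [List.getD_eq_getElem _ _ (by simpa using h1)]
  simp

theorem ind_unbounded (hc : Comp qf A f) (j : ℕ) : ∃ N, ∀ n ≥ N, j ≤ ind qf (f 0) (pre A n) := by
  induction j with
  | zero => exact ⟨0, fun _ _ => Nat.zero_le _⟩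
  | succ j ih =>
    obtain ⟨N, hN⟩ := ih
    obtain ⟨M, hM⟩ := fnd_ex hc (j + 1)
    refine ⟨max N M + 1, fun n hn => ?_⟩
    have h1 := le_max_left N M
    have h2 := le_max_right N M
    have h3 := hN (max N M) h1
    have hmono : ind qf (f 0) (pre A (max N M + 1)) ≤ ind qf (f 0) (pre A n) :=
      ind_mono (Pool.Agent.Helper227.pre_prefix A hn)
    refine le_trans ?_ hmono
    rcases Nat.lt_or_ge j (ind qf (f 0) (pre A (max N M))) with h4 | h4
    · exact h4.trans_le (ind_mono (Pool.Agent.Helper227.pre_prefix A (Nat.le_succ _)))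
    · have h5 : (vals qf (f 0) (pre A (max N M))).length = j + 1 := by
        have := vals_pos (qf := qf) (x0 := f 0) (pre A (max N M))
        unfold ind at h3 h4
        omega
      unfold ind
      rw [vals_pre_succ, h5, hM _ (by omega), List.length_append, h5]
      simp

/-- specification of the weights along `A` -/
theorem bw_spec (hc : Comp qf A f) {Bd : ℕ} (hB : 0 < Bd) {n : ℕ}
    (hd : bv (f (ind qf (f 0) (pre A (n + 1)))) - bv (f (ind qf (f 0) (pre A n))) ≤ Bd) :
    bv (f (ind qf (f 0) (pre A (n + 1)))) - bv (f (ind qf (f 0) (pre A n))) ≤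
      Bd * hp (bw qf (f 0) Bd (pre A (n + 1))) ∧
    (0 ≤ bv (f (ind qf (f 0) (pre A (n + 1)))) - bv (f (ind qf (f 0) (pre A n))) →
    hp (bw qf (f 0) Bd (pre A (n + 1))) ≤
      2 * (bv (f (ind qf (f 0) (pre A (n + 1)))) - bv (f (ind qf (f 0) (pre A n)))) / Bd +
        hp (n + 2)) := by
  set D := bv (f (ind qf (f 0) (pre A (n + 1)))) - bv (f (ind qf (f 0) (pre A n))) with hD
  have hB' : (0 : ℝ) < Bd := by exact_mod_cast hB
  have h1 : bw qf (f 0) Bd (pre A (n + 1)) = ((List.range (n + 2)).filter fun v =>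
      smd Bd v (lastv qf (f 0) (pre A n)) (lastv qf (f 0) (pre A (n + 1)))).length := by
    unfold bw
    rw [length_pre, Nat.add_sub_cancel, take_pre A _ n (by omega)]
  have h2 : ∀ v, (smd Bd v (lastv qf (f 0) (pre A n)) (lastv qf (f 0) (pre A (n + 1))) = true ↔
      D ≤ Bd * hp (v + 1)) := by
    intro v
    rw [smd_iff, lastv_true hc, lastv_true hc]
  have h3 := filter_range_iff (P := fun v =>
      smd Bd v (lastv qf (f 0) (pre A n)) (lastv qf (f 0) (pre A (n + 1)))) (by
        intro y y' hy h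
        rw [h2] at h ⊢
        exact h.trans (mul_le_mul_of_nonneg_left (hp_le (by omega)) hB'.le)) (n + 2)
  rw [← h1] at h3
  set K := bw qf (f 0) Bd (pre A (n + 1)) with hK
  have hKle : K ≤ n + 2 := by
    rw [h1]
    have := List.length_filter_le (fun v =>
      smd Bd v (lastv qf (f 0) (pre A n)) (lastv qf (f 0) (pre A (n + 1)))) (List.range (n + 2))
    rwa [List.length_range] at this
  constructor
  · rcases Nat.eq_zero_or_pos K with h4 | h4
    · rw [h4, hp_zero, mul_one]; exact hd
    · have h5 := (h3 (K - 1) (by omega)).2 (by omega)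
      rw [h2, Nat.sub_add_cancel h4] at h5
      exact h5
  · intro hD0
    rcases lt_or_eq_of_le hKle with h4 | h4
    · have h5 : ¬ D ≤ Bd * hp (K + 1) := by
        rw [← h2, h3 K h4]
        exact lt_irrefl _
      rw [not_le, hp_succ] at h5
      have h6 := hp_nonneg (n + 2)
      have h7 : hp K ≤ 2 * D / Bd := by
        rw [le_div_iff₀ hB']
        linarith
      linarith
    · rw [h4]
      have : 0 ≤ 2 * D / Bd := by positivity
      linarith

end

end Pool.Agent.U35.OW
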