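import Pool.Agent.U35.OW.Beta

set_option autoImplicit false

/-! The key estimate for the relative left-c.e. real. -/

open Encodable
open Pool.Agent.Helper227 (S1 IsUniversal IsMachine KU KU_le KTrivial pre take_pre length_pre
  pre_prefix PP.ex_lt PP.all_lt PP.ex_mem PP.all_mem)

namespace Pool.Agent.U35.OW

section
variable {A : ℕ → Bool} {α : ℕ → List Bool}

theorem common (cmp : ∀ t, α (t + 1) <+: α t ∨ α t <+: α (t + 1))
    (lim : ∀ n, ∃ N, ∀ t ≥ N, (α t).take n = pre A n) (t : ℕ) :
    ∃ p ≤ (α t).length, (α t).take p = pre A p ∧ ∃ i ≥ t, α i <+: pre A p := by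
  classical
  have h0 : (α t).take 0 = pre A 0 := rfl
  have hspec := Nat.findGreatest_spec (P := fun p => (α t).take p = pre A p)
    (Nat.zero_le (α t).length) h0
  have hle := Nat.findGreatest_le (P := fun p => (α t).take p = pre A p) (α t).length
  have hgr := fun p => Nat.findGreatest_is_greatest (P := fun p => (α t).take p = pre A p)
    (n := (α t).length) (k := p)
  set p := Nat.findGreatest (fun p => (α t).take p = pre A p) (α t).length with hpdef
  refine ⟨p, hle, hspec, ?_⟩
  rcases lt_or_eq_of_le hle with h1 | h1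
  · have hne : (α t).take (p + 1) ≠ pre A (p + 1) := hgr (p + 1) (by omega) (by omega)
    have hex : ∃ i, t ≤ i ∧ ¬ (α t).take (p + 1) <+: α i := by
      obtain ⟨N, hN⟩ := lim (p + 1)
      refine ⟨max t N, le_max_left _ _, fun h => hne ?_⟩
      have h2 := hN (max t N) (le_max_right _ _)
      rw [← h2, List.prefix_iff_eq_take.1 h, List.length_take]
      congr 1
      omega
    obtain ⟨hi1, hi2⟩ := Nat.find_spec hex
    have hmin := fun i => Nat.find_min hex (m := i)
    set i := Nat.find hex with hidef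
    have hti : t < i := by
      rcases lt_or_eq_of_le hi1 with h | h
      · exact h
      · exact absurd (h ▸ List.take_prefix _ _) hi2
    obtain ⟨i', hi'⟩ := Nat.exists_eq_add_of_lt hti
    have hi3 : (α t).take (p + 1) <+: α (t + i') := by
      have := hmin (t + i') (by omega)
      push Not at this
      exact this (by omega)
    have hi4 : i = t + i' + 1 := by omega
    rw [hi4] at hi2
    rcases cmp (t + i') with h | h
    · have h2 : (α (t + i' + 1)).length < p + 1 := by
        by_contra hc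
        apply hi2
        refine List.prefix_of_prefix_length_le hi3 h ?_
        rw [List.length_take]; omega
      have h3 : α (t + i' + 1) <+: (α t).take (p + 1) :=
        List.prefix_of_prefix_length_le h hi3 (by rw [List.length_take]; omega)
      have h4 : α (t + i' + 1) <+: (α t).take p := by
        refine List.prefix_of_prefix_length_le (h3.trans (List.take_prefix _ _))
          (List.take_prefix _ _) ?_
        rw [List.length_take]; omega
      refine ⟨t + i' + 1, by omega, ?_⟩
      rw [← hspec]; exact h4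
    · exact absurd (hi3.trans h) hi2
  · refine ⟨t, le_rfl, ?_⟩
    rw [← hspec, h1, List.take_length]

end

section
variable {qf : List Bool × ℕ × ℕ → ℕ → Prop} [∀ a n, Decidable (qf a n)]
  {A : ℕ → Bool} {f : ℕ → Tri} {α : ℕ → List Bool} {W : ℝ}

theorem ind_zero (x0 : Tri) : ind qf x0 (pre A 0) = 0 := rfl

theorem Vv_pre (v : List Bool → ℕ) (n : ℕ) :
    Vv v (pre A n) = ∑ y ∈ Finset.range n, hp (v (pre A (y + 1))) := by
  unfold Vv
  rw [length_pre]
  refine Finset.sum_congr rfl fun y hy => ?_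
  rw [take_pre A n _ (by have := Finset.mem_range.1 hy; omega)]

theorem ok_true (hc : Comp qf A f) (hmono : Monotone fun m => bv (f m)) {Bd : ℕ} {b : ℝ}
    (hb : ∀ m, bv (f m) ≤ b) (hBd : 4 * (b - bv (f 0)) ≤ Bd) (hBd1 : 0 < Bd) (n : ℕ) :
    okb (bw qf (f 0) Bd) (pre A n) = true := by
  rw [okb_iff, Vv_pre]
  have hB' : (0 : ℝ) < Bd := by exact_mod_cast hBd1
  have h1 : ∀ y ∈ Finset.range n, hp (bw qf (f 0) Bd (pre A (y + 1))) ≤
      2 * (bv (f (ind qf (f 0) (pre A (y + 1)))) - bv (f (ind qf (f 0) (pre A y)))) / Bd +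
        hp (y + 2) := by
    intro y _
    have h2 := hmono (ind_mono (qf := qf) (x0 := f 0) (pre_prefix A (Nat.le_succ y)))
    simp only at h2
    have h3 := hmono (Nat.zero_le (ind qf (f 0) (pre A y)))
    simp only at h3
    have h4 := hb (ind qf (f 0) (pre A (y + 1)))
    exact (bw_spec hc hBd1 (by linarith)).2 (by linarith)
  refine (Finset.sum_le_sum h1).trans ?_
  rw [Finset.sum_add_distrib, ← Finset.sum_div, ← Finset.mul_sum,
    Finset.sum_range_sub (fun y => bv (f (ind qf (f 0) (pre A y))))]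
  have h2 := sum_len n
  have h3 := hb (ind qf (f 0) (pre A n))
  rw [ind_zero]
  have h4 : 2 * (bv (f (ind qf (f 0) (pre A n))) - bv (f 0)) / Bd ≤ 1 / 2 := by
    rw [div_le_iff₀ hB']
    linarith
  linarith

theorem inc_true (hc : Comp qf A f) (hmono : Monotone fun m => bv (f m)) {Bd : ℕ} {b : ℝ}
    (hb : ∀ m, bv (f m) ≤ b) (hBd : 4 * (b - bv (f 0)) ≤ Bd) (hBd1 : 0 < Bd) {p n : ℕ}
    (hpn : p ≤ n) : bv (f (ind qf (f 0) (pre A n))) - bv (f (ind qf (f 0) (pre A p))) ≤
      2 * Bd * (Vv (vt (bw qf (f 0) Bd)) (pre A n) - Vv (vt (bw qf (f 0) Bd)) (pre A p)) := by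
  induction n, hpn using Nat.le_induction with
  | base => simp
  | succ n hpn ih =>
    rw [Vv_pre _ (n + 1), Finset.sum_range_succ, ← Vv_pre]
    have hok := ok_true hc hmono hb hBd hBd1 (n + 1)
    have h1 : hp (vt (bw qf (f 0) Bd) (pre A (n + 1))) =
        hp (bw qf (f 0) Bd (pre A (n + 1))) / 2 := by
      unfold vt
      rw [if_pos hok, hp_succ]
    have h3 := hmono (Nat.zero_le (ind qf (f 0) (pre A n)))
    simp only at h3
    have h4 := hb (ind qf (f 0) (pre A (n + 1)))
    have h5 := hb 0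
    have h6 := (bw_spec hc hBd1 (n := n) (by linarith)).1
    rw [h1]
    linarith

/-- the key estimate -/
theorem beta_key (hc : Comp qf A f) (hmono : Monotone fun m => bv (f m)) {Bd : ℕ} {b : ℝ}
    (hb : ∀ m, bv (f m) ≤ b) (hlub : ∀ δ > 0, ∃ m, b - δ < bv (f m))
    (hBd : 4 * (b - bv (f 0)) ≤ Bd) (hBd1 : 0 < Bd)
    (hG : Good (vt (bw qf (f 0) Bd)) A α W) {t : ℕ} {ε : ℝ}
    (hvar : ∀ j ≥ t, ∑ i ∈ Finset.Ico t j, |Vv (vt (bw qf (f 0) Bd)) (α (i + 1)) -
      Vv (vt (bw qf (f 0) Bd)) (α i)| ≤ ε) :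
    ∃ m0 ≤ ind qf (f 0) (α t), b - bv (f m0) ≤ 2 * Bd * ε := by
  obtain ⟨p, hp1, hp2, i, hi1, hi2⟩ := common hG.cmp hG.lim t
  refine ⟨ind qf (f 0) (pre A p), ?_, ?_⟩
  · rw [← hp2]
    exact ind_mono (List.take_prefix _ _)
  set V := Vv (vt (bw qf (f 0) Bd)) with hV
  have hB' : (0 : ℝ) < Bd := by exact_mod_cast hBd1
  have h5 : ∀ n ≥ p, V (pre A n) - V (pre A p) ≤ ε := by
    intro n hn
    obtain ⟨N, hN⟩ := hG.lim n
    set j := max N i with hj
    have hjN := le_max_left N i
    have hji := le_max_right N i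
    have h1 : V (pre A n) ≤ V (α j) := by
      refine Vv_mono ?_
      rw [← hN j hjN]
      exact List.take_prefix _ _
    have h2 : V (α i) ≤ V (pre A p) := Vv_mono hi2
    have h3 : V (α j) - V (α i) ≤ ∑ u ∈ Finset.Ico i j, |V (α (u + 1)) - V (α u)| := by
      rw [← Finset.sum_Ico_sub (fun u => V (α u)) hji]
      exact Finset.sum_le_sum fun u _ => le_abs_self _
    have h4 : ∑ u ∈ Finset.Ico i j, |V (α (u + 1)) - V (α u)| ≤
        ∑ u ∈ Finset.Ico t j, |V (α (u + 1)) - V (α u)| :=
      Finset.sum_le_sum_of_subset_of_nonneg (Finset.Ico_subset_Ico_left hi1)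
        fun _ _ _ => abs_nonneg _
    have h6 := hvar j (by omega)
    linarith
  refine le_of_forall_pos_le_add fun δ hδ => ?_
  obtain ⟨m, hm⟩ := hlub δ hδ
  obtain ⟨N, hN⟩ := ind_unbounded hc m
  set n := max N p with hn
  have hnN := le_max_left N p
  have hnp := le_max_right N p
  have h7 := hmono (hN n hnN)
  simp only at h7
  have h8 := inc_true hc hmono hb hBd hBd1 hnp
  have h9 := h5 n hnp
  have h10 := mul_le_mul_of_nonneg_left h9 (show (0 : ℝ) ≤ 2 * Bd by positivity)
  linarith

end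

end Pool.Agent.U35.OW
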