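import Pool.Agent.U35.OW.KB

set_option autoImplicit false

/-! The coding lemma for projections. -/

open Encodable
open Pool.Agent.Helper227 (S1 IsUniversal IsMachine KU KU_le PP.ex_lt PP.all_lt PP.ex_mem PP.all_mem)

namespace Pool.Agent.U35.OW

/-- no repetitions -/
def ND (L : List (List Bool)) : Prop :=
  ∀ i < L.length, ∀ j < L.length, L.getD i [] = L.getD j [] → i = j

theorem ND_iff {L : List (List Bool)} : ND L ↔ L.Nodup := by
  rw [List.nodup_iff_injective_getElem]
  constructor
  · intro h i j hij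
    refine Fin.ext (h i i.2 j j.2 ?_)
    rw [List.getD_eq_getElem _ _ i.2, List.getD_eq_getElem _ _ j.2]
    exact hij
  · intro h i hi j hj hij
    rw [List.getD_eq_getElem _ _ hi, List.getD_eq_getElem _ _ hj] at hij
    have := @h ⟨i, hi⟩ ⟨j, hj⟩ hij
    exact congrArg Fin.val this

theorem pr_ND : PrimrecPred ND := by
  unfold ND
  refine PP.all_lt (p := fun (L : List (List Bool)) i => ∀ j < L.length,
    L.getD i [] = L.getD j [] → i = j) ?_ Primrec.list_length
  refine PP.all_lt (α := List (List Bool) × ℕ) (p := fun x j =>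
    x.1.getD x.2 [] = x.1.getD j [] → x.2 = j) ?_ (Primrec.list_length.comp Primrec.fst)
  have h1 : PrimrecPred fun x : (List (List Bool) × ℕ) × ℕ =>
      ¬ (x.1.1.getD x.1.2 [] = x.1.1.getD x.2 []) ∨ x.1.2 = x.2 := by
    refine PrimrecPred.or (PrimrecPred.not ?_) ?_
    · exact pr_dec_eq (pr_getD [] (Primrec.fst.comp Primrec.fst) (Primrec.snd.comp Primrec.fst))
        (pr_getD [] (Primrec.fst.comp Primrec.fst) Primrec.snd)
    · exact pr_dec_eq (Primrec.snd.comp Primrec.fst) Primrec.snd
  exact h1.of_eq fun x => imp_iff_not_or.symm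

/-- weight of a list of programs -/
def tw (L : List (List Bool)) : List Elt := L.map fun τ => (0, τ.length)

theorem w_tw {L : List (List Bool)} (h : L.Nodup) : w (tw L) = ∑ τ ∈ L.toFinset, hp τ.length := by
  rw [List.sum_toFinset _ h]
  unfold w tw
  rw [List.map_map]
  rfl

theorem pr_tw : Primrec tw := by
  unfold tw
  exact Primrec.list_map (f := fun L : List (List Bool) => L)
    (g := fun (_ : List (List Bool)) τ => ((0, τ.length) : Elt)) Primrec.id
    ((Primrec.const 0).pair (Primrec.list_length.comp Primrec.snd)).to₂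

/-- zeros -/
abbrev zs (n : ℕ) : List Bool := List.replicate n false

theorem pr_zs {α : Type*} [Primcodable α] {f : α → ℕ} (hf : Primrec f) :
    Primrec fun a => zs (f a) :=
  (Primrec.list_map (Primrec.list_range.comp hf) (Primrec.const false).to₂).of_eq fun a => by
    refine List.ext_getElem (by simp) fun i h1 h2 => by simp

theorem coding {U : List Bool →. List Bool} (hU : IsUniversal U) {π : List Bool → ℕ}
    (hπ : Primrec π) : ∃ c, ∀ x (F : Finset (List Bool)), (∀ y ∈ F, π y = x) →
      ∑ y ∈ F, hp (KU U y) ≤ 2 ^ c * hp (KU U (zs x)) := by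
  classical
  let Q : ℕ × List Bool → List (List Bool) → Prop := fun p L =>
    ((p.2 = zs p.2.length ∧ 1 ≤ p.1) ∧ (ND L ∧ big (p.1 - 1) (tw L) = true)) ∧
      ∀ τ ∈ L, ∃ y, y ∈ U τ ∧ π y = p.2.length
  have hQ : S1 fun x : (ℕ × List Bool) × List (List Bool) => Q x.1 x.2 := by
    refine S1.and (S1.of_prim (PrimrecPred.and (PrimrecPred.and ?_ ?_) (PrimrecPred.and ?_ ?_))) ?_
    · exact pr_dec_eq (Primrec.snd.comp Primrec.fst)
        (pr_zs (pr_len (Primrec.snd.comp Primrec.fst)))
    · exact Primrec.nat_le.comp (Primrec.const 1) (Primrec.fst.comp Primrec.fst)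
    · exact pr_ND.comp Primrec.snd
    · exact pr_bool (pr_big (pr_sub (Primrec.fst.comp Primrec.fst) (Primrec.const 1))
        (pr_tw.comp Primrec.snd))
    · refine S1.all_mem (α := (ℕ × List Bool) × List (List Bool)) (f := fun x => x.2)
        (p := fun x τ => ∃ y, y ∈ U τ ∧ π y = x.1.2.length) ?_ Primrec.snd
      refine S1.ex (α := ((ℕ × List Bool) × List (List Bool)) × List Bool)
        (p := fun x y => y ∈ U x.2 ∧ π y = x.1.1.2.length) ?_
      refine S1.and ?_ (S1.of_prim ?_)
      · exact (s1_U hU.1.1).comp ((Primrec.snd.comp Primrec.fst).pair Primrec.snd)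
      · exact pr_dec_eq (hπ.comp Primrec.snd) (pr_len (Primrec.snd.comp (Primrec.fst.comp
          (Primrec.fst.comp Primrec.fst))))
  obtain ⟨c, hc⟩ := kc_s1 hU (S1.ex hQ) (by
    intro F hF
    choose! L hL using hF
    have h1 : ∑ p ∈ F, hp p.1 = ∑ x ∈ F.image (fun p => p.2.length),
        ∑ p ∈ F with p.2.length = x, hp p.1 := by
      rw [Finset.sum_fiberwise_of_maps_to]
      intro p hp'
      exact Finset.mem_image_of_mem (fun p : ℕ × List Bool => p.2.length) hp'
    have h2 : ∀ x ∈ F.image (fun p => p.2.length), ∃ p ∈ F, p.2.length = x ∧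
        ∑ p ∈ F with p.2.length = x, hp p.1 ≤ ∑ τ ∈ (L p).toFinset, hp τ.length := by
      intro x hx
      obtain ⟨p0, hp0, hx0⟩ := Finset.mem_image.1 hx
      have hne : (F.filter fun p => p.2.length = x).Nonempty :=
        ⟨p0, Finset.mem_filter.2 ⟨hp0, hx0⟩⟩
      obtain ⟨p, hp1, hp2⟩ := Finset.exists_min_image _ (fun p : ℕ × List Bool => p.1) hne
      rw [Finset.mem_filter] at hp1
      refine ⟨p, hp1.1, hp1.2, ?_⟩
      obtain ⟨⟨⟨-, h3⟩, h4, h5⟩, -⟩ := hL p hp1.1
      rw [big_iff, w_tw (ND_iff.1 h4)] at h5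
      refine le_trans ?_ h5
      have h6 : ∑ p ∈ F with p.2.length = x, hp p.1 =
          ∑ n ∈ (F.filter fun p => p.2.length = x).image Prod.fst, hp n := by
        rw [Finset.sum_image]
        intro a ha b hb hab
        simp only [Finset.coe_filter, Set.mem_ofPred_eq] at ha hb
        have ha' := (hL a ha.1).1.1.1
        have hb' := (hL b hb.1).1.1.1
        refine Prod.ext hab ?_
        rw [ha', hb', ha.2, hb.2]
      rw [h6]
      have h7 : 2 * hp p.1 = hp (p.1 - 1) := by
        obtain ⟨m, hm⟩ := Nat.exists_eq_add_of_le h3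
        rw [hm, Nat.add_sub_cancel_left, Nat.add_comm 1 m, hp_succ]
        ring
      rw [← h7]
      refine sum_hp_le fun n hn => ?_
      obtain ⟨a, ha, rfl⟩ := Finset.mem_image.1 hn
      exact hp2 a ha
    choose! g hg1 hg2 hg3 using h2
    rw [h1]
    refine (Finset.sum_le_sum fun x hx => hg3 x hx).trans ?_
    rw [← Finset.sum_biUnion]
    · refine kraft_prog hU.1 _ fun τ hτ => ?_
      rw [Finset.mem_biUnion] at hτ
      obtain ⟨x, hx, hτ⟩ := hτ
      rw [List.mem_toFinset] at hτ
      obtain ⟨y, hy, -⟩ := (hL _ (hg1 x hx)).2 τ hτ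
      exact Part.dom_iff_mem.2 ⟨y, hy⟩
    · intro x hx x' hx' hne
      rw [Function.onFun, Finset.disjoint_left]
      intro τ h3 h4
      rw [List.mem_toFinset] at h3 h4
      obtain ⟨y, hy, hy2⟩ := (hL _ (hg1 x hx)).2 τ h3
      obtain ⟨y', hy', hy2'⟩ := (hL _ (hg1 x' hx')).2 τ h4
      have := Part.mem_unique hy hy'
      subst this
      apply hne
      rw [hg2 x hx] at hy2
      rw [hg2 x' hx'] at hy2'
      rw [← hy2, ← hy2'])
  refine ⟨c + 2, fun x F hF => ?_⟩
  rcases F.eq_empty_or_nonempty with rfl | hne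
  · rw [Finset.sum_empty]
    have := hp_pos (KU U (zs x))
    positivity
  set m := ∑ y ∈ F, hp (KU U y) with hm
  have hmpos : 0 < m := Finset.sum_pos (fun _ _ => hp_pos _) hne
  have hm1 : m ≤ 1 := kraft_KU hU F
  have hex : ∃ r, hp r ≤ m := by
    obtain ⟨n, hn⟩ := exists_pow_lt_of_lt_one hmpos (show (1 / 2 : ℝ) < 1 by norm_num)
    exact ⟨n, hn.le⟩
  have hr1 := Nat.find_spec hex
  have hr2 : m ≤ 2 * hp (Nat.find hex) := by
    rcases Nat.eq_zero_or_pos (Nat.find hex) with h | h
    · rw [h, hp_zero]; linarith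
    · have h1 := Nat.find_min hex (m := Nat.find hex - 1) (by omega)
      rw [not_le] at h1
      have h2 := hp_succ (Nat.find hex - 1)
      rw [Nat.sub_add_cancel h] at h2
      linarith
  set r := Nat.find hex
  choose pg hp1 hp2 using fun y => hU.exists_min y
  have hinj : ∀ a b, pg a = pg b → a = b := by
    intro a b h
    have h1 := hp2 a
    rw [h] at h1
    exact Part.mem_unique h1 (hp2 b)
  have hreq := hc (r + 1, zs x) ⟨(F.image pg).toList, ⟨⟨by simp, by simp⟩, ND_iff.2
    (Finset.nodup_toList _), by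
      rw [big_iff, w_tw (Finset.nodup_toList _), Finset.toList_toFinset,
        Finset.sum_image fun a _ b _ h => hinj a b h]
      simp only [Nat.add_sub_cancel]
      refine hr1.trans (le_of_eq ?_)
      rw [hm]
      exact Finset.sum_congr rfl fun y _ => by rw [hp1]⟩, by
      intro τ hτ
      rw [Finset.mem_toList, Finset.mem_image] at hτ
      obtain ⟨y, hy, rfl⟩ := hτ
      exact ⟨y, hp2 y, by simpa using hF y hy⟩⟩
  simp only at hreq
  have h3 : hp (r + 1 + c) ≤ hp (KU U (zs x)) := hp_le hreq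
  have h4 : hp (r + 1 + c) = hp r * hp (c + 1) := by rw [← hp_add]; congr 1; omega
  rw [h4] at h3
  have h5 := hp_mul_two_pow (c + 1)
  have h6 : (2 : ℝ) ^ (c + 2) = 2 * 2 ^ (c + 1) := by rw [show c + 2 = c + 1 + 1 from rfl, pow_succ]; ring
  have h7 : (0 : ℝ) < 2 ^ (c + 1) := by positivity
  calc m ≤ 2 * hp r := hr2
    _ = 2 * 2 ^ (c + 1) * (hp r * hp (c + 1)) := by
        rw [show 2 * 2 ^ (c + 1) * (hp r * hp (c + 1)) = 2 * hp r * (hp (c + 1) * 2 ^ (c + 1)) by ring,
          h5, mul_one]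
    _ ≤ _ := by
        rw [h6]
        exact mul_le_mul_of_nonneg_left h3 (by positivity)

end Pool.Agent.U35.OW
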