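import Pool.Agent.U35.OW.Coding
import Pool.Agent.Helper227.Use

set_option autoImplicit false

/-! K-trivial sets have computable approximations. -/

open Encodable
open Pool.Agent.H561R3 (strs mem_strs upTo mem_upTo pr_upTo)
open Pool.Agent.Helper227 (S1 IsUniversal IsMachine KU KU_le KTrivial pre take_pre length_pre
  PP.ex_lt PP.all_lt PP.ex_mem PP.all_mem)

namespace Pool.Agent.U35.OW

section tree
variable (T : List Bool → Prop)

/-- extendible strings -/
def Ext (σ : List Bool) : Prop := ∀ M ≥ σ.length, ∃ ρ, T ρ ∧ ρ.length = M ∧ ρ.take σ.length = σ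

variable {T}

theorem die (hT : ∀ σ n, T σ → T (σ.take n)) (n : ℕ) :
    ∃ M ≥ n, ∀ σ, T σ → M ≤ σ.length → Ext T (σ.take n) := by
  classical
  have h1 : ∀ ρ : List Bool, ρ.length = n → ¬ Ext T ρ →
      ∃ M ≥ n, ∀ σ, T σ → σ.length = M → σ.take n ≠ ρ := by
    intro ρ hρ h
    unfold Ext at h
    push Not at h
    obtain ⟨M, h1, h2⟩ := h
    refine ⟨M, by omega, fun σ h3 h4 h5 => h2 σ h3 h4 ?_⟩
    rw [hρ]; exact h5
  choose! M hM1 hM2 using h1
  refine ⟨n + ∑ ρ ∈ (strs n).toFinset, M ρ, by omega, fun σ hσ hlen => ?_⟩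
  by_contra hc
  have h2 : (σ.take n).length = n := by rw [List.length_take]; omega
  have h3 : M (σ.take n) ≤ ∑ ρ ∈ (strs n).toFinset, M ρ :=
    Finset.single_le_sum (f := M) (fun _ _ => Nat.zero_le _)
      (List.mem_toFinset.2 (mem_strs.2 h2))
  have h4 := hM1 _ h2 hc
  refine hM2 _ h2 hc (σ.take (M (σ.take n))) (hT _ _ hσ) ?_ ?_
  · rw [List.length_take]; omega
  · rw [List.take_take, min_eq_left h4]

/-- bounded width gives isolated paths -/
theorem isolate (hT : ∀ σ n, T σ → T (σ.take n)) {wd : ℕ}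
    (hw : ∀ n (F : Finset (List Bool)), (∀ σ ∈ F, T σ ∧ σ.length = n) → F.card ≤ wd)
    {A : ℕ → Bool} (hA : ∀ n, T (pre A n)) :
    ∃ n0, ∀ n ≥ n0, ∃ M ≥ n, ∀ σ, T σ → M ≤ σ.length → σ.take n0 = pre A n0 →
      σ.take n = pre A n := by
  classical
  let E : ℕ → Finset (List Bool) := fun n => (strs n).toFinset.filter (Ext T)
  have hE : ∀ n σ, σ ∈ E n ↔ σ.length = n ∧ Ext T σ := by
    intro n σ
    simp only [E, Finset.mem_filter, List.mem_toFinset, mem_strs]
  have hcard : ∀ n, (E n).card ≤ wd := by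
    intro n
    refine hw n _ fun σ hσ => ?_
    obtain ⟨h1, h2⟩ := (hE n σ).1 hσ
    obtain ⟨ρ, h3, h4, h5⟩ := h2 _ le_rfl
    have : ρ = σ := by rw [← h5, ← h4, List.take_length]
    exact ⟨this ▸ h3, h1⟩
  have hAE : ∀ n, pre A n ∈ E n := by
    intro n
    refine (hE _ _).2 ⟨length_pre _ _, fun M hM => ⟨pre A M, hA M, length_pre _ _, ?_⟩⟩
    rw [length_pre] at hM ⊢
    exact take_pre A M n hM
  have hex : ∃ n0, ∀ n, (E n).card ≤ (E n0).card := by
    have h1 : ∃ m n, (E n).card = m := ⟨_, 0, rfl⟩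
    have hmax : ∃ m, (∃ n, (E n).card = m) ∧ ∀ m', (∃ n, (E n).card = m') → m' ≤ m := by
      refine ⟨Nat.findGreatest (fun m => ∃ n, (E n).card = m) wd, ?_, ?_⟩
      · exact Nat.findGreatest_spec (P := fun m => ∃ n, (E n).card = m) (hcard 0) ⟨0, rfl⟩
      · rintro m' ⟨n, rfl⟩
        exact Nat.le_findGreatest (hcard n) ⟨n, rfl⟩
    obtain ⟨m, ⟨n0, h2⟩, h3⟩ := hmax
    exact ⟨n0, fun n => by rw [h2]; exact h3 _ ⟨n, rfl⟩⟩
  obtain ⟨n0, hn0⟩ := hex
  refine ⟨n0, fun n hn => ?_⟩
  obtain ⟨M, hM, hdie⟩ := die hT n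
  refine ⟨M, hM, fun σ h1 h2 h3 => ?_⟩
  have hsurj : ∀ τ ∈ E n0, ∃ ρ, ∃ _ : ρ ∈ E n, ρ.take n0 = τ := by
    intro τ hτ
    obtain ⟨h4, h5⟩ := (hE _ _).1 hτ
    obtain ⟨ρ, h6, h7, h8⟩ := h5 M (by omega)
    refine ⟨ρ.take n, (hE _ _).2 ⟨by rw [List.length_take]; omega, hdie ρ h6 (by omega)⟩, ?_⟩
    rw [List.take_take, min_eq_left hn, ← h4]
    exact h8
  have hinj : ∀ ρ ∈ E n, ∀ ρ' ∈ E n, ρ.take n0 = ρ'.take n0 → ρ = ρ' := by
    intro ρ hρ ρ' hρ' h
    have himg : (E n).image (fun ρ => ρ.take n0) = E n0 := by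
      refine Finset.Subset.antisymm ?_ ?_
      · intro τ hτ
        obtain ⟨ρ, hρ, rfl⟩ := Finset.mem_image.1 hτ
        obtain ⟨h4, h5⟩ := (hE _ _).1 hρ
        refine (hE _ _).2 ⟨by rw [List.length_take]; omega, fun N hN => ?_⟩
        have h6 : (ρ.take n0).length = n0 := by rw [List.length_take]; omega
        rw [h6] at hN ⊢
        obtain ⟨π, h7, h8, h9⟩ := h5 (max N ρ.length) (le_max_right _ _)
        have h10 := le_max_left N ρ.length
        refine ⟨π.take N, hT _ _ h7, by rw [List.length_take]; omega, ?_⟩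
        rw [List.take_take, min_eq_left hN, ← h9, List.take_take, min_eq_left (by omega)]
      · intro τ hτ
        obtain ⟨ρ, h4, h5⟩ := hsurj τ hτ
        exact Finset.mem_image.2 ⟨ρ, h4, h5⟩
    have hc : ((E n).image (fun ρ => ρ.take n0)).card = (E n).card := by
      refine le_antisymm Finset.card_image_le ?_
      rw [himg]
      exact hn0 n
    exact (Finset.card_image_iff.1 hc) hρ hρ' h
  refine hinj _ ((hE _ _).2 ⟨by rw [List.length_take]; omega, hdie σ h1 h2⟩) _ (hAE n) ?_
  rw [List.take_take, min_eq_left hn, take_pre A n n0 hn, h3]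

end tree

/-- the tree of a K-trivial set -/
def TT (U : List Bool →. List Bool) (b : ℕ) (σ : List Bool) : Prop :=
  ∀ n ≤ σ.length, KU U (σ.take n) ≤ KU U (zs n) + b

theorem TT_take {U : List Bool →. List Bool} {b : ℕ} (σ : List Bool) (n : ℕ) (h : TT U b σ) :
    TT U b (σ.take n) := by
  intro m hm
  rw [List.length_take] at hm
  rw [List.take_take, min_eq_left (by omega)]
  exact h m (by omega)

theorem TT_width {U : List Bool →. List Bool} (hU : IsUniversal U) (b : ℕ) :
    ∃ wd, ∀ n (F : Finset (List Bool)), (∀ σ ∈ F, TT U b σ ∧ σ.length = n) → F.card ≤ wd := by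
  obtain ⟨c, hc⟩ := coding hU (π := List.length) Primrec.list_length
  refine ⟨2 ^ (b + c), fun n F hF => ?_⟩
  have h1 := hc n F fun y hy => (hF y hy).2
  have h2 : (F.card : ℝ) * (hp (KU U (zs n)) * hp b) ≤ ∑ y ∈ F, hp (KU U y) := by
    rw [← nsmul_eq_mul, ← Finset.sum_const]
    refine Finset.sum_le_sum fun y hy => ?_
    rw [← hp_add]
    obtain ⟨h3, h4⟩ := hF y hy
    have h5 := h3 n (by omega)
    rw [← h4, List.take_length, h4] at h5
    exact hp_le h5
  have h3 := hp_pos (KU U (zs n))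
  have h4 := hp_mul_two_pow b
  have h5 : (F.card : ℝ) * hp b ≤ 2 ^ c := by
    have h6 : ((F.card : ℝ) * hp b) * hp (KU U (zs n)) ≤ 2 ^ c * hp (KU U (zs n)) := by linarith
    exact le_of_mul_le_mul_right h6 h3
  have h6 : (F.card : ℝ) ≤ 2 ^ (b + c) := by
    have h7 := hp_pos b
    rw [pow_add]
    have h8 : (F.card : ℝ) = (F.card * hp b) * 2 ^ b := by rw [mul_assoc, h4, mul_one]
    rw [h8, mul_comm ((2 : ℝ) ^ b)]
    exact mul_le_mul_of_nonneg_right h5 (by positivity)
  exact_mod_cast h6

/-- longest element -/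
def longest (L : List (List Bool)) : List Bool :=
  L.foldr (fun σ b => if b.length < σ.length then σ else b) []

theorem longest_le (L : List (List Bool)) : ∀ σ ∈ L, σ.length ≤ (longest L).length := by
  induction L with
  | nil => intro σ h; simp at h
  | cons a L ih =>
    intro σ h
    have h1 : longest (a :: L) = if (longest L).length < a.length then a else longest L := rfl
    rw [h1]
    rcases List.mem_cons.1 h with rfl | h
    · split_ifs with h2
      · exact le_rfl
      · omega
    · have := ih σ h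
      split_ifs with h2
      · omega
      · exact this

theorem longest_mem (L : List (List Bool)) : longest L = [] ∨ longest L ∈ L := by
  induction L with
  | nil => exact Or.inl rfl
  | cons a L ih =>
    have h1 : longest (a :: L) = if (longest L).length < a.length then a else longest L := rfl
    rw [h1]
    split_ifs with h2
    · exact Or.inr List.mem_cons_self
    · rcases ih with h | h
      · exact Or.inl h
      · exact Or.inr (List.mem_cons_of_mem _ h)

theorem pr_longest {α : Type*} [Primcodable α] {f : α → List (List Bool)} (hf : Primrec f) :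
    Primrec fun a => longest (f a) := by
  unfold longest
  refine Primrec.list_foldr (h := fun _ (p : List Bool × List Bool) =>
    if p.2.length < p.1.length then p.1 else p.2) hf (Primrec.const []) ?_
  exact (pr_ite (Primrec.nat_lt.comp (pr_len (Primrec.snd.comp Primrec.snd))
    (pr_len (Primrec.fst.comp Primrec.snd))) (Primrec.fst.comp Primrec.snd)
    (Primrec.snd.comp Primrec.snd)).to₂

/-- membership at stage `t` -/
def inT (KD : ℕ → List Bool → ℕ → Bool) (b : ℕ) (t : ℕ) (σ : List Bool) : Prop :=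
  ∀ n < σ.length + 1, ∀ m < t + 1, ¬ (KD t (zs n) m = true) ∨ KD t (σ.take n) (m + b) = true

theorem pr_inT {KD : ℕ → List Bool → ℕ → Bool}
    (hKD : Primrec fun p : ℕ × List Bool × ℕ => KD p.1 p.2.1 p.2.2) (b : ℕ) :
    PrimrecPred fun x : ℕ × List Bool => inT KD b x.1 x.2 := by
  unfold inT
  refine PP.all_lt (p := fun (x : ℕ × List Bool) n => ∀ m < x.1 + 1,
    ¬ (KD x.1 (zs n) m = true) ∨ KD x.1 (x.2.take n) (m + b) = true) ?_
    (Primrec.succ.comp (pr_len Primrec.snd))
  refine PP.all_lt (α := (ℕ × List Bool) × ℕ) (p := fun x m =>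
    ¬ (KD x.1.1 (zs x.2) m = true) ∨ KD x.1.1 (x.1.2.take x.2) (m + b) = true) ?_
    (Primrec.succ.comp (Primrec.fst.comp Primrec.fst))
  have ht : Primrec fun x : ((ℕ × List Bool) × ℕ) × ℕ => x.1.1.1 :=
    Primrec.fst.comp (Primrec.fst.comp Primrec.fst)
  refine PrimrecPred.or (PrimrecPred.not ?_) ?_
  · exact pr_bool (hKD.comp (ht.pair ((pr_zs (Primrec.snd.comp Primrec.fst)).pair Primrec.snd)))
  · exact pr_bool (hKD.comp (ht.pair ((pr_take (Primrec.snd.comp Primrec.fst)
      (Primrec.snd.comp (Primrec.fst.comp Primrec.fst))).pair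
        (pr_add Primrec.snd (Primrec.const b)))))

theorem stable {U : List Bool →. List Bool} {KD : ℕ → List Bool → ℕ → Bool} (hK : KApp U KD)
    (M : ℕ) : ∃ t0, ∀ t ≥ t0, ∀ y : List Bool, y.length ≤ M →
      KU U y ≤ t ∧ ∀ m, (KD t y m = true ↔ KU U y ≤ m) := by
  choose t1 ht1 using fun y => hK.compl y (KU U y) le_rfl
  refine ⟨∑ y ∈ (upTo M).toFinset, (t1 y + KU U y), fun t ht y hy => ?_⟩
  have h1 : t1 y + KU U y ≤ ∑ y ∈ (upTo M).toFinset, (t1 y + KU U y) :=
    Finset.single_le_sum (f := fun y => t1 y + KU U y) (fun _ _ => Nat.zero_le _)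
      (List.mem_toFinset.2 (mem_upTo.2 hy))
  refine ⟨by omega, fun m => ⟨hK.sound t y m, fun h => ?_⟩⟩
  exact hK.mono t t y _ m le_rfl h (ht1 y t (by omega))

theorem inT_iff {U : List Bool →. List Bool} {KD : ℕ → List Bool → ℕ → Bool} {b M t : ℕ}
    (h : ∀ y : List Bool, y.length ≤ M → KU U y ≤ t ∧ ∀ m, (KD t y m = true ↔ KU U y ≤ m))
    {σ : List Bool} (hσ : σ.length ≤ M) : inT KD b t σ ↔ TT U b σ := by
  constructor
  · intro h1 n hn
    have h2 := h (zs n) (by simp; omega)
    have h3 := h (σ.take n) (by rw [List.length_take]; omega)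
    rcases h1 n (by omega) (KU U (zs n)) (by omega) with h4 | h4
    · exact absurd ((h2.2 _).2 le_rfl) h4
    · exact (h3.2 _).1 h4
  · intro h1 n hn m hm
    have h2 := h (zs n) (by simp; omega)
    have h3 := h (σ.take n) (by rw [List.length_take]; omega)
    by_cases h4 : KD t (zs n) m = true
    · right
      have h5 := (h2.2 _).1 h4
      have h6 := h1 n (by omega)
      exact (h3.2 _).2 (by omega)
    · exact Or.inl h4

theorem inT_take {KD : ℕ → List Bool → ℕ → Bool} {b t : ℕ} {σ : List Bool} (n : ℕ)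
    (h : inT KD b t σ) : inT KD b t (σ.take n) := by
  intro m hm
  rw [List.length_take] at hm
  rw [List.take_take, min_eq_left (by omega)]
  exact h m (by omega)

theorem exists_approx {U : List Bool →. List Bool} (hU : IsUniversal U) {A : ℕ → Bool}
    (hA : KTrivial U A) : ∃ F : ℕ → List Bool, Primrec F ∧
      ∀ n, ∃ N, ∀ t ≥ N, (F t).take n = pre A n := by
  obtain ⟨KD, hK⟩ := exists_KD hU
  obtain ⟨b, hb⟩ := hA
  have hAT : ∀ n, TT U b (pre A n) := by
    intro n m hm
    rw [length_pre] at hm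
    rw [take_pre A n m hm]
    exact hb m
  obtain ⟨wd, hwd⟩ := TT_width hU b
  obtain ⟨n0, hn0⟩ := isolate (fun σ n => TT_take σ n) hwd hAT
  classical
  let P : ℕ → List Bool → Prop := fun t σ => inT KD b t σ ∧ σ.take n0 = pre A n0
  have hP : PrimrecPred fun x : ℕ × List Bool => P x.1 x.2 :=
    PrimrecPred.and (pr_inT hK.prim b) (pr_dec_eq (pr_take (Primrec.const n0) Primrec.snd)
      (Primrec.const _))
  let F : ℕ → List Bool := fun t =>
    longest ((upTo t).filterMap fun σ => if P t σ then some σ else none)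
  have hF : Primrec F := by
    refine pr_longest (Primrec.listFilterMap (f := upTo)
      (g := fun t σ => if P t σ then some σ else none) pr_upTo ?_)
    exact (Primrec.ite hP (Primrec.option_some.comp Primrec.snd) (Primrec.const none)).to₂
  refine ⟨F, hF, fun n => ?_⟩
  obtain ⟨M, hM, hM2⟩ := hn0 (max n0 n) (le_max_left _ _)
  have hn1 := le_max_left n0 n
  have hn2 := le_max_right n0 n
  obtain ⟨t0, ht0⟩ := stable hK (M + 1)
  refine ⟨t0 + M + 1, fun t ht => ?_⟩
  have hst := ht0 t (by omega)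
  have hmem : ∀ σ, σ ∈ ((upTo t).filterMap fun σ => if P t σ then some σ else none) ↔
      σ.length ≤ t ∧ P t σ := by
    intro σ
    rw [List.mem_filterMap]
    constructor
    · rintro ⟨τ, h1, h2⟩
      split_ifs at h2 with h3
      · simp only [Option.some.injEq] at h2
        subst h2
        exact ⟨mem_upTo.1 h1, h3⟩
    · rintro ⟨h1, h2⟩
      exact ⟨σ, mem_upTo.2 h1, by rw [if_pos h2]⟩
  have hAM : pre A (M + 1) ∈ ((upTo t).filterMap fun σ => if P t σ then some σ else none) := by
    rw [hmem]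
    refine ⟨by rw [length_pre]; omega, (inT_iff hst (by rw [length_pre])).2 (hAT _), ?_⟩
    exact take_pre A (M + 1) n0 (by omega)
  have hlen : M + 1 ≤ (F t).length := by
    have := longest_le _ _ hAM
    rwa [length_pre] at this
  have hFm : F t ∈ ((upTo t).filterMap fun σ => if P t σ then some σ else none) := by
    rcases longest_mem ((upTo t).filterMap fun σ => if P t σ then some σ else none) with h | h
    · have h1 : F t = [] := h
      rw [h1, List.length_nil] at hlen
      omega
    · exact h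
  obtain ⟨h1, h2, h3⟩ := (hmem _).1 hFm
  have h4 : TT U b ((F t).take M) :=
    (inT_iff hst (by rw [List.length_take]; omega)).1 (inT_take M h2)
  have h5 := hM2 ((F t).take M) h4 (by rw [List.length_take]; omega) (by
    rw [List.take_take, min_eq_left (by omega), h3])
  rw [List.take_take, min_eq_left (by omega)] at h5
  have h6 := congrArg (List.take n) h5
  rwa [List.take_take, min_eq_left hn2, take_pre A _ n hn2] at h6

end Pool.Agent.U35.OW
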