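import Pool.Agent.U35.OW.Beta2

set_option autoImplicit false

/-! The left-c.e. real of the final test. -/

open Encodable
open Pool.Agent.Helper227 (S1 IsUniversal IsMachine KU KU_le KTrivial pre take_pre length_pre
  pre_prefix PP.ex_lt PP.all_lt PP.ex_mem PP.all_mem)

namespace Pool.Agent.U35.OW

/-- the new part between two comparable strings -/
def dl (v : List Bool → ℕ) (σ τ : List Bool) : List Elt :=
  if σ.length ≤ τ.length then (tr v τ).drop σ.length else (tr v σ).drop τ.length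

theorem w_drop_tr {v : List Bool → ℕ} {σ τ : List Bool} (h : σ <+: τ) :
    w ((tr v τ).drop σ.length) = Vv v τ - Vv v σ := by
  have h1 : w (tr v τ) = w ((tr v τ).take σ.length) + w ((tr v τ).drop σ.length) := by
    rw [← w_append, List.take_append_drop]
  have h2 : (tr v τ).take σ.length = tr v σ := by
    unfold tr
    rw [← List.map_take, List.take_range, min_eq_left h.length_le]
    refine List.map_congr_left fun y hy => ?_
    rw [List.mem_range] at hy
    conv_rhs => rw [List.prefix_iff_eq_take.1 h, List.take_take, min_eq_left (by omega)]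
  rw [h2, w_tr, w_tr] at h1
  linarith

theorem w_dl {v : List Bool → ℕ} {σ τ : List Bool} (h : τ <+: σ ∨ σ <+: τ) :
    w (dl v σ τ) = |Vv v τ - Vv v σ| := by
  unfold dl
  rcases h with h | h
  · have h1 := Vv_mono (v0 := v) h
    rw [abs_of_nonpos (by linarith)]
    split_ifs with h2
    · have h3 : σ = τ := by
        have := List.IsPrefix.eq_of_length h (by have := h.length_le; omega)
        exact this.symm
      subst h3
      rw [w_drop_tr List.prefix_rfl]; ring
    · rw [w_drop_tr h]; ring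
  · have h1 := Vv_mono (v0 := v) h
    rw [abs_of_nonneg (by linarith), if_pos h.length_le, w_drop_tr h]

theorem pr_dl {v : List Bool → ℕ} (hv : Primrec v) {β : Type*} [Primcodable β]
    {σ τ : β → List Bool} (hσ : Primrec σ) (hτ : Primrec τ) :
    Primrec fun a => dl v (σ a) (τ a) := by
  unfold dl
  exact pr_ite (Primrec.nat_le.comp (pr_len hσ) (pr_len hτ))
    (pr_drop (pr_len hσ) ((pr_tr hv).comp hτ)) (pr_drop (pr_len hτ) ((pr_tr hv).comp hσ))

section
variable (KD : ℕ → List Bool → ℕ → Bool)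

/-- the pair of a number and a bound for its complexity at stage `t` -/
def Wt (t n r : ℕ) : Bool := (decide (n < t) && decide (r < t)) && KD t (zs n) r

/-- the new pairs -/
def nw (t : ℕ) : List Elt :=
  (List.range (t + 1)).flatMap fun n =>
    ((List.range (t + 1)).filter fun r => Wt KD (t + 1) n r && !Wt KD t n r).map fun r => (n, r)

variable (v : List Bool → ℕ) (α : ℕ → List Bool)

def Gm (t : ℕ) : List Elt :=
  Nat.rec [] (fun t L => L ++ (dl v (α t) (α (t + 1)) ++ (nw KD t ++ [(0, t + 1)]))) t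

noncomputable def gam (t : ℕ) : ℝ := w (Gm KD v α t)

def Qf (t l : ℕ) : ℕ := (wN (rs (Gm KD v α t)) (Gm KD v α t) * 2 ^ l) / 2 ^ rs (Gm KD v α t)

end

section
variable {KD : ℕ → List Bool → ℕ → Bool} {v : List Bool → ℕ} {α : ℕ → List Bool}
  {U : List Bool →. List Bool}

theorem pr_Wt (hKD : Primrec fun p : ℕ × List Bool × ℕ => KD p.1 p.2.1 p.2.2) {β : Type*}
    [Primcodable β] {t n r : β → ℕ} (ht : Primrec t) (hn : Primrec n) (hr : Primrec r) :
    Primrec fun a => Wt KD (t a) (n a) (r a) := by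
  unfold Wt
  exact Primrec.and.comp (Primrec.and.comp (Primrec.nat_lt.comp hn ht).decide
    (Primrec.nat_lt.comp hr ht).decide) (hKD.comp (ht.pair ((pr_zs hn).pair hr)))

theorem pr_filter {β γ : Type*} [Primcodable β] [Primcodable γ] {f : β → List γ}
    {p : β → γ → Bool} (hf : Primrec f) (hp : Primrec₂ p) :
    Primrec fun a => (f a).filter (p a) := by
  have h1 : Primrec fun a => (f a).filterMap fun b => if p a b = true then some b else none := by
    refine Primrec.listFilterMap (g := fun a b => if p a b = true then some b else none) hf ?_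
    exact (pr_ite (pr_bool hp) (Primrec.option_some.comp Primrec.snd) (Primrec.const none)).to₂
  refine h1.of_eq fun a => ?_
  induction f a with
  | nil => rfl
  | cons b l ih =>
    rw [List.filter_cons, List.filterMap_cons]
    split_ifs with h
    · simp [ih]
    · simp [ih]

theorem pr_nw (hKD : Primrec fun p : ℕ × List Bool × ℕ => KD p.1 p.2.1 p.2.2) :
    Primrec (nw KD) := by
  unfold nw
  refine Primrec.list_flatMap (f := fun t : ℕ => List.range (t + 1))
    (g := fun t n => ((List.range (t + 1)).filter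
      fun r => Wt KD (t + 1) n r && !Wt KD t n r).map fun r => (n, r))
    (Primrec.list_range.comp Primrec.succ) ?_
  refine Primrec.list_map (f := fun x : ℕ × ℕ => (List.range (x.1 + 1)).filter
      fun r => Wt KD (x.1 + 1) x.2 r && !Wt KD x.1 x.2 r) (g := fun x r => (x.2, r)) ?_ ?_
  · refine pr_filter (f := fun x : ℕ × ℕ => List.range (x.1 + 1))
      (p := fun x r => Wt KD (x.1 + 1) x.2 r && !Wt KD x.1 x.2 r)
      (Primrec.list_range.comp (Primrec.succ.comp Primrec.fst)) ?_
    exact (Primrec.and.comp (pr_Wt hKD (Primrec.succ.comp (Primrec.fst.comp Primrec.fst))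
      (Primrec.snd.comp Primrec.fst) Primrec.snd)
      (Primrec.not.comp (pr_Wt hKD (Primrec.fst.comp Primrec.fst)
      (Primrec.snd.comp Primrec.fst) Primrec.snd))).to₂
  · exact ((Primrec.snd.comp Primrec.fst).pair Primrec.snd).to₂

theorem pr_Gm (hKD : Primrec fun p : ℕ × List Bool × ℕ => KD p.1 p.2.1 p.2.2) (hv : Primrec v)
    (hα : Primrec α) : Primrec (Gm KD v α) := by
  unfold Gm
  refine Primrec.nat_rec' (f := fun t : ℕ => t) (g := fun _ => [])
    (h := fun _ r => r.2 ++ (dl v (α r.1) (α (r.1 + 1)) ++ (nw KD r.1 ++ [(0, r.1 + 1)])))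
    Primrec.id (Primrec.const []) ?_
  have h1 : Primrec fun x : ℕ × (ℕ × List Elt) => x.2.2 := Primrec.snd.comp Primrec.snd
  have h2 : Primrec fun x : ℕ × (ℕ × List Elt) => x.2.1 := Primrec.fst.comp Primrec.snd
  exact (pr_append h1 (pr_append (pr_dl hv (hα.comp h2) (hα.comp (Primrec.succ.comp h2)))
    (pr_append ((pr_nw hKD).comp h2) (pr_cons ((Primrec.const 0).pair (Primrec.succ.comp h2))
      (Primrec.const []))))).to₂

theorem Gm_succ (t : ℕ) : Gm KD v α (t + 1) =
    Gm KD v α t ++ (dl v (α t) (α (t + 1)) ++ (nw KD t ++ [(0, t + 1)])) := rfl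

theorem Gm_prefix {m s : ℕ} (h : m ≤ s) : Gm KD v α m <+: Gm KD v α s := by
  induction s, h using Nat.le_induction with
  | base => exact List.prefix_rfl
  | succ s h ih =>
    rw [Gm_succ]
    exact ih.trans (List.prefix_append _ _)

theorem w_Gm_drop {m s : ℕ} (h : m ≤ s) :
    w ((Gm KD v α s).drop (Gm KD v α m).length) = gam KD v α s - gam KD v α m := by
  unfold gam
  have h1 : w (Gm KD v α s) = w ((Gm KD v α s).take (Gm KD v α m).length) +
      w ((Gm KD v α s).drop (Gm KD v α m).length) := by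
    rw [← w_append, List.take_append_drop]
  rw [← List.prefix_iff_eq_take.1 (Gm_prefix h)] at h1
  linarith

theorem gam_succ (cmp : ∀ t, α (t + 1) <+: α t ∨ α t <+: α (t + 1)) (t : ℕ) :
    gam KD v α (t + 1) = gam KD v α t + |Vv v (α (t + 1)) - Vv v (α t)| + w (nw KD t) +
      hp (t + 1) := by
  unfold gam
  rw [Gm_succ, w_append, w_append, w_append, w_dl (cmp t), w_cons, w_nil]
  ring

theorem gam_lt (cmp : ∀ t, α (t + 1) <+: α t ∨ α t <+: α (t + 1)) (t : ℕ) :
    gam KD v α t + hp (t + 1) ≤ gam KD v α (t + 1) := by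
  rw [gam_succ cmp]
  have h1 := abs_nonneg (Vv v (α (t + 1)) - Vv v (α t))
  have h2 := w_nonneg (nw KD t)
  linarith

theorem gam_mono (cmp : ∀ t, α (t + 1) <+: α t ∨ α t <+: α (t + 1)) : Monotone (gam KD v α) := by
  refine monotone_nat_of_le_succ fun t => ?_
  have h1 := gam_lt (KD := KD) (v := v) cmp t
  have h2 := hp_nonneg (t + 1)
  linarith

theorem gam_nonneg (t : ℕ) : 0 ≤ gam KD v α t := w_nonneg _

/-- pairs known at stage `t` -/
def Sp (KD : ℕ → List Bool → ℕ → Bool) (t : ℕ) : Finset Elt :=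
  (Finset.range t ×ˢ Finset.range t).filter fun p => Wt KD t p.1 p.2 = true

theorem mem_Sp {t : ℕ} {p : Elt} : p ∈ Sp KD t ↔ Wt KD t p.1 p.2 = true := by
  unfold Sp
  rw [Finset.mem_filter, Finset.mem_product, Finset.mem_range, Finset.mem_range]
  constructor
  · exact fun h => h.2
  · intro h
    refine ⟨?_, h⟩
    unfold Wt at h
    simp only [Bool.and_eq_true, decide_eq_true_eq] at h
    exact h.1

theorem Wt_mono (hK : KApp U KD) {t t' n r : ℕ} (h : t ≤ t') (hw : Wt KD t n r = true) :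
    Wt KD t' n r = true := by
  unfold Wt at hw ⊢
  simp only [Bool.and_eq_true, decide_eq_true_eq] at hw ⊢
  exact ⟨⟨by omega, by omega⟩, hK.mono _ _ _ _ _ h le_rfl hw.2⟩

theorem Wt_sound (hK : KApp U KD) {t n r : ℕ} (hw : Wt KD t n r = true) : KU U (zs n) ≤ r := by
  unfold Wt at hw
  simp only [Bool.and_eq_true, decide_eq_true_eq] at hw
  exact hK.sound _ _ _ hw.2

theorem w_nw (hK : KApp U KD) (t : ℕ) :
    w (nw KD t) = ∑ p ∈ Sp KD (t + 1), hp p.2 - ∑ p ∈ Sp KD t, hp p.2 := by
  classical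
  have hsub : Sp KD t ⊆ Sp KD (t + 1) := fun p hp' =>
    mem_Sp.2 (Wt_mono hK (Nat.le_succ t) (mem_Sp.1 hp'))
  have hnd : (nw KD t).Nodup := by
    unfold nw
    rw [List.nodup_flatMap]
    refine ⟨fun n _ => ?_, ?_⟩
    · exact (List.nodup_range.filter _).map fun a b h => (Prod.mk.inj h).2
    · refine List.nodup_range.pairwise_of_forall_ne ?_
      intro a _ b _ hab
      rw [Function.onFun, List.disjoint_left]
      intro p h1 h2
      rw [List.mem_map] at h1 h2
      obtain ⟨r, -, rfl⟩ := h1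
      obtain ⟨r', -, h3⟩ := h2
      exact hab (Prod.mk.inj h3).1.symm
  have hmem : (nw KD t).toFinset = Sp KD (t + 1) \ Sp KD t := by
    ext p
    rw [List.mem_toFinset, Finset.mem_sdiff, mem_Sp, mem_Sp]
    unfold nw
    simp only [List.mem_flatMap, List.mem_range, List.mem_map, List.mem_filter, Bool.and_eq_true,
      Bool.not_eq_true']
    constructor
    · rintro ⟨n, -, r, ⟨-, h1, h2⟩, rfl⟩
      exact ⟨h1, by simp [h2]⟩
    · rintro ⟨h1, h2⟩
      have h3 := h1
      unfold Wt at h3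
      simp only [Bool.and_eq_true, decide_eq_true_eq] at h3
      exact ⟨p.1, h3.1.1, p.2, ⟨h3.1.2, h1, by simpa using h2⟩, rfl⟩
  rw [w_toFinset hnd, hmem]
  have := Finset.sum_sdiff (f := fun p : Elt => hp p.2) hsub
  linarith

theorem sum_Sp (hU : IsUniversal U) (hK : KApp U KD) (t : ℕ) : ∑ p ∈ Sp KD t, hp p.2 ≤ 2 := by
  classical
  have h1 : ∑ p ∈ Sp KD t, hp p.2 =
      ∑ p ∈ (Sp KD t).image (fun p => (zs p.1, p.2)), hp p.2 := by
    rw [Finset.sum_image]
    intro a _ b _ hab
    simp only [Prod.mk.injEq] at hab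
    have := congrArg List.length hab.1
    simp only [List.length_replicate] at this
    exact Prod.ext this hab.2
  rw [h1]
  refine sum_pairs hU _ fun p hp' => ?_
  obtain ⟨a, ha, rfl⟩ := Finset.mem_image.1 hp'
  exact Wt_sound hK (mem_Sp.1 ha)

theorem gam_bound (hU : IsUniversal U) (hK : KApp U KD) (hs : SumV v) {A : ℕ → Bool} {W : ℝ}
    (hG : Good v A α W) (t : ℕ) : gam KD v α t ≤ 4 + 2 * W := by
  have h1 : ∀ t, gam KD v α t = ∑ i ∈ Finset.range t, |Vv v (α (i + 1)) - Vv v (α i)| +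
      ∑ p ∈ Sp KD t, hp p.2 + ∑ i ∈ Finset.range t, hp (i + 1) := by
    intro t
    induction t with
    | zero =>
      have e1 : Sp KD 0 = ∅ := by
        unfold Sp; simp
      simp [gam, Gm, e1]
    | succ t ih =>
      rw [gam_succ hG.cmp, ih, w_nw hK, Finset.sum_range_succ, Finset.sum_range_succ]
      ring
  rw [h1]
  have h2 := hG.var hs t
  have h3 := sum_Sp hU hK t
  have h4 := sum_hp_range t
  linarith

/-- a new pair increases `γ` -/
theorem gam_new (hK : KApp U KD) (cmp : ∀ t, α (t + 1) <+: α t ∨ α t <+: α (t + 1)) {t n r : ℕ}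
    (h1 : Wt KD (t + 1) n r = true) (h2 : ¬ Wt KD t n r = true) :
    hp r ≤ gam KD v α (t + 1) - gam KD v α t := by
  classical
  rw [gam_succ cmp, w_nw hK]
  have h3 := abs_nonneg (Vv v (α (t + 1)) - Vv v (α t))
  have h4 := hp_nonneg (t + 1)
  have hsub : insert (n, r) (Sp KD t) ⊆ Sp KD (t + 1) := by
    intro p hp'
    rcases Finset.mem_insert.1 hp' with rfl | hp'
    · exact mem_Sp.2 h1
    · exact mem_Sp.2 (Wt_mono hK (Nat.le_succ t) (mem_Sp.1 hp'))
  have h5 := Finset.sum_le_sum_of_subset_of_nonneg (f := fun p : Elt => hp p.2) hsub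
    fun p _ _ => hp_nonneg p.2
  rw [Finset.sum_insert (by rw [mem_Sp]; exact h2)] at h5
  simp only at h5
  linarith

theorem Qf_spec (t l : ℕ) : (Qf KD v α t l : ℝ) ≤ gam KD v α t * 2 ^ l ∧
    gam KD v α t * 2 ^ l < Qf KD v α t l + 1 := by
  unfold Qf gam
  set L := Gm KD v α t
  set R := rs L
  have h1 : (wN R L : ℝ) = 2 ^ R * w L := wN_cast fun p => le_rs
  have h2 : (0 : ℝ) < 2 ^ R := by positivity
  have h3 : (0 : ℕ) < 2 ^ R := by positivity
  constructor
  · have h4 : wN R L * 2 ^ l / 2 ^ R * 2 ^ R ≤ wN R L * 2 ^ l := Nat.div_mul_le_self _ _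
    have h5 : ((wN R L * 2 ^ l / 2 ^ R : ℕ) : ℝ) * 2 ^ R ≤ (wN R L : ℝ) * 2 ^ l := by
      exact_mod_cast h4
    rw [h1] at h5
    refine le_of_mul_le_mul_right (h5.trans (le_of_eq ?_)) h2
    ring
  · have h4 : wN R L * 2 ^ l < (wN R L * 2 ^ l / 2 ^ R + 1) * 2 ^ R := by
      rw [mul_comm _ (2 ^ R)]
      exact Nat.lt_mul_div_succ _ h3
    have h5 : (wN R L : ℝ) * 2 ^ l < (((wN R L * 2 ^ l / 2 ^ R : ℕ) : ℝ) + 1) * 2 ^ R := by
      exact_mod_cast h4
    rw [h1] at h5
    refine lt_of_mul_lt_mul_right (lt_of_le_of_lt (le_of_eq ?_) h5) h2.le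
    ring

theorem Qf_mono (cmp : ∀ t, α (t + 1) <+: α t ∨ α t <+: α (t + 1)) (l : ℕ) {t t' : ℕ}
    (h : t ≤ t') : Qf KD v α t l ≤ Qf KD v α t' l := by
  have h1 := (Qf_spec (KD := KD) (v := v) (α := α) t l).1
  have h2 := (Qf_spec (KD := KD) (v := v) (α := α) t' l).2
  have h3 := gam_mono (KD := KD) (v := v) cmp h
  have h4 : (0 : ℝ) < 2 ^ l := by positivity
  have h5 : (Qf KD v α t l : ℝ) < Qf KD v α t' l + 1 := by nlinarith
  exact_mod_cast Nat.lt_succ_iff.1 (by exact_mod_cast h5)

theorem pr_Qf (hKD : Primrec fun p : ℕ × List Bool × ℕ => KD p.1 p.2.1 p.2.2) (hv : Primrec v)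
    (hα : Primrec α) : Primrec₂ (Qf KD v α) := by
  unfold Qf
  have h1 : Primrec fun x : ℕ × ℕ => Gm KD v α x.1 := (pr_Gm hKD hv hα).comp Primrec.fst
  exact (Primrec.nat_div.comp (pr_mul (pr_wN (pr_rs h1) h1) (pr_pw (Primrec.const 2) Primrec.snd))
    (pr_pw (Primrec.const 2) (pr_rs h1))).to₂

end

end Pool.Agent.U35.OW
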