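import Pool.Agent.U35.OW.Law
import Pool.Agent.Helper227.Use

set_option autoImplicit false

/-! The golden frame. -/

open Filter
open Pool.Agent.Helper227 (pre take_pre length_pre)

namespace Pool.Agent.U35.OW

/-- frame at height `h` -/
def atH (stk : List Frame) (h : ℕ) : Frame := stk.reverse.getD h default

theorem atH_append {l r : List Frame} {h : ℕ} (hh : h < r.length) : atH (l ++ r) h = atH r h := by
  unfold atH
  rw [List.reverse_append, List.getD_append _ _ _ _ (by simpa using hh)]

theorem atH_cons {f : Frame} {r : List Frame} {h : ℕ} (hh : h < r.length) :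
    atH (f :: r) h = atH r h := atH_append (l := [f]) hh

theorem atH_len (f : Frame) (r : List Frame) : atH (f :: r) r.length = f := by
  unfold atH
  rw [List.reverse_cons, List.getD_append_right _ _ _ _ (by simp)]
  simp

theorem atH_drop {stk : List Frame} {n h : ℕ} (hh : h + n < stk.length) :
    atH (stk.drop n) h = atH stk h := by
  conv_rhs => rw [← List.take_append_drop n stk]
  rw [atH_append]
  rw [List.length_drop]; omega

theorem atH_eq {stk : List Frame} {h : ℕ} (hh : h < stk.length) :
    atH stk h = stk.getD (stk.length - 1 - h) default := by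
  unfold atH
  rw [List.getD_eq_getElem _ _ (by simpa using hh), List.getD_eq_getElem _ _ (by omega),
    List.getElem_reverse]

/-- sum of the goals along `σ` -/
noncomputable def Vv (v : List Bool → ℕ) (σ : List Bool) : ℝ :=
  ∑ y ∈ Finset.range σ.length, hp (v (σ.take (y + 1)))

theorem Vv_take {v : List Bool → ℕ} {b : List Bool} {m : ℕ} (hm : m ≤ b.length) :
    Vv v (b.take m) = ∑ y ∈ Finset.range m, hp (v (b.take (y + 1))) := by
  unfold Vv
  rw [List.length_take, min_eq_left hm]
  refine Finset.sum_congr rfl fun y hy => ?_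
  rw [List.take_take, min_eq_left (by have := Finset.mem_range.1 hy; omega)]

section
variable {k : ℕ} {v : List Bool → ℕ} {hist : List (List Bool)} {iss : List Elt} {b : List Bool}

theorem Below.child {rest : List Frame} {f : Frame} (h : Below k v hist iss b f rest) :
    ∀ n < rest.length, fx (atH (f :: rest) (n + 1)) =
      fx (atH (f :: rest) n) + (fD (atH (f :: rest) n)).length + 1 := by
  induction rest generalizing f with
  | nil => intro n hn; simp at hn
  | cons p r ih =>
    intro n hn
    rw [List.length_cons] at hn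
    rw [atH_cons (f := f) (r := p :: r) (h := n) (by simpa using hn)]
    rcases Nat.lt_succ_iff_lt_or_eq.1 hn with h1 | h1
    · rw [atH_cons (by simpa using h1)]
      exact ih h.2.2.2.2 n h1
    · subst h1
      rw [atH_len p r]
      have := atH_len f (p :: r)
      rw [List.length_cons] at this
      rw [this]
      exact h.1.1

theorem Below.mono {rest : List Frame} {f : Frame} (h : Below k v hist iss b f rest) :
    ∀ n ≤ rest.length, fx (atH (f :: rest) n) ≤ fx f := by
  induction rest generalizing f with
  | nil =>
    intro n hn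
    have : n = ([] : List Frame).length := by simpa using hn
    rw [this, atH_len]
  | cons p r ih =>
    intro n hn
    rw [List.length_cons] at hn
    rcases Nat.le_succ_iff.1 hn with h1 | h1
    · rw [atH_cons (by simpa using Nat.lt_succ_of_le h1)]
      have h2 := ih h.2.2.2.2 n h1
      have h3 := h.1.1
      omega
    · have := atH_len f (p :: r)
      rw [List.length_cons] at this
      rw [Nat.succ_eq_add_one] at h1
      rw [h1, this]

end

section
variable {k : ℕ} {v : List Bool → ℕ} {Kf : List Bool → ℕ} {e' : ℕ} {s : St} {b' : List Bool}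

theorem Inv.wt (hv : SumV v) (h : Inv k v Kf e' s) :
    ∀ n < s.2.1.length, w (fE (atH s.2.1 n)) < hp (fg (atH s.2.1 n)) := by
  intro n hn
  obtain ⟨f, rest, he, ht⟩ := h.top
  have := (chain hv h.hb he ht (s.2.1.length - 1 - n) (by omega)).wt
  rwa [← atH_eq hn] at this

theorem Inv.child (h : Inv k v Kf e' s) :
    ∀ n, n + 1 < s.2.1.length → fx (atH s.2.1 (n + 1)) =
      fx (atH s.2.1 n) + (fD (atH s.2.1 n)).length + 1 := by
  intro n hn
  obtain ⟨f, rest, he, ht⟩ := h.top
  rw [he] at hn ⊢
  exact ht.bel.child n (by simpa using hn)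

theorem Inv.pos (hv : SumV v) (h : Inv k v Kf e' s) :
    ∀ n < s.2.1.length, fx (atH s.2.1 n) + (fD (atH s.2.1 n)).length < s.1.length := by
  intro n hn
  obtain ⟨f, rest, he, ht⟩ := h.top
  rcases Nat.lt_or_ge (n + 1) s.2.1.length with h1 | h1
  · have h2 := (chain hv h.hb he ht (s.2.1.length - 1 - (n + 1)) (by omega)).pos
    rw [← atH_eq h1, h.child n h1] at h2
    omega
  · have h2 : n = rest.length := by
      rw [he] at hn h1
      simp only [List.length_cons] at hn h1
      omega
    rw [he, h2, atH_len]
    exact ht.pos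

theorem Inv.pos' (hv : SumV v) (h : Inv k v Kf e' s) :
    ∀ n < s.2.1.length, fx (atH s.2.1 n) + (fD (atH s.2.1 n)).length ≤ (s.1.headD []).length := by
  intro n hn
  have h1 := h.pos hv n hn
  have h2 := h.hb
  omega

theorem sR_len (hlt : sI s b' < s.2.1.length) :
    (sR s b').length + sI s b' + 1 = s.2.1.length := by
  unfold sR
  rw [List.length_drop]; omega

theorem atH_sel (hlt : sI s b' < s.2.1.length) : atH s.2.1 (sR s b').length = sF s b' := by
  have h1 := sR_len hlt
  rw [← atH_drop (n := sI s b') (by omega), drop_sI hlt, atH_len]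

theorem atH_sR (hlt : sI s b' < s.2.1.length) {n : ℕ} (hn : n < (sR s b').length) :
    atH (sR s b') n = atH s.2.1 n := by
  have h1 := sR_len hlt
  exact atH_drop (n := sI s b' + 1) (by omega)

/-- positions of surviving frames -/
theorem sm_low (hv : SumV v) (h : Inv k v Kf e' s) {n : ℕ} (hn : n ≤ (sR s b').length) :
    sm (s.1.headD []) b' (fx (atH s.2.1 n)) = true := by
  obtain ⟨hlt, hS⟩ := h.sel (b' := b') hv
  have h1 := hS.bel.mono n hn
  refine sm_mono ?_ hS.smf
  have h2 := sR_len hlt
  rw [← drop_sI hlt, atH_drop (by omega)] at h1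
  exact h1

/-- the frame above the selected one is cancelled -/
theorem sm_high (hv : SumV v) (h : Inv k v Kf e' s) (hc : (sR s b').length + 1 < s.2.1.length) :
    sm (s.1.headD []) b' (fx (sF s b') + (fD (sF s b')).length + 1) = false := by
  obtain ⟨hlt, hS⟩ := h.sel (b' := b') hv
  have h1 := sR_len hlt
  have h2 := h.child (sR s b').length hc
  rw [atH_sel hlt] at h2
  rw [← h2, atH_eq hc]
  have h3 : s.2.1.length - 1 - ((sR s b').length + 1) = sI s b' - 1 := by omega
  rw [h3]
  have h4 : sI s b' - 1 < s.2.1.findIdx (fun f => sm (s.1.headD []) b' (fx f)) := by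
    have : sI s b' = s.2.1.findIdx (fun f => sm (s.1.headD []) b' (fx f)) := rfl
    omega
  have h5 := List.not_of_lt_findIdx h4
  rw [List.getD_eq_getElem _ _ (by omega)]
  simpa using h5

theorem drop_waste (h : Inv k v Kf e' s) (hv : SumV v) :
    hp (fh (sF s b') + 1) * ∑ y ∈ Finset.Ico (keep (s.1.headD []) b' (sF s b'))
      (fD (sF s b')).length, hp (v ((s.1.headD []).take (fx (sF s b') + y + 1))) ≤
      w (fE (sU k s b')) - w (fE (sF s b')) - w (sE k s b') := by
  obtain ⟨hlt, hS⟩ := h.sel (b' := b') hv
  have h1 : fE (sU k s b') = sE k s b' ++ (((fD (sF s b')).drop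
    (keep (s.1.headD []) b' (sF s b'))).flatten ++ fE (sF s b')) := rfl
  rw [h1, w_append, w_append]
  have h2 : hp (fh (sF s b') + 1) * ∑ y ∈ Finset.Ico (keep (s.1.headD []) b' (sF s b'))
      (fD (sF s b')).length, hp (v ((s.1.headD []).take (fx (sF s b') + y + 1))) ≤
      w ((fD (sF s b')).drop (keep (s.1.headD []) b' (sF s b'))).flatten := by
    rw [w_drop_flatten _ (keep_le _ _ _), Finset.mul_sum]
    refine Finset.sum_le_sum fun y hy => ?_
    rw [← hp_add]
    refine le_trans (le_of_eq ?_) (hS.fr.d y (Finset.mem_Ico.1 hy).2).2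
    congr 1; omega
  linarith

/-- the lowest changed height -/
noncomputable def low (k : ℕ) (s : St) (b' : List Bool) : ℕ :=
  if big (fg (sU k s b')) (fE (sU k s b')) = true then (sR s b').length - 1 else (sR s b').length

/-- what happens at height `H` -/
inductive At (k : ℕ) (v : List Bool → ℕ) (s : St) (b' : List Bool) (H : ℕ) (l : ℕ) (s' : St) : Prop
  | above (hl : H < l) (hs : s.2.1.length > H) (hG : atH s'.2.1 H = atH s.2.1 H)
      (hm : sm (s.1.headD []) b' (fx (atH s.2.1 H) + (fD (atH s.2.1 H)).length + 1) = true)
      (hlen : s'.2.1.length > H + 1) : At k v s b' H l s'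
  | push (hl : l = H) (hs : s.2.1.length > H) (hG : atH s'.2.1 H = sU k s b')
      (hF : atH s.2.1 H = sF s b')
      (hm : sm (s.1.headD []) b' (fx (atH s.2.1 H)) = true)
      (hlen : s'.2.1.length = H + 2)
      (hh : s.2.1.length > H + 1 → sm (s.1.headD []) b'
        (fx (atH s.2.1 H) + (fD (atH s.2.1 H)).length + 1) = false) : At k v s b' H l s'
  | stay (hl : l = H) (hs : s.2.1.length > H) (hG : atH s'.2.1 H = sU k s b')
      (hF : atH s.2.1 H = sF s b')
      (hm : sm (s.1.headD []) b' (fx (atH s.2.1 H)) = true)
      (hlen : s'.2.1.length = H + 1) (hk : H + 1 = k)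
      (hE : w (sE k s b') = hp (fh (sF s b'))) : At k v s b' H l s'
  | ret (hl : l = H) (hs : s.2.1.length > H) (E : List Elt)
      (hG : atH s'.2.1 H = att E (atH s.2.1 H))
      (hm : sm (s.1.headD []) b' (fx (atH s.2.1 H) + (fD (atH s.2.1 H)).length + 1) = true)
      (hlen : s'.2.1.length = H + 1) : At k v s b' H l s'

theorem len_low (hv : SumV v) (hK : ∀ F : Finset (List Bool), ∑ c ∈ F, hp (Kf c) ≤ 1)
    (hk : k = 2 ^ (e' + 1) + 1) (h : Inv k v Kf e' s) (hb : Valid Kf e' s b') :
    low k s b' < (stp k v s b').2.1.length ∧ low k s b' < k := by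
  obtain ⟨hlt, hS⟩ := h.sel (b' := b') hv
  have hlen := hS.len
  unfold low
  rcases cases_step hv hK hk h hb with ⟨p, r, hR, hbig, he, hi⟩ | ⟨hk2, hbig, he, hi⟩ | ⟨hk2, hbig, he, hi⟩
  · rw [if_pos (big_iff.2 hbig), he, hR]
    rw [hR] at hlen
    simp only [List.length_cons] at hlen ⊢
    omega
  · rw [if_neg (by rw [big_iff]; exact hbig), he]
    simp only [List.length_cons]; omega
  · rw [if_neg (by rw [big_iff]; exact hbig), he]
    simp only [List.length_cons]; omega

theorem at_step (hv : SumV v) (hK : ∀ F : Finset (List Bool), ∑ c ∈ F, hp (Kf c) ≤ 1)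
    (hk : k = 2 ^ (e' + 1) + 1) (h : Inv k v Kf e' s) (hb : Valid Kf e' s b') {H : ℕ}
    (hH : H ≤ low k s b') : At k v s b' H (low k s b') (stp k v s b') := by
  obtain ⟨hlt, hS⟩ := h.sel (b' := b') hv
  have hlen := hS.len
  have hsl := sR_len hlt
  rcases cases_step hv hK hk h hb with ⟨p, r, hR, hbig, he, hi⟩ | ⟨hk2, hbig, he, hi⟩ | ⟨hk2, hbig, he, hi⟩
  · have hl : low k s b' = r.length := by
      unfold low
      rw [if_pos (big_iff.2 hbig), hR]; simp
    rw [hR] at hlen hsl
    simp only [List.length_cons] at hlen hsl
    have hRl : (sR s b').length = r.length + 1 := by rw [hR]; simp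
    rcases lt_or_eq_of_le hH with h1 | h1
    · refine At.above h1 (by omega) ?_ ?_ ?_
      · rw [he, atH_cons (by omega), ← atH_sR hlt (b' := b') (by omega), hR, atH_cons (by omega)]
      · rw [← h.child H (by omega)]
        exact sm_low hv h (by omega)
      · rw [he]; simp only [List.length_cons]; omega
    · rw [hl] at h1
      have h2 : atH s.2.1 H = p := by
        rw [← atH_sR hlt (b' := b') (by omega), hR, h1, atH_len]
      refine At.ret (by omega) (by omega) (fE (sU k s b')) ?_ ?_ ?_
      · rw [he, h2, h1, atH_len]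
      · rw [← h.child H (by omega)]
        exact sm_low hv h (by omega)
      · rw [he]; simp only [List.length_cons]; omega
  · have hl : low k s b' = (sR s b').length := by
      unfold low
      rw [if_neg (by rw [big_iff]; exact hbig)]
    rcases lt_or_eq_of_le hH with h1 | h1
    · refine At.above h1 (by omega) ?_ ?_ ?_
      · rw [he, atH_cons (by simp only [List.length_cons]; omega), atH_cons (by omega),
          ← atH_sR hlt (b' := b') (by omega)]
      · rw [← h.child H (by omega)]
        exact sm_low hv h (by omega)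
      · rw [he]; simp only [List.length_cons]; omega
    · rw [hl] at h1
      have h2 : atH s.2.1 H = sF s b' := by rw [h1, atH_sel hlt]
      refine At.push (by omega) (by omega) ?_ h2 ?_ ?_ ?_
      · rw [he, atH_cons (by simp only [List.length_cons]; omega), h1, atH_len]
      · exact sm_low hv h (by omega)
      · rw [he]; simp only [List.length_cons]; omega
      · intro h3
        rw [h2]
        exact sm_high hv h (by omega)
  · have hl : low k s b' = (sR s b').length := by
      unfold low
      rw [if_neg (by rw [big_iff]; exact hbig)]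
    rcases lt_or_eq_of_le hH with h1 | h1
    · refine At.above h1 (by omega) ?_ ?_ ?_
      · rw [he, atH_cons (by omega), ← atH_sR hlt (b' := b') (by omega)]
      · rw [← h.child H (by omega)]
        exact sm_low hv h (by omega)
      · rw [he]; simp only [List.length_cons]; omega
    · rw [hl] at h1
      have h2 : atH s.2.1 H = sF s b' := by rw [h1, atH_sel hlt]
      refine At.stay (by omega) (by omega) ?_ h2 ?_ ?_ (by omega) ?_
      · rw [he, h1, atH_len]
      · exact sm_low hv h (by omega)
      · rw [he]; simp only [List.length_cons]; omega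
      · obtain ⟨f, rest, he0, ht⟩ := h.top
        have h3 := ht.len
        have h4 : s.2.1.length = rest.length + 1 := by rw [he0]; simp
        have h5 : sI s b' = 0 := by omega
        unfold sE colE
        rw [h5, if_neg (by omega), if_pos (by omega)]
        simp
        
end

end Pool.Agent.U35.OW
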