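import Pool.Agent.U35.OW.Gold

set_option autoImplicit false

/-! The golden run. -/

open Filter
open Pool.Agent.Helper227 (pre take_pre length_pre)

namespace Pool.Agent.U35.OW

structure Run (k : ℕ) (v : List Bool → ℕ) (Kf : List Bool → ℕ) (e' : ℕ) (A : ℕ → Bool)
    (S : ℕ → St) (F : ℕ → List Bool) (act : ℕ → Prop) : Prop where
  z : S 0 = init
  a : ∀ t, act t → Valid Kf e' (S t) (F (t + 1)) ∧ S (t + 1) = stp k v (S t) (F (t + 1))
  n : ∀ t, ¬ act t → S (t + 1) = S t
  f : ∀ N, ∃ t ≥ N, act t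
  c : ∀ n, ∃ N, ∀ t ≥ N, (F t).take n = pre A n

/-- the string of the golden frame -/
def alp (H : ℕ) (s : St) : List Bool :=
  (s.1.headD []).take (fx (atH s.2.1 H) + (fD (atH s.2.1 H)).length)

section
variable {k : ℕ} {v : List Bool → ℕ} {Kf : List Bool → ℕ} {e' : ℕ} {A : ℕ → Bool} {S : ℕ → St}
  {F : ℕ → List Bool} {act : ℕ → Prop}

theorem Run.inv (hv : SumV v) (hK : ∀ F : Finset (List Bool), ∑ c ∈ F, hp (Kf c) ≤ 1)
    (hk : k = 2 ^ (e' + 1) + 1) (R : Run k v Kf e' A S F act) (t : ℕ) : Inv k v Kf e' (S t) := by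
  induction t with
  | zero =>
    rw [R.z]
    refine inv_init ?_
    have : 0 < 2 ^ (e' + 1) := by positivity
    omega
  | succ t ih =>
    by_cases ha : act t
    · rw [(R.a t ha).2]
      exact inv_stp hv hK hk ih (R.a t ha).1
    · rw [R.n t ha]; exact ih

/-- the strings converge -/
theorem Run.conv (R : Run k v Kf e' A S F act) (n : ℕ) :
    ∃ N, ∀ t ≥ N, ((S t).1.headD []).take n = pre A n := by
  obtain ⟨N, hN⟩ := R.c n
  obtain ⟨t0, ht0, ha⟩ := R.f N
  refine ⟨t0 + 1, fun t ht => ?_⟩
  induction t, ht using Nat.le_induction with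
  | base =>
    rw [(R.a t0 ha).2]
    exact hN (t0 + 1) (by omega)
  | succ t ht ih =>
    by_cases ha : act t
    · rw [(R.a t ha).2]
      exact hN (t + 1) (by omega)
    · rw [R.n t ha]; exact ih

/-- the golden height -/
theorem Run.height (hv : SumV v) (hK : ∀ F : Finset (List Bool), ∑ c ∈ F, hp (Kf c) ≤ 1)
    (hk : k = 2 ^ (e' + 1) + 1) (R : Run k v Kf e' A S F act) :
    ∃ H < k, (∀ N, ∃ t ≥ N, act t ∧ low k (S t) (F (t + 1)) = H) ∧
      ∃ J, (∀ t ≥ J, act t → H ≤ low k (S t) (F (t + 1))) ∧ ∀ t ≥ J, (S t).2.1.length > H := by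
  have hlow : ∀ t, act t → low k (S t) (F (t + 1)) < (S (t + 1)).2.1.length ∧
      low k (S t) (F (t + 1)) < k := by
    intro t ha
    rw [(R.a t ha).2]
    exact len_low hv hK hk (R.inv hv hK hk t) (R.a t ha).1
  have hex : ∃ H, ∀ N, ∃ t ≥ N, act t ∧ low k (S t) (F (t + 1)) = H := by
    by_contra hc
    push Not at hc
    choose N hN using hc
    obtain ⟨t, ht, ha⟩ := R.f (∑ i ∈ Finset.range k, N i)
    have h1 := (hlow t ha).2
    have h2 : N (low k (S t) (F (t + 1))) ≤ ∑ i ∈ Finset.range k, N i :=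
      Finset.single_le_sum (f := N) (fun _ _ => Nat.zero_le _) (Finset.mem_range.2 h1)
    exact hN _ t (h2.trans ht) ha rfl
  classical
  refine ⟨Nat.find hex, ?_, Nat.find_spec hex, ?_⟩
  · obtain ⟨t, -, ha, h1⟩ := Nat.find_spec hex 0
    rw [← h1]
    exact (hlow t ha).2
  · have hmin : ∀ h < Nat.find hex, ∃ N, ∀ t ≥ N, ¬ (act t ∧ low k (S t) (F (t + 1)) = h) := by
      intro h hh
      have := Nat.find_min hex hh
      push Not at this
      obtain ⟨N, hN⟩ := this
      exact ⟨N, fun t ht hc => hN t ht hc.1 hc.2⟩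
    choose! N hN using hmin
    obtain ⟨t0, ht0, ha0⟩ := R.f (∑ i ∈ Finset.range (Nat.find hex), N i)
    have hall : ∀ t ≥ t0, act t → Nat.find hex ≤ low k (S t) (F (t + 1)) := by
      intro t ht ha
      by_contra hc
      push Not at hc
      have h2 : N (low k (S t) (F (t + 1))) ≤ ∑ i ∈ Finset.range (Nat.find hex), N i :=
        Finset.single_le_sum (f := N) (fun _ _ => Nat.zero_le _) (Finset.mem_range.2 hc)
      exact hN _ hc t (by omega) ⟨ha, rfl⟩
    refine ⟨t0 + 1, fun t ht => hall t (by omega), fun t ht => ?_⟩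
    induction t, ht using Nat.le_induction with
    | base => exact lt_of_le_of_lt (hall t0 le_rfl ha0) (hlow t0 ha0).1
    | succ t ht ih =>
      by_cases ha : act t
      · exact lt_of_le_of_lt (hall t (by omega) ha) (hlow t ha).1
      · rw [R.n t ha]; exact ih

theorem sm_keep {b b' : List Bool} {f : Frame} (h0 : sm b b' (fx f) = true) :
    sm b b' (fx f + keep b b' f) = true := by
  rcases Nat.eq_zero_or_pos (keep b b' f) with h | h
  · rw [h, Nat.add_zero]; exact h0
  · have h1 := keep_le b b' f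
    have h2 := (keep_spec b b' f (keep b b' f - 1) (by omega)).2 (by omega)
    have h3 : fx f + (keep b b' f - 1) + 1 = fx f + keep b b' f := by omega
    rwa [h3] at h2

/-- one stage at the golden frame -/
theorem one (hv : SumV v) (hK : ∀ F : Finset (List Bool), ∑ c ∈ F, hp (Kf c) ≤ 1)
    (hk : k = 2 ^ (e' + 1) + 1) (R : Run k v Kf e' A S F act) {H t : ℕ}
    (hlen : (S t).2.1.length > H) (hlow : act t → H ≤ low k (S t) (F (t + 1))) :
    (fx (atH (S (t + 1)).2.1 H) = fx (atH (S t).2.1 H) ∧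
      fg (atH (S (t + 1)).2.1 H) = fg (atH (S t).2.1 H) ∧
      fh (atH (S (t + 1)).2.1 H) = fh (atH (S t).2.1 H)) ∧
    (alp H (S (t + 1)) <+: alp H (S t) ∨ alp H (S t) <+: alp H (S (t + 1))) ∧
    hp (fh (atH (S t).2.1 H) + 1) * max 0 (Vv v (alp H (S t)) - Vv v (alp H (S (t + 1)))) ≤
      w (fE (atH (S (t + 1)).2.1 H)) - w (fE (atH (S t).2.1 H)) ∧
    (∀ n, sm ((S t).1.headD []) ((S (t + 1)).1.headD []) (fx (atH (S t).2.1 H) + n) = true →
      n ≤ (fD (atH (S t).2.1 H)).length → n ≤ (fD (atH (S (t + 1)).2.1 H)).length) ∧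
    (act t → low k (S t) (F (t + 1)) = H → H + 1 = k →
      w (fE (atH (S t).2.1 H)) + hp (fh (atH (S t).2.1 H)) ≤ w (fE (atH (S (t + 1)).2.1 H))) ∧
    (act t → H < low k (S t) (F (t + 1)) → (S (t + 1)).2.1.length > H + 1) ∧
    (act t → low k (S t) (F (t + 1)) = H → H + 1 < k →
      (fD (atH (S (t + 1)).2.1 H)).length = (fD (atH (S t).2.1 H)).length + 1 ∨
      ((S (t + 1)).2.1.length > H + 1 ∧ ((S t).2.1.length > H + 1 →
        sm ((S t).1.headD []) ((S (t + 1)).1.headD [])
          (fx (atH (S t).2.1 H) + (fD (atH (S t).2.1 H)).length + 1) = false))) := by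
  by_cases ha : act t
  swap
  · rw [R.n t ha]
    refine ⟨⟨rfl, rfl, rfl⟩, Or.inl List.prefix_rfl, ?_, fun _ _ h => h, fun h => absurd h ha,
      fun h => absurd h ha, fun h => absurd h ha⟩
    simp
  have hI := R.inv hv hK hk t
  have hI' := R.inv hv hK hk (t + 1)
  obtain ⟨hV, hS⟩ := R.a t ha
  have hb' : (S (t + 1)).1.headD [] = F (t + 1) := by rw [hS]; rfl
  rw [hb']
  have hA := at_step hv hK hk hI hV (hlow ha)
  rw [← hS] at hA
  have hal : ∀ s, alp H s = (s.1.headD []).take (fx (atH s.2.1 H) + (fD (atH s.2.1 H)).length) :=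
    fun _ => rfl
  -- the case of an updated frame
  have hupd : atH (S (t + 1)).2.1 H = sU k (S t) (F (t + 1)) →
      atH (S t).2.1 H = sF (S t) (F (t + 1)) →
      sm ((S t).1.headD []) (F (t + 1)) (fx (atH (S t).2.1 H)) = true →
      (fx (atH (S (t + 1)).2.1 H) = fx (atH (S t).2.1 H) ∧
      fg (atH (S (t + 1)).2.1 H) = fg (atH (S t).2.1 H) ∧
      fh (atH (S (t + 1)).2.1 H) = fh (atH (S t).2.1 H)) ∧
      alp H (S (t + 1)) <+: alp H (S t) ∧
      hp (fh (atH (S t).2.1 H) + 1) * max 0 (Vv v (alp H (S t)) - Vv v (alp H (S (t + 1)))) ≤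
        w (fE (atH (S (t + 1)).2.1 H)) - w (fE (atH (S t).2.1 H)) - w (sE k (S t) (F (t + 1))) ∧
      (∀ n, sm ((S t).1.headD []) (F (t + 1)) (fx (atH (S t).2.1 H) + n) = true →
        n ≤ (fD (atH (S t).2.1 H)).length → n ≤ (fD (atH (S (t + 1)).2.1 H)).length) := by
    intro h1 h2 h3
    rw [h2] at h3
    have h4 : fx (atH (S (t + 1)).2.1 H) = fx (atH (S t).2.1 H) := by rw [h1, h2]; rfl
    have hkl := keep_le ((S t).1.headD []) (F (t + 1)) (sF (S t) (F (t + 1)))
    have h5 : (fD (atH (S (t + 1)).2.1 H)).length =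
        keep ((S t).1.headD []) (F (t + 1)) (sF (S t) (F (t + 1))) := by
      rw [h1]
      change ((fD (sF (S t) (F (t + 1)))).take _).length = _
      rw [List.length_take, min_eq_left hkl]
    have hsk := sm_keep h3
    have h6 : alp H (S (t + 1)) = ((S t).1.headD []).take (fx (sF (S t) (F (t + 1))) +
        keep ((S t).1.headD []) (F (t + 1)) (sF (S t) (F (t + 1)))) := by
      rw [hal, h4, h2, h5, hb', sm_iff.1 hsk]
    have h7 : alp H (S t) = ((S t).1.headD []).take (fx (sF (S t) (F (t + 1))) +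
        (fD (sF (S t) (F (t + 1)))).length) := by
      rw [hal, h2]
    have hpos := hI.pos' hv H hlen
    rw [h2] at hpos
    refine ⟨⟨h4, by rw [h1, h2]; rfl, by rw [h1, h2]; rfl⟩, ?_, ?_, ?_⟩
    · rw [h6, h7]
      exact List.take_prefix_take_left (by omega)
    · have h8 := drop_waste (b' := F (t + 1)) hI hv
      rw [h2, h1]
      refine le_trans ?_ h8
      refine mul_le_mul_of_nonneg_left ?_ (hp_nonneg _)
      rw [h6, h7, Vv_take hpos, Vv_take (by omega)]
      refine max_le (Finset.sum_nonneg fun _ _ => hp_nonneg _) (le_of_eq ?_)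
      rw [sub_eq_iff_eq_add, Finset.sum_range_add, Finset.sum_range_add]
      have h9 := Finset.sum_range_add_sum_Ico (fun y => hp (v (((S t).1.headD []).take
        (fx (sF (S t) (F (t + 1))) + y + 1)))) hkl
      linarith
    · intro n hn hn'
      rw [h5]
      rw [h2] at hn hn'
      rcases Nat.eq_zero_or_pos n with h0 | h0
      · omega
      · have h9 := (keep_spec ((S t).1.headD []) (F (t + 1)) (sF (S t) (F (t + 1))) (n - 1)
          (by omega)).1 (by
            have : fx (sF (S t) (F (t + 1))) + (n - 1) + 1 = fx (sF (S t) (F (t + 1))) + n := by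
              omega
            rw [this]; exact hn)
        omega
  rcases hA with ⟨hl, hs, hG, hm, hlen'⟩ | ⟨hl, hs, hG, hF, hm, hlen', hh⟩ |
    ⟨hl, hs, hG, hF, hm, hlen', hk1, hE⟩ | ⟨hl, hs, E, hG, hm, hlen'⟩
  · have h1 : alp H (S (t + 1)) = alp H (S t) := by
      rw [hal, hal, hG, hb']
      exact (sm_iff.1 (sm_mono (Nat.le_succ _) hm)).symm
    rw [hG, h1]
    refine ⟨⟨rfl, rfl, rfl⟩, Or.inl List.prefix_rfl, ?_, fun _ _ h => h, fun _ h => absurd h (by omega),
      fun _ _ => hlen', fun _ h => absurd h (by omega)⟩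
    simp
  · obtain ⟨h1, h2, h3, h4⟩ := hupd hG hF hm
    have h5 := w_nonneg (sE k (S t) (F (t + 1)))
    refine ⟨h1, Or.inl h2, by linarith, h4, ?_, fun _ h => absurd h (by omega), fun _ _ _ =>
      Or.inr ⟨by omega, hh⟩⟩
    intro _ _ hk1
    have h6 := hI'.top
    obtain ⟨f, rest, he, ht⟩ := h6
    have h7 := ht.len
    rw [he] at hlen'
    simp only [List.length_cons] at hlen'
    omega
  · obtain ⟨h1, h2, h3, h4⟩ := hupd hG hF hm
    have h5 := w_nonneg (sE k (S t) (F (t + 1)))
    refine ⟨h1, Or.inl h2, by linarith, h4, ?_, fun _ h => absurd h (by omega),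
      fun _ _ h => absurd h (by omega)⟩
    intro _ _ _
    have h6 : 0 ≤ hp (fh (atH (S t).2.1 H) + 1) *
      max 0 (Vv v (alp H (S t)) - Vv v (alp H (S (t + 1)))) :=
        mul_nonneg (hp_nonneg _) (le_max_left _ _)
    rw [hE, ← hF] at h3
    linarith
  · have h1 : (fD (atH (S (t + 1)).2.1 H)).length = (fD (atH (S t).2.1 H)).length + 1 := by
      rw [hG]
      change (fD (atH (S t).2.1 H) ++ [E]).length = _
      simp
    have h2 : fx (atH (S (t + 1)).2.1 H) = fx (atH (S t).2.1 H) := by rw [hG]; rfl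
    have h3 : w (fE (atH (S (t + 1)).2.1 H)) = w (fE (atH (S t).2.1 H)) := by rw [hG]; rfl
    have hpos := hI'.pos' hv H (by omega)
    rw [h2, h1, hb'] at hpos
    have h4 : alp H (S (t + 1)) = (F (t + 1)).take
        (fx (atH (S t).2.1 H) + ((fD (atH (S t).2.1 H)).length + 1)) := by
      rw [hal, h2, h1, hb']
    have h5 : alp H (S t) = (F (t + 1)).take
        (fx (atH (S t).2.1 H) + (fD (atH (S t).2.1 H)).length) := by
      rw [hal]
      exact sm_iff.1 (sm_mono (Nat.le_succ _) hm)
    refine ⟨⟨h2, by rw [hG]; rfl, by rw [hG]; rfl⟩, Or.inr ?_, ?_, ?_, ?_, fun _ h => absurd h (by omega),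
      fun _ _ _ => Or.inl h1⟩
    · rw [h4, h5]
      exact List.take_prefix_take_left (by omega)
    · rw [h3, sub_self]
      have h6 : max 0 (Vv v (alp H (S t)) - Vv v (alp H (S (t + 1)))) = 0 := by
        rw [max_eq_left]
        rw [h4, h5, Vv_take hpos, Vv_take (by omega), ← Nat.add_assoc, Finset.sum_range_succ]
        have := hp_nonneg (v ((F (t + 1)).take
          (fx (atH (S t).2.1 H) + (fD (atH (S t).2.1 H)).length + 1)))
        linarith
      rw [h6, mul_zero]
    · intro n _ hn
      rw [h1]; omega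
    · intro _ _ hk1
      exfalso
      -- no frame above height `k - 1` can return
      have h6 := hI.top
      obtain ⟨f, rest, he, ht⟩ := h6
      have h7 := ht.len
      have h8 : (S t).2.1.length = rest.length + 1 := by rw [he]; simp
      obtain ⟨hlt, hSel⟩ := hI.sel (b' := F (t + 1)) hv
      have h9 := sR_len hlt
      have h10 := hl
      unfold low at h10
      split_ifs at h10 with hbig
      · have h11 := not_bottom hv hK hk hI hV hbig
        have h12 : 0 < (sR (S t) (F (t + 1))).length := List.length_pos_of_ne_nil h11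
        omega
      · -- then the frame is the selected one
        rcases cases_step hv hK hk hI hV with ⟨p, r, hR, hb1, he1, hi1⟩ | ⟨hk2, hb1, he1, hi1⟩ |
          ⟨hk2, hb1, he1, hi1⟩
        · exact hbig (big_iff.2 hb1)
        · omega
        · rw [hS, he1, ← h10, atH_len] at h1
          have h13 : (fD (sU k (S t) (F (t + 1)))).length ≤ (fD (sF (S t) (F (t + 1)))).length := by
            change ((fD (sF (S t) (F (t + 1)))).take _).length ≤ _
            exact List.length_take_le' _ _
          rw [atH_sel hlt] at h1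
          omega

/-- the golden run theorem -/
theorem golden (hv : SumV v) (hK : ∀ F : Finset (List Bool), ∑ c ∈ F, hp (Kf c) ≤ 1)
    (hk : k = 2 ^ (e' + 1) + 1) (R : Run k v Kf e' A S F act) :
    ∃ (H J : ℕ) (W : ℝ),
      (∀ t ≥ J, alp H (S (t + 1)) <+: alp H (S t) ∨ alp H (S t) <+: alp H (S (t + 1))) ∧
      (∀ n, ∃ N, ∀ t ≥ N, (alp H (S t)).take n = pre A n) ∧
      ∀ n, ∑ t ∈ Finset.range n, max 0 (Vv v (alp H (S (J + t))) - Vv v (alp H (S (J + t + 1)))) ≤
        W := by
  obtain ⟨H, hHk, hinf, J, hJ1, hJ2⟩ := R.height hv hK hk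
  have h1 : ∀ t ≥ J, _ := fun t ht => one hv hK hk R (hJ2 t ht) (hJ1 t ht)
  have hx : ∀ t ≥ J, fx (atH (S t).2.1 H) = fx (atH (S J).2.1 H) ∧
      fg (atH (S t).2.1 H) = fg (atH (S J).2.1 H) ∧
      fh (atH (S t).2.1 H) = fh (atH (S J).2.1 H) := by
    intro t ht
    induction t, ht using Nat.le_induction with
    | base => exact ⟨rfl, rfl, rfl⟩
    | succ t ht ih =>
      obtain ⟨⟨a1, a2, a3⟩, -⟩ := h1 t ht
      exact ⟨a1.trans ih.1, a2.trans ih.2.1, a3.trans ih.2.2⟩
  have hmono : ∀ t ≥ J, w (fE (atH (S t).2.1 H)) ≤ w (fE (atH (S (t + 1)).2.1 H)) := by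
    intro t ht
    obtain ⟨-, -, a, -⟩ := h1 t ht
    have : 0 ≤ hp (fh (atH (S t).2.1 H) + 1) *
      max 0 (Vv v (alp H (S t)) - Vv v (alp H (S (t + 1)))) :=
        mul_nonneg (hp_nonneg _) (le_max_left _ _)
    linarith
  have hmono' : ∀ t ≥ J, ∀ u ≥ t, w (fE (atH (S t).2.1 H)) ≤ w (fE (atH (S u).2.1 H)) := by
    intro t ht u hu
    induction u, hu using Nat.le_induction with
    | base => exact le_rfl
    | succ u hu ih => exact ih.trans (hmono u (by omega))
  have hwt : ∀ t ≥ J, w (fE (atH (S t).2.1 H)) ≤ 1 := by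
    intro t ht
    have a := (R.inv hv hK hk t).wt hv H (hJ2 t ht)
    exact a.le.trans (hp_le_one _)
  -- the height is not maximal
  have hHk' : H + 1 < k := by
    by_contra hc
    have hk1 : H + 1 = k := by omega
    have hgrow : ∀ n : ℕ, ∃ t ≥ J, n * hp (fh (atH (S J).2.1 H)) ≤ w (fE (atH (S t).2.1 H)) := by
      intro n
      induction n with
      | zero => exact ⟨J, le_rfl, by simpa using w_nonneg _⟩
      | succ n ih =>
        obtain ⟨t, ht, htn⟩ := ih
        obtain ⟨u, hu, hau, hlu⟩ := hinf t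
        obtain ⟨-, -, -, -, a, -⟩ := h1 u (by omega)
        have a' := a hau hlu hk1
        rw [(hx u (by omega)).2.2] at a'
        refine ⟨u + 1, by omega, ?_⟩
        have := hmono' t ht u hu
        push_cast
        linarith
    obtain ⟨n, hn⟩ := exists_nat_gt (1 / hp (fh (atH (S J).2.1 H)))
    obtain ⟨t, ht, htn⟩ := hgrow n
    have h2 := hwt t ht
    have h3 := hp_pos (fh (atH (S J).2.1 H))
    rw [div_lt_iff₀ h3] at hn
    linarith
  -- growth of the attached part
  have hD : ∀ n, ∃ N ≥ J, ∀ t ≥ N, n ≤ (fD (atH (S t).2.1 H)).length := by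
    intro n
    induction n with
    | zero => exact ⟨J, le_rfl, fun _ _ => Nat.zero_le _⟩
    | succ n ih =>
      obtain ⟨N, hNJ, hN⟩ := ih
      obtain ⟨M, hM⟩ := R.conv (fx (atH (S J).2.1 H) + (n + 1))
      have hsm : ∀ t, t ≥ M → t ≥ J → sm ((S t).1.headD []) ((S (t + 1)).1.headD [])
          (fx (atH (S t).2.1 H) + (n + 1)) = true := by
        intro t ht ht'
        rw [(hx t ht').1, sm_iff, hM t ht, hM (t + 1) (by omega)]
      -- once large, always large
      have hpers : ∀ t0 ≥ max N M, n + 1 ≤ (fD (atH (S t0).2.1 H)).length →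
          ∀ t ≥ t0, n + 1 ≤ (fD (atH (S t).2.1 H)).length := by
        intro t0 ht0 h0 t ht
        have h2 := le_max_left N M
        have h3 := le_max_right N M
        induction t, ht using Nat.le_induction with
        | base => exact h0
        | succ t ht ih =>
          obtain ⟨-, -, -, a, -⟩ := h1 t (by omega)
          exact a (n + 1) (hsm t (by omega) (by omega)) ih
      have hN1 := le_max_left N M
      have hN2 := le_max_right N M
      suffices ∃ t0 ≥ max N M, n + 1 ≤ (fD (atH (S t0).2.1 H)).length by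
        obtain ⟨t0, ht0, h0⟩ := this
        exact ⟨t0, by omega, hpers t0 ht0 h0⟩
      obtain ⟨j1, hj1, ha1, hl1⟩ := hinf (max N M)
      obtain ⟨-, -, -, -, -, -, a7⟩ := h1 j1 (by omega)
      rcases a7 ha1 hl1 hHk' with h2 | ⟨h2, -⟩
      · refine ⟨j1 + 1, by omega, ?_⟩
        have := hN j1 (by omega)
        omega
      · -- the next time
        have hnext : ∃ j2, j1 < j2 ∧ act j2 ∧ low k (S j2) (F (j2 + 1)) = H := by
          obtain ⟨t, ht, h3, h4⟩ := hinf (j1 + 1)
          exact ⟨t, by omega, h3, h4⟩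
        classical
        obtain ⟨hj2, ha2, hl2⟩ := Nat.find_spec hnext
        have hmin := fun m => Nat.find_min (H := hnext) (m := m)
        set j2 := Nat.find hnext with hj2def
        have hlenj : ∀ t, j1 + 1 ≤ t → t ≤ j2 → (S t).2.1.length > H + 1 := by
          intro t ht
          induction t, ht using Nat.le_induction with
          | base => intro _; exact h2
          | succ t ht ih =>
            intro ht2
            have h3 := ih (by omega)
            by_cases ha : act t
            · obtain ⟨-, -, -, -, -, a6, -⟩ := h1 t (by omega)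
              refine a6 ha ?_
              have h4 := hJ1 t (by omega) ha
              rcases lt_or_eq_of_le h4 with h5 | h5
              · exact h5
              · exact absurd ⟨by omega, ha, h5.symm⟩ (hmin t (by omega))
            · rw [R.n t ha]; exact h3
        have h3 := hlenj j2 (by omega) le_rfl
        obtain ⟨-, -, -, -, -, -, a7'⟩ := h1 j2 (by omega)
        rcases a7' ha2 hl2 hHk' with h4 | ⟨-, h4⟩
        · refine ⟨j2 + 1, by omega, ?_⟩
          have := hN j2 (by omega)
          omega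
        · have h5 := h4 h3
          refine ⟨j2, by omega, ?_⟩
          by_contra hc
          have h6 := hN j2 (by omega)
          have h7 : (fD (atH (S j2).2.1 H)).length = n := by omega
          rw [h7, Nat.add_assoc, hsm j2 (by omega) (by omega)] at h5
          cases h5
  refine ⟨H, J, 2 ^ (fh (atH (S J).2.1 H) + 1), fun t ht => (h1 t ht).2.1, ?_, ?_⟩
  · intro n
    obtain ⟨N, hNJ, hN⟩ := hD n
    obtain ⟨M, hM⟩ := R.conv n
    refine ⟨max N M, fun t ht => ?_⟩
    have h2 := le_max_left N M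
    have h3 := le_max_right N M
    unfold alp
    rw [List.take_take, min_eq_left (by have := hN t (by omega); omega)]
    exact hM t (by omega)
  · intro n
    have h2 : hp (fh (atH (S J).2.1 H) + 1) * ∑ t ∈ Finset.range n,
        max 0 (Vv v (alp H (S (J + t))) - Vv v (alp H (S (J + t + 1)))) ≤
        w (fE (atH (S (J + n)).2.1 H)) - w (fE (atH (S J).2.1 H)) := by
      induction n with
      | zero => simp
      | succ n ih =>
        rw [Finset.sum_range_succ, mul_add]
        obtain ⟨-, -, a, -⟩ := h1 (J + n) (by omega)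
        rw [(hx (J + n) (by omega)).2.2] at a
        rw [← Nat.add_assoc]
        linarith
    have h3 := hwt (J + n) (by omega)
    have h4 := w_nonneg (fE (atH (S J).2.1 H))
    have h5 := hp_mul_two_pow (fh (atH (S J).2.1 H) + 1)
    have h6 := hp_pos (fh (atH (S J).2.1 H) + 1)
    nlinarith

end

end Pool.Agent.U35.OW
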