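import Pool.Agent.U35.OW.Mach

set_option autoImplicit false

/-! Invariants of the machine. -/

namespace Pool.Agent.U35.OW

/-- entries of index greater than `n` -/
def tl (hist : List (List Bool)) (n : ℕ) : List (List Bool) := hist.take (hist.length - 1 - n)

def vers (hist : List (List Bool)) (n : ℕ) : Finset (List Bool) :=
  ((tl hist n).map (List.take n)).toFinset

theorem tl_cons {hist : List (List Bool)} {b' : List Bool} {n : ℕ} (h : n < hist.length) :
    tl (b' :: hist) n = b' :: tl hist n := by
  unfold tl
  have h1 : (b' :: hist).length - 1 - n = (hist.length - 1 - n) + 1 := by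
    simp only [List.length_cons]; omega
  rw [h1, List.take_succ_cons]

theorem vers_cons {hist : List (List Bool)} {b' : List Bool} {n : ℕ} (h : n < hist.length) :
    vers (b' :: hist) n = insert (b'.take n) (vers hist n) := by
  unfold vers
  rw [tl_cons h, List.map_cons, List.toFinset_cons]

/-- the elements have at least `i` versions, and all versions agree up to position `x` -/
def Gd (hist : List (List Bool)) (iss : List Elt) (i x : ℕ) (L : List Elt) : Prop :=
  ∀ p ∈ L, p ∈ iss ∧ x ≤ p.1 ∧ p.1 + 1 < hist.length ∧ i ≤ (vers hist p.1).card ∧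
    ∀ c ∈ tl hist p.1, c.take x = (hist.headD []).take x

theorem Gd.nil (hist : List (List Bool)) (iss : List Elt) (i x : ℕ) : Gd hist iss i x [] := by
  intro p hp
  exact absurd hp (by simp)

theorem Gd.append {hist : List (List Bool)} {iss : List Elt} {i x : ℕ} {L L' : List Elt}
    (h : Gd hist iss i x L) (h' : Gd hist iss i x L') : Gd hist iss i x (L ++ L') := by
  intro p hp
  rcases List.mem_append.1 hp with h1 | h1
  · exact h p h1
  · exact h' p h1

theorem Gd.flatten {hist : List (List Bool)} {iss : List Elt} {i x : ℕ} {L : List (List Elt)}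
    (h : ∀ l ∈ L, Gd hist iss i x l) : Gd hist iss i x L.flatten := by
  intro p hp
  obtain ⟨l, hl, hpl⟩ := List.mem_flatten.1 hp
  exact h l hl p hpl

theorem Gd.mono_iss {hist : List (List Bool)} {iss iss' : List Elt} {i x : ℕ} {L : List Elt}
    (h : Gd hist iss i x L) (hs : ∀ p ∈ iss, p ∈ iss') : Gd hist iss' i x L := by
  intro p hp
  obtain ⟨h1, h2⟩ := h p hp
  exact ⟨hs p h1, h2⟩

/-- no change -/
theorem Gd.same {hist : List (List Bool)} {iss : List Elt} {i x : ℕ} {L : List Elt}
    {b' : List Bool} (h : Gd hist iss i x L) (hs : sm (hist.headD []) b' x = true) :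
    Gd (b' :: hist) iss i x L := by
  intro p hp
  obtain ⟨h1, h2, h3, h4, h5⟩ := h p hp
  rw [sm_iff] at hs
  refine ⟨h1, h2, by simp only [List.length_cons]; omega, ?_, ?_⟩
  · rw [vers_cons (by omega)]
    exact h4.trans (Finset.card_le_card (Finset.subset_insert _ _))
  · rw [tl_cons (by omega)]
    intro c hc
    rcases List.mem_cons.1 hc with rfl | hc
    · rfl
    · rw [h5 c hc, hs]; rfl

/-- a change -/
theorem Gd.change {hist : List (List Bool)} {iss : List Elt} {i x x0 : ℕ} {L : List Elt}
    {b' : List Bool} (h : Gd hist iss i x L) (hx : x0 ≤ x)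
    (hc : sm (hist.headD []) b' x = false) (hs : sm (hist.headD []) b' x0 = true) :
    Gd (b' :: hist) iss (i + 1) x0 L := by
  intro p hp
  obtain ⟨h1, h2, h3, h4, h5⟩ := h p hp
  rw [sm_iff] at hs
  have hc' : ¬ (hist.headD []).take x = b'.take x := by
    intro h6
    rw [← sm_iff, hc] at h6
    cases h6
  refine ⟨h1, hx.trans h2, by simp only [List.length_cons]; omega, ?_, ?_⟩
  · rw [vers_cons (by omega), Finset.card_insert_of_notMem]
    · omega
    · intro hmem
      unfold vers at hmem
      rw [List.mem_toFinset, List.mem_map] at hmem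
      obtain ⟨c, hc1, hc2⟩ := hmem
      have h6 := congrArg (List.take x) hc2
      rw [List.take_take, List.take_take, min_eq_left h2, h5 c hc1] at h6
      exact hc' h6
  · rw [tl_cons (by omega)]
    intro c hc1
    rcases List.mem_cons.1 hc1 with rfl | hc1
    · rfl
    · have h6 := congrArg (List.take x0) (h5 c hc1)
      rw [List.take_take, List.take_take, min_eq_left hx] at h6
      rw [h6, hs]; rfl

/-- the pending request is confirmed -/
theorem Gd.pend {hist : List (List Bool)} {iss : List Elt} {x h : ℕ} {b' : List Bool}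
    (hne : hist ≠ []) (hx : x < hist.length) (hm : (hist.length - 1, h) ∈ iss) :
    Gd (b' :: hist) iss 1 x [(hist.length - 1, h)] := by
  have hl : 0 < hist.length := List.length_pos_of_ne_nil hne
  intro p hp
  rw [List.mem_singleton] at hp
  subst hp
  refine ⟨hm, by simp only; omega, by simp only [List.length_cons]; omega, ?_, ?_⟩
  · rw [vers_cons (by simp only; omega)]
    exact Finset.card_pos.2 ⟨_, Finset.mem_insert_self _ _⟩
  · simp only
    rw [tl_cons (by omega)]
    intro c hc
    rcases List.mem_cons.1 hc with rfl | hc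
    · rfl
    · unfold tl at hc
      rw [Nat.sub_self, List.take_zero] at hc
      exact absurd hc (by simp)

/-- weight of the requests issued from time `s` on -/
noncomputable def Uu (iss : List Elt) (s : ℕ) : ℝ := w (iss.filter fun p => decide (s ≤ p.1))

theorem Uu_nonneg (iss : List Elt) (s : ℕ) : 0 ≤ Uu iss s := w_nonneg _

theorem Uu_cons {iss : List Elt} {s T h : ℕ} (hs : s ≤ T) :
    Uu ((T, h) :: iss) s = hp h + Uu iss s := by
  unfold Uu
  rw [List.filter_cons_of_pos (by simpa using hs), w_cons]

theorem Uu_zero_of_lt {iss : List Elt} {s : ℕ} (h : ∀ p ∈ iss, p.1 < s) : Uu iss s = 0 := by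
  unfold Uu
  rw [List.filter_eq_nil_iff.2 fun p hp => by simpa using h p hp, w_nil]

section
variable (k : ℕ) (v : List Bool → ℕ)

/-- sum of the goals for the attached positions -/
noncomputable def VD (b : List Bool) (f : Frame) : ℝ :=
  ∑ y ∈ Finset.range (fD f).length, hp (v (b.take (fx f + y + 1)))

structure FrOK (hist : List (List Bool)) (iss : List Elt) (b : List Bool) (i : ℕ) (f : Frame) :
    Prop where
  e : Gd hist iss i (fx f) (fE f)
  d : ∀ y < (fD f).length, Gd hist iss (i - 1) (fx f + y + 1) ((fD f).getD y []) ∧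
    hp (v (b.take (fx f + y + 1)) + fh f + 1) ≤ w ((fD f).getD y [])

def Below (hist : List (List Bool)) (iss : List Elt) (b : List Bool) : Frame → List Frame → Prop
  | f, [] => fx f = 0 ∧ fg f = 1 ∧ fh f = 1 ∧ fs f = 0
  | f, p :: r => (fx f = fx p + (fD p).length + 1 ∧ fg f = v (b.take (fx f)) + fh p + 1 ∧
      fh f = fh p + 3 + fs f ∧ fs p < fs f) ∧ w (fE p) < hp (fg p) ∧
      FrOK v hist iss b (k - r.length) p ∧
      (Uu iss (fs p) + hp (fh p + 1 + fs f) ≤ w (fE p) + hp (fh p + 1) * VD v b p +
        hp (fh p + 2 + fs p) + Uu iss (fs f)) ∧ Below hist iss b p r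

structure Top (hist : List (List Bool)) (iss : List Elt) (b : List Bool) (f : Frame)
    (rest : List Frame) : Prop where
  len : rest.length + 1 ≤ k
  bel : Below k v hist iss b f rest
  fr : FrOK v hist iss b (k - rest.length) f
  wt : w (fE f) < hp (fg f)
  sle : fs f < hist.length
  pos : fx f + (fD f).length < hist.length
  us2 : rest.length + 1 < k → Uu iss (fs f) + hp (fh f + 2 + (hist.length - 1)) ≤
    w (fE f) + hp (fh f + 1) * VD v b f + hp (fh f + 2 + fs f)
  us1 : rest.length + 1 = k → fD f = [] ∧ Uu iss (fs f) ≤ w (fE f) + hp (fh f)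

structure Node (hist : List (List Bool)) (iss : List Elt) (b : List Bool) (f : Frame)
    (rest : List Frame) : Prop where
  len : rest.length + 1 ≤ k
  bel : Below k v hist iss b f rest
  fr : FrOK v hist iss b (k - rest.length) f
  wt : w (fE f) < hp (fg f)
  sle : fs f < hist.length
  pos : fx f < hist.length
  us : Uu iss (fs f) ≤ w (fE f) + hp (fh f)

variable {k v}

/-- the sum condition on `v` -/
def SumV (v : List Bool → ℕ) : Prop :=
  ∀ σ : List Bool, ∑ y ∈ Finset.range σ.length, hp (v (σ.take (y + 1))) ≤ 1

theorem sumV_shift (hv : SumV v) {b : List Bool} {x n : ℕ} (h : x + n ≤ b.length) :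
    ∑ y ∈ Finset.range n, hp (v (b.take (x + y + 1))) ≤ 1 := by
  have h1 : ∑ y ∈ Finset.range n, hp (v (b.take (x + y + 1))) ≤
      ∑ y ∈ Finset.range b.length, hp (v (b.take (y + 1))) := by
    have h2 : ∑ y ∈ Finset.range n, hp (v (b.take (x + y + 1))) =
        ∑ z ∈ (Finset.range n).image (fun y => x + y), hp (v (b.take (z + 1))) := by
      rw [Finset.sum_image]
      intro a _ c _ hac
      simp only at hac
      omega
    rw [h2]
    refine Finset.sum_le_sum_of_subset_of_nonneg ?_ fun _ _ _ => hp_nonneg _
    intro z hz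
    rw [Finset.mem_image] at hz
    obtain ⟨y, hy, rfl⟩ := hz
    rw [Finset.mem_range] at hy ⊢
    omega
  exact h1.trans (hv b)

theorem VD_nonneg (b : List Bool) (f : Frame) : 0 ≤ VD v b f :=
  Finset.sum_nonneg fun _ _ => hp_nonneg _

theorem Top.node {hist : List (List Bool)} {iss : List Elt} {b : List Bool} {f : Frame}
    {rest : List Frame} (hv : SumV v) (hb : hist.length ≤ b.length + 1)
    (h : Top k v hist iss b f rest) : Node k v hist iss b f rest := by
  refine ⟨h.len, h.bel, h.fr, h.wt, h.sle, by have := h.pos; omega, ?_⟩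
  rcases lt_or_eq_of_le h.len with h1 | h1
  · have h2 := h.us2 h1
    have h3 : VD v b f ≤ 1 := sumV_shift hv (by have := h.pos; omega)
    have h4 : hp (fh f + 2 + fs f) ≤ hp (fh f + 1) := hp_le (by omega)
    have h5 := hp_pos (fh f + 2 + (hist.length - 1))
    have h6 := hp_pos (fh f + 1)
    have h7 := hp_succ (fh f)
    nlinarith
  · exact (h.us1 h1).2

theorem Node.next {hist : List (List Bool)} {iss : List Elt} {b : List Bool} {f p : Frame}
    {rest : List Frame} (hv : SumV v) (hb : hist.length ≤ b.length + 1)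
    (h : Node k v hist iss b f (p :: rest)) : Node k v hist iss b p rest := by
  obtain ⟨⟨h1, h2, h3, h4⟩, h5, h6, h7, h8⟩ := h.bel
  have hlen := h.len
  simp only [List.length_cons] at hlen
  refine ⟨by omega, h8, h6, h5, by have := h.sle; omega, by have := h.pos; omega, ?_⟩
  have h9 := h.us
  have h10 := h.wt
  have h11 : VD v b p + hp (v (b.take (fx f))) ≤ 1 := by
    have := sumV_shift hv (b := b) (x := fx p) (n := (fD p).length + 1)
      (by have := h.pos; omega)
    rw [Finset.sum_range_succ] at this
    rw [h1]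
    exact this
  have e1 : hp (fg f) = hp (fh p + 1) * hp (v (b.take (fx f))) := by
    rw [h2, ← hp_add]; congr 1; omega
  have e2 : hp (fh f) ≤ hp (fh p + 1 + fs f) := hp_le (by omega)
  have e3 : hp (fh p + 2 + fs p) ≤ hp (fh p + 1) := hp_le (by omega)
  have e4 := hp_pos (fh p + 1)
  have e5 := hp_succ (fh p)
  nlinarith

end

end Pool.Agent.U35.OW
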