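import Pool.Agent.U35.OW.PrimM
import Pool.Agent.Helper227.KC2
import Pool.Agent.Helper227.Mach
import Pool.Agent.H561R3.Om.Meas

set_option autoImplicit false

/-! Basics on prefix-free complexity. -/

open Encodable
open Pool.Agent.Helper227 (S1 IsUniversal IsMachine KU KU_le PP.ex_lt PP.all_lt PP.ex_mem PP.all_mem)

namespace Pool.Agent.U35.OW

theorem s1_U {U : List Bool →. List Bool} (hU : Partrec U) :
    S1 fun x : List Bool × List Bool => x.2 ∈ U x.1 := by
  have h1 : Partrec fun x : List Bool × List Bool => (U x.1).bind fun y =>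
      (if y = x.2 then Part.some () else Part.none) := by
    refine Partrec.bind (hU.comp Computable.fst) ?_
    have h2 : PrimrecPred fun z : (List Bool × List Bool) × List Bool => z.2 = z.1.2 :=
      Primrec.eq.comp Primrec.snd (Primrec.snd.comp Primrec.fst)
    have h3 : Partrec fun z : (List Bool × List Bool) × List Bool =>
        (cond (decide (z.2 = z.1.2)) (Part.some ()) Part.none : Part Unit) :=
      Partrec.cond h2.decide.to_comp (Computable.const ()).partrec Partrec.none
    refine h3.of_eq fun z => ?_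
    by_cases h : z.2 = z.1.2 <;> simp [h]
  refine (S1.of_re h1.dom_re).of_eq fun x => ?_
  simp only [Part.bind_dom]
  constructor
  · rintro ⟨h, h2⟩
    by_cases h3 : (U x.1).get h = x.2
    · rw [← h3]; exact Part.get_mem h
    · rw [if_neg h3] at h2
      exact h2.elim
  · intro h
    refine ⟨Part.dom_iff_mem.2 ⟨_, h⟩, ?_⟩
    have h3 : (U x.1).get (Part.dom_iff_mem.2 ⟨_, h⟩) = x.2 := Part.get_eq_of_mem h _
    rw [if_pos h3]
    trivial

theorem KU_le_iff {U : List Bool →. List Bool} (hU : IsUniversal U) {y : List Bool} {m : ℕ} :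
    KU U y ≤ m ↔ ∃ τ : List Bool, τ.length ≤ m ∧ y ∈ U τ := by
  constructor
  · intro h
    obtain ⟨τ, h1, h2⟩ := hU.exists_min y
    exact ⟨τ, by omega, h2⟩
  · rintro ⟨τ, h1, h2⟩
    exact (KU_le h2).trans h1

theorem s1_KU {U : List Bool →. List Bool} (hU : IsUniversal U) :
    S1 fun x : List Bool × ℕ => KU U x.1 ≤ x.2 := by
  have h1 : S1 fun x : (List Bool × ℕ) × List Bool => x.2.length ≤ x.1.2 ∧ x.1.1 ∈ U x.2 := by
    refine S1.and (S1.of_prim (Primrec.nat_le.comp (Primrec.list_length.comp Primrec.snd)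
      (Primrec.snd.comp Primrec.fst))) ?_
    exact (s1_U hU.1.1).comp (f := fun x : (List Bool × ℕ) × List Bool => (x.2, x.1.1))
      (Primrec.snd.pair (Primrec.fst.comp Primrec.fst))
  exact (S1.ex (p := fun (x : List Bool × ℕ) τ => τ.length ≤ x.2 ∧ x.1 ∈ U τ) h1).of_eq
    fun x => (KU_le_iff hU).symm

/-- stage approximation of the complexity -/
structure KApp (U : List Bool →. List Bool) (KD : ℕ → List Bool → ℕ → Bool) : Prop where
  prim : Primrec fun p : ℕ × List Bool × ℕ => KD p.1 p.2.1 p.2.2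
  sound : ∀ t y m, KD t y m = true → KU U y ≤ m
  compl : ∀ y m, KU U y ≤ m → ∃ t0, ∀ t ≥ t0, KD t y m = true
  mono : ∀ t t' y m m', t ≤ t' → m ≤ m' → KD t y m = true → KD t' y m' = true

theorem exists_KD {U : List Bool →. List Bool} (hU : IsUniversal U) : ∃ KD, KApp U KD := by
  classical
  obtain ⟨q, hq, hm, he⟩ := s1_KU hU
  have h1 : PrimrecPred fun p : ℕ × List Bool × ℕ => ∃ m' < p.2.2 + 1, q (p.2.1, m') p.1 := by
    refine PP.ex_lt (p := fun (p : ℕ × List Bool × ℕ) m' => q (p.2.1, m') p.1) ?_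
      (Primrec.succ.comp (Primrec.snd.comp Primrec.snd))
    exact hq.comp ((Primrec.fst.comp (Primrec.snd.comp Primrec.fst)).pair Primrec.snd)
      (Primrec.fst.comp Primrec.fst)
  refine ⟨fun t y m => decide (∃ m' < m + 1, q (y, m') t), h1.decide, ?_, ?_, ?_⟩
  · intro t y m h
    rw [decide_eq_true_eq] at h
    obtain ⟨m', h2, h3⟩ := h
    have h4 : KU U y ≤ m' := (he (y, m')).2 ⟨t, h3⟩
    omega
  · intro y m h
    obtain ⟨n, hn⟩ := (he (y, m)).1 h
    refine ⟨n, fun t ht => ?_⟩
    rw [decide_eq_true_eq]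
    exact ⟨m, by omega, hm _ _ _ ht hn⟩
  · intro t t' y m m' h2 h3 h
    rw [decide_eq_true_eq] at h ⊢
    obtain ⟨m1, h4, h5⟩ := h
    exact ⟨m1, by omega, hm _ _ _ h2 h5⟩

theorem kraft_prog {U : List Bool →. List Bool} (hU : IsMachine U) (F : Finset (List Bool))
    (hF : ∀ τ ∈ F, (U τ).Dom) : ∑ τ ∈ F, hp τ.length ≤ 1 := by
  have := Pool.Agent.H561R3.Om.kraft F fun p hp' q hq h => hU.2 p q (hF p hp') (hF q hq) h
  exact this

theorem kraft_KU {U : List Bool →. List Bool} (hU : IsUniversal U) (F : Finset (List Bool)) :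
    ∑ c ∈ F, hp (KU U c) ≤ 1 := by
  choose p hp1 hp2 using fun y => hU.exists_min y
  have hinj : ∀ a b, p a = p b → a = b := by
    intro a b h
    have h1 := hp2 a
    rw [h] at h1
    exact Part.mem_unique h1 (hp2 b)
  have h1 : ∑ c ∈ F, hp (KU U c) = ∑ τ ∈ F.image p, hp τ.length := by
    rw [Finset.sum_image fun a _ b _ h => hinj a b h]
    exact Finset.sum_congr rfl fun c _ => by rw [hp1]
  rw [h1]
  refine kraft_prog hU.1 _ fun τ hτ => ?_
  obtain ⟨c, -, rfl⟩ := Finset.mem_image.1 hτ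
  exact Part.dom_iff_mem.2 ⟨_, hp2 c⟩

/-- The Kraft-Chaitin theorem for c.e. sets of requests -/
theorem kc_s1 {U : List Bool →. List Bool} (hU : IsUniversal U) {R : ℕ × List Bool → Prop}
    (hR : S1 R) (hsum : ∀ F : Finset (ℕ × List Bool), (∀ p ∈ F, R p) → ∑ p ∈ F, hp p.1 ≤ 1) :
    ∃ c, ∀ p, R p → KU U p.2 ≤ p.1 + c := by
  classical
  obtain ⟨q, hq, hm, he⟩ := hR
  let ok : ℕ → (ℕ × List Bool) × ℕ → Prop := fun n a =>
    encode a = n ∧ q a.1 a.2 ∧ ∀ s < a.2, ¬ q a.1 s
  have hok : PrimrecPred fun x : ℕ × ((ℕ × List Bool) × ℕ) => ok x.1 x.2 := by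
    refine PrimrecPred.and ?_ (PrimrecPred.and ?_ ?_)
    · exact Primrec.eq.comp (Primrec.encode.comp Primrec.snd) Primrec.fst
    · exact hq.comp (Primrec.fst.comp Primrec.snd) (Primrec.snd.comp Primrec.snd)
    · refine PP.all_lt (p := fun (x : ℕ × ((ℕ × List Bool) × ℕ)) s => ¬ q x.2.1 s) ?_
        (Primrec.snd.comp Primrec.snd)
      exact (hq.comp (Primrec.fst.comp (Primrec.snd.comp Primrec.fst)) Primrec.snd).not
  let req : ℕ → Option (ℕ × List Bool) := fun n =>
    (decode (α := (ℕ × List Bool) × ℕ) n).bind fun a => if ok n a then some a.1 else none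
  have hreq : Primrec req := by
    refine Primrec.option_bind Primrec.decode ?_
    exact (Primrec.ite hok (Primrec.option_some.comp (Primrec.fst.comp Primrec.snd))
      (Primrec.const none)).to₂
  have hspec : ∀ n p, req n = some p → ∃ s, encode (p, s) = n ∧ q p s ∧ ∀ s' < s, ¬ q p s' := by
    intro n p h
    simp only [req, Option.bind_eq_some_iff] at h
    obtain ⟨a, h1, h2⟩ := h
    split_ifs at h2 with h3
    · simp only [Option.some.injEq] at h2
      subst h2
      exact ⟨a.2, h3.1, h3.2.1, h3.2.2⟩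
  have hex : ∀ p, R p → ∃ n, req n = some p := by
    intro p hp'
    have h1 := (he p).1 hp'
    have h2 := Nat.find_spec h1
    refine ⟨encode (p, Nat.find h1), ?_⟩
    simp only [req, encodek, Option.bind_some]
    rw [if_pos ⟨rfl, h2, fun s hs => Nat.find_min h1 hs⟩]
  have hinj : ∀ n n' p, req n = some p → req n' = some p → n = n' := by
    intro n n' p h h'
    obtain ⟨s, h1, h2, h3⟩ := hspec n p h
    obtain ⟨s', h1', h2', h3'⟩ := hspec n' p h'
    have : s = s' := by
      rcases lt_trichotomy s s' with h4 | h4 | h4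
      · exact absurd h2 (h3' s h4)
      · exact h4
      · exact absurd h2' (h3 s' h4)
    rw [← h1, ← h1', this]
  obtain ⟨M, hM1, hM2, hM3⟩ := Pool.Agent.Helper227.KC.kraft_chaitin hreq (by
    intro N
    have h1 : ∑ i ∈ Finset.range N, Pool.Agent.Helper227.KC.wr req i =
        ∑ i ∈ (Finset.range N).filter (fun n => (req n).isSome),
          hp ((req i).getD default).1 := by
      rw [Finset.sum_filter]
      refine Finset.sum_congr rfl fun i _ => ?_
      unfold Pool.Agent.Helper227.KC.wr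
      cases req i with
      | none => simp
      | some p => simp [hp]
    rw [h1, ← Finset.sum_image (f := fun p : ℕ × List Bool => hp p.1)
      (g := fun i => (req i).getD default)]
    · refine hsum _ fun p hp' => ?_
      obtain ⟨i, hi, rfl⟩ := Finset.mem_image.1 hp'
      rw [Finset.mem_filter] at hi
      obtain ⟨p, hp2⟩ := Option.isSome_iff_exists.1 hi.2
      rw [hp2]
      obtain ⟨s, -, h3, -⟩ := hspec i p hp2
      exact (he p).2 ⟨s, h3⟩
    · intro i hi j hj hij
      simp only [Finset.coe_filter, Finset.mem_range, Set.mem_ofPred_eq] at hi hj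
      obtain ⟨p, hp2⟩ := Option.isSome_iff_exists.1 hi.2
      obtain ⟨p', hp2'⟩ := Option.isSome_iff_exists.1 hj.2
      simp only [hp2, hp2', Option.getD_some] at hij
      subst hij
      exact hinj i j p hp2 hp2')
  obtain ⟨c, hc⟩ := hU.2 M ⟨hM1, hM2⟩
  refine ⟨c, fun p hp' => ?_⟩
  obtain ⟨n, hn⟩ := hex p hp'
  obtain ⟨τ, h1, h2⟩ := hM3 n p.1 p.2 hn
  obtain ⟨τ', h3, h4⟩ := hc τ p.2 h2
  have := KU_le h4
  omega

/-- the Kraft-Chaitin theorem with a larger bound -/
theorem kc_s1' {U : List Bool →. List Bool} (hU : IsUniversal U) {R : ℕ × List Bool → Prop}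
    (hR : S1 R) (W : ℝ) (hsum : ∀ F : Finset (ℕ × List Bool), (∀ p ∈ F, R p) → ∑ p ∈ F, hp p.1 ≤ W) :
    ∃ c, ∀ p, R p → KU U p.2 ≤ p.1 + c := by
  obtain ⟨d, hd⟩ := pow_unbounded_of_one_lt W (one_lt_two (α := ℝ))
  have h1 : S1 fun p : ℕ × List Bool => d ≤ p.1 ∧ R (p.1 - d, p.2) := by
    refine S1.and (S1.of_prim (Primrec.nat_le.comp (Primrec.const d) Primrec.fst)) ?_
    exact hR.comp ((Primrec.nat_sub.comp Primrec.fst (Primrec.const d)).pair Primrec.snd)
  obtain ⟨c, hc⟩ := kc_s1 hU h1 (by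
    intro F hF
    have h2 : ∑ p ∈ F, hp p.1 = hp d * ∑ p ∈ F.image (fun p => (p.1 - d, p.2)), hp p.1 := by
      rw [Finset.sum_image, Finset.mul_sum]
      · refine Finset.sum_congr rfl fun p hp' => ?_
        rw [← hp_add]
        congr 1
        have := (hF p hp').1
        simp only
        omega
      · intro a ha b hb hab
        have h3 := (hF a ha).1
        have h4 := (hF b hb).1
        simp only [Prod.mk.injEq] at hab
        exact Prod.ext (by omega) hab.2
    rw [h2]
    have h3 := hsum (F.image (fun p => (p.1 - d, p.2))) (by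
      intro p hp'
      obtain ⟨a, ha, rfl⟩ := Finset.mem_image.1 hp'
      exact (hF a ha).2)
    have h4 := hp_mul_two_pow d
    have h5 := hp_pos d
    nlinarith)
  refine ⟨d + c, fun p hp' => ?_⟩
  have := hc (p.1 + d, p.2) ⟨by simp, by simpa using hp'⟩
  simp only at this
  omega

/-- sum of a geometric series over a finite set of exponents -/
theorem sum_hp_le {F : Finset ℕ} {r : ℕ} (h : ∀ n ∈ F, r ≤ n) : ∑ n ∈ F, hp n ≤ 2 * hp r := by
  have h1 : ∀ N, ∑ n ∈ Finset.Ico r N, hp n ≤ 2 * hp r - 2 * hp (max r N) := by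
    intro N
    induction N with
    | zero => simp
    | succ N ih =>
      rcases Nat.lt_or_ge N r with h2 | h2
      · rw [Finset.Ico_eq_empty (by omega), max_eq_left (by omega)]
        simp
      · rw [Finset.sum_Ico_succ_top h2]
        rw [max_eq_right h2] at ih
        rw [max_eq_right (by omega)]
        have := hp_succ N
        linarith
  have h2 : F ⊆ Finset.Ico r (F.sup id + 1) := by
    intro n hn
    rw [Finset.mem_Ico]
    exact ⟨h n hn, Nat.lt_succ_of_le (Finset.le_sup (f := id) hn)⟩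
  have h3 := Finset.sum_le_sum_of_subset_of_nonneg h2 fun n _ _ => hp_nonneg n
  have h4 := h1 (F.sup id + 1)
  have h5 := hp_pos (max r (F.sup id + 1))
  linarith

/-- sum over pairs of a string and a bound for its complexity -/
theorem sum_pairs {U : List Bool →. List Bool} (hU : IsUniversal U)
    (F : Finset (List Bool × ℕ)) (hF : ∀ p ∈ F, KU U p.1 ≤ p.2) : ∑ p ∈ F, hp p.2 ≤ 2 := by
  classical
  have h1 : ∑ p ∈ F, hp p.2 = ∑ y ∈ F.image Prod.fst, ∑ p ∈ F with p.1 = y, hp p.2 := by
    rw [Finset.sum_fiberwise_of_maps_to]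
    intro p hp'
    exact Finset.mem_image_of_mem _ hp'
  rw [h1]
  have h2 : ∀ y ∈ F.image Prod.fst, ∑ p ∈ F with p.1 = y, hp p.2 ≤ 2 * hp (KU U y) := by
    intro y _
    have h3 : ∑ p ∈ F with p.1 = y, hp p.2 =
        ∑ n ∈ (F.filter fun p => p.1 = y).image Prod.snd, hp n := by
      rw [Finset.sum_image]
      intro a ha b hb hab
      simp only [Finset.coe_filter, Set.mem_ofPred_eq] at ha hb
      exact Prod.ext (ha.2.trans hb.2.symm) hab
    rw [h3]
    refine sum_hp_le fun n hn => ?_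
    obtain ⟨p, hp', rfl⟩ := Finset.mem_image.1 hn
    rw [Finset.mem_filter] at hp'
    rw [← hp'.2]
    exact hF p hp'.1
  refine (Finset.sum_le_sum h2).trans ?_
  rw [← Finset.mul_sum]
  have := kraft_KU hU (F.image Prod.fst)
  linarith

end Pool.Agent.U35.OW
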