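import Pool.Agent.U35.OW.Gold2
import Pool.Agent.U35.OW.Delta

set_option autoImplicit false

/-! The main lemma on K-trivial sets. -/

open Encodable
open Pool.Agent.Helper227 (S1 IsUniversal IsMachine KU KU_le KTrivial pre take_pre length_pre
  PP.ex_lt PP.all_lt PP.ex_mem PP.all_mem)

namespace Pool.Agent.U35.OW

section
variable {U : List Bool →. List Bool} {KD : ℕ → List Bool → ℕ → Bool} {v : List Bool → ℕ}
  {F : ℕ → List Bool}

theorem cnd_valid (hK : KApp U KD) {e t : ℕ} {s : St} {b : List Bool}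
    (h : cnd KD e t s b = true) : Valid (KU U) (2 * e) s b := by
  unfold cnd at h
  rw [Bool.and_eq_true, decide_eq_true_eq, List.all_eq_true] at h
  exact ⟨h.1, fun p hp' => hK.sound _ _ _ (h.2 p hp')⟩

theorem nxt_act {e t : ℕ} {s : St} {b : List Bool} (h : cnd KD e t s b = true) :
    nxt KD v e t s b = stp (kk e) v s b := by
  unfold nxt
  rw [if_pos h]

theorem nxt_not {e t : ℕ} {s : St} {b : List Bool} (h : ¬ cnd KD e t s b = true) :
    nxt KD v e t s b = s := by
  unfold nxt
  rw [if_neg h]

theorem stg_inv (hU : IsUniversal U) (hK : KApp U KD) (hv : SumV v) (e t : ℕ) :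
    Inv (kk e) v (KU U) (2 * e) (stg KD v F e t) := by
  induction t with
  | zero =>
    rw [stg_zero]
    refine inv_init ?_
    have : 0 < 2 ^ (2 * e + 1) := by positivity
    unfold kk
    omega
  | succ t ih =>
    rw [stg_succ]
    by_cases h : cnd KD e t (stg KD v F e t) (F (t + 1)) = true
    · rw [nxt_act h]
      exact inv_stp hv (kraft_KU hU) rfl ih (cnd_valid hK h)
    · rw [nxt_not h]
      exact ih

theorem issue_sub (k T : ℕ) (S : List Frame) (I : List Elt) : ∀ p ∈ I, p ∈ issue k T S I := by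
  intro p hp'
  unfold issue
  split_ifs
  · exact List.mem_cons_of_mem _ hp'
  · exact hp'

theorem stg_iss_mono {e t t' : ℕ} (h : t ≤ t') :
    ∀ p ∈ (stg KD v F e t).2.2, p ∈ (stg KD v F e t').2.2 := by
  induction t', h using Nat.le_induction with
  | base => exact fun p hp' => hp'
  | succ t' h ih =>
    intro p hp'
    rw [stg_succ]
    by_cases hc : cnd KD e t' (stg KD v F e t') (F (t' + 1)) = true
    · rw [nxt_act hc]
      exact issue_sub _ _ _ _ p (ih p hp')
    · rw [nxt_not hc]
      exact ih p hp'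

/-- weight of a set of elements contained in a list -/
theorem sum_le_w {L : List Elt} {G : Finset Elt} (h : ∀ p ∈ G, p ∈ L) :
    ∑ p ∈ G, hp p.2 ≤ w L := by
  induction L generalizing G with
  | nil =>
    have : G = ∅ := Finset.eq_empty_of_forall_notMem fun p hp' => by simpa using h p hp'
    rw [this]; simp
  | cons a L ih =>
    rw [w_cons]
    by_cases ha : a ∈ G
    · rw [← Finset.add_sum_erase G _ ha]
      have := ih (G := G.erase a) fun p hp' => by
        rw [Finset.mem_erase] at hp'
        rcases List.mem_cons.1 (h p hp'.2) with h1 | h1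
        · exact absurd h1 hp'.1
        · exact h1
      linarith
    · have := ih (G := G) fun p hp' => by
        rcases List.mem_cons.1 (h p hp') with h1 | h1
        · exact absurd (h1 ▸ hp') ha
        · exact h1
      have h2 := hp_nonneg a.2
      linarith

theorem sum_hp_range (E : ℕ) : ∑ e ∈ Finset.range E, hp (e + 1) ≤ 1 := by
  have h : ∑ e ∈ Finset.range E, hp (e + 1) = 1 - hp E := by
    induction E with
    | zero => simp [hp_zero]
    | succ E ih =>
      rw [Finset.sum_range_succ, ih, hp_succ]; ring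
  have := hp_pos E
  linarith

theorem req_bound (hU : IsUniversal U) (hK : KApp U KD) (hv : Primrec v) (hs : SumV v)
    (hF : Primrec F) : ∃ c, ∀ e t, ∀ p ∈ (stg KD v F e t).2.2,
      KU U (zs p.1) ≤ p.2 + e + 1 + c := by
  classical
  let Q : ℕ × List Bool → (ℕ × ℕ) × Elt → Prop := fun p a =>
    p = (a.2.2 + a.1.1 + 1, zs a.2.1) ∧ ∃ q ∈ (stg KD v F a.1.1 a.1.2).2.2, q = a.2
  have hQ : S1 fun x : (ℕ × List Bool) × ((ℕ × ℕ) × Elt) => Q x.1 x.2 := by
    refine S1.of_prim (PrimrecPred.and ?_ ?_)
    · refine pr_dec_eq Primrec.fst (Primrec.pair ?_ (pr_zs ?_))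
      · exact pr_add (pr_add (Primrec.snd.comp (Primrec.snd.comp Primrec.snd))
          (Primrec.fst.comp (Primrec.fst.comp Primrec.snd))) (Primrec.const 1)
      · exact Primrec.fst.comp (Primrec.snd.comp Primrec.snd)
    · refine PP.ex_mem (α := (ℕ × List Bool) × ((ℕ × ℕ) × Elt))
        (f := fun x => (stg KD v F x.2.1.1 x.2.1.2).2.2) (p := fun x q => q = x.2.2) ?_ ?_
      · exact pr_dec_eq Primrec.snd (Primrec.snd.comp (Primrec.snd.comp Primrec.fst))
      · exact Primrec.snd.comp (Primrec.snd.comp ((pr_stg hK.prim hv hF).comp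
          (Primrec.fst.comp (Primrec.fst.comp Primrec.snd))
          (Primrec.snd.comp (Primrec.fst.comp Primrec.snd))))
  obtain ⟨c, hc⟩ := kc_s1 hU (S1.ex hQ) (by
    intro G hG
    choose! g hg1 hg2 using hG
    have hg2' : ∀ p ∈ G, (g p).2 ∈ (stg KD v F (g p).1.1 (g p).1.2).2.2 := by
      intro p hp'
      obtain ⟨q, h1, h2⟩ := hg2 p hp'
      exact h2 ▸ h1
    set T := ∑ p ∈ G, (g p).1.2 with hT
    set E := ∑ p ∈ G, ((g p).1.1 + 1) with hE
    have hTle : ∀ p ∈ G, (g p).1.2 ≤ T := fun p hp' =>
      Finset.single_le_sum (f := fun p => (g p).1.2) (fun _ _ => Nat.zero_le _) hp'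
    have hEle : ∀ p ∈ G, (g p).1.1 < E := fun p hp' => by
      have : (g p).1.1 + 1 ≤ E :=
        Finset.single_le_sum (f := fun p => (g p).1.1 + 1) (fun _ _ => Nat.zero_le _) hp'
      omega
    have hinj : ∀ p ∈ G, ∀ p' ∈ G, ((g p).1.1, (g p).2) = ((g p').1.1, (g p').2) → p = p' := by
      intro p hp' q hq h
      simp only [Prod.mk.injEq] at h
      rw [hg1 p hp', hg1 q hq, h.1, h.2]
    have h1 : ∑ p ∈ G, hp p.1 =
        ∑ a ∈ G.image (fun p => ((g p).1.1, (g p).2)), hp (a.2.2 + a.1 + 1) := by
      rw [Finset.sum_image fun p hp' q hq h => hinj p hp' q hq h]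
      refine Finset.sum_congr rfl fun p hp' => ?_
      have := congrArg Prod.fst (hg1 p hp')
      simp only at this
      rw [← this]
    rw [h1]
    have h2 : ∑ a ∈ G.image (fun p => ((g p).1.1, (g p).2)), hp (a.2.2 + a.1 + 1) =
        ∑ e ∈ Finset.range E, ∑ a ∈ G.image (fun p => ((g p).1.1, (g p).2)) with a.1 = e,
          hp (a.2.2 + a.1 + 1) := by
      rw [Finset.sum_fiberwise_of_maps_to]
      intro a ha
      obtain ⟨p, hp', rfl⟩ := Finset.mem_image.1 ha
      exact Finset.mem_range.2 (hEle p hp')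
    rw [h2]
    refine le_trans (Finset.sum_le_sum fun e _ => ?_) (sum_hp_range E)
    have h3 : ∑ a ∈ G.image (fun p => ((g p).1.1, (g p).2)) with a.1 = e,
          hp (a.2.2 + a.1 + 1) = hp (e + 1) *
        ∑ q ∈ ((G.image (fun p => ((g p).1.1, (g p).2))).filter fun a => a.1 = e).image Prod.snd,
          hp q.2 := by
      rw [Finset.sum_image, Finset.mul_sum]
      · refine Finset.sum_congr rfl fun a ha => ?_
        rw [Finset.mem_filter] at ha
        rw [← hp_add, ha.2]
        congr 1; omega
      · intro a ha b hb hab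
        simp only [Finset.coe_filter, Set.mem_ofPred_eq] at ha hb
        exact Prod.ext (ha.2.trans hb.2.symm) hab
    rw [h3]
    have h4 : ∑ q ∈ ((G.image (fun p => ((g p).1.1, (g p).2))).filter
        fun a => a.1 = e).image Prod.snd, hp q.2 ≤ w (stg KD v F e T).2.2 := by
      refine sum_le_w fun q hq => ?_
      obtain ⟨a, ha, rfl⟩ := Finset.mem_image.1 hq
      rw [Finset.mem_filter] at ha
      obtain ⟨ha, rfl⟩ := ha
      obtain ⟨p, hp', rfl⟩ := Finset.mem_image.1 ha
      exact stg_iss_mono (hTle p hp') _ (hg2' p hp')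
    have h5 := total hs (stg_inv (F := F) hU hK hs e T)
    have h6 := hp_pos (e + 1)
    nlinarith)
  refine ⟨c, fun e t p hp' => ?_⟩
  exact hc (p.2 + e + 1, zs p.1) ⟨((e, t), p), rfl, p, hp', rfl⟩

/-- The main lemma. -/
theorem KL (hU : IsUniversal U) {A : ℕ → Bool} (hA : KTrivial U A) (hv : Primrec v)
    (hs : SumV v) : ∃ α : ℕ → List Bool, Primrec α ∧
      (∀ t, α (t + 1) <+: α t ∨ α t <+: α (t + 1)) ∧
      (∀ n, ∃ N, ∀ t ≥ N, (α t).take n = pre A n) ∧
      ∃ W : ℝ, ∀ n, ∑ t ∈ Finset.range n, max 0 (Vv v (α t) - Vv v (α (t + 1))) ≤ W := by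
  classical
  obtain ⟨F, hF, hFA⟩ := exists_approx hU hA
  obtain ⟨KD, hK⟩ := exists_KD hU
  obtain ⟨b, hb⟩ := hA
  obtain ⟨c, hc⟩ := req_bound hU hK hv hs hF
  set e := 1 + b + c with he
  set S : ℕ → St := fun t => stg KD v F e t with hS
  have hinv : ∀ t, Inv (kk e) v (KU U) (2 * e) (S t) := fun t => stg_inv hU hK hs e t
  have hinf : ∀ N, ∃ t ≥ N, cnd KD e t (S t) (F (t + 1)) = true := by
    intro N
    by_contra hcon
    push Not at hcon
    have hconst : ∀ t ≥ N, S t = S N := by
      intro t ht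
      induction t, ht using Nat.le_induction with
      | base => rfl
      | succ t ht ih =>
        rw [← ih]
        change stg KD v F e (t + 1) = stg KD v F e t
        rw [stg_succ, nxt_not (hcon t ht)]
    have hKA : ∀ p ∈ (S N).2.2, KU U (pre A p.1) ≤ p.2 + 2 * e := by
      intro p hp'
      have h1 := hc e N p hp'
      have h2 := hb p.1
      change KU U (pre A p.1) ≤ KU U (zs p.1) + b at h2
      omega
    choose! t1 ht1 using fun p hp' => hK.compl _ _ (hKA p hp')
    choose N1 hN1 using hFA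
    set M := (S N).1.length with hM
    set t := N + N1 M + ∑ p ∈ (S N).2.2.toFinset, t1 p with htdef
    have htN : N ≤ t := by omega
    have hSt : S t = S N := hconst t htN
    have h1 : (F (t + 1)).take M = pre A M := hN1 M (t + 1) (by omega)
    have h2 : M ≤ (F (t + 1)).length := by
      have := congrArg List.length h1
      rw [List.length_take, length_pre] at this
      omega
    refine hcon t htN ?_
    rw [hSt]
    unfold cnd
    rw [Bool.and_eq_true, decide_eq_true_eq, List.all_eq_true]
    refine ⟨h2, fun p hp' => ?_⟩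
    have h3 := (hinv N).lt p hp'
    have h4 : (F (t + 1)).take p.1 = pre A p.1 := by
      have := congrArg (List.take p.1) h1
      rwa [List.take_take, min_eq_left (by omega), take_pre A M p.1 (by omega)] at this
    rw [h4]
    have h5 : t1 p ≤ ∑ p ∈ (S N).2.2.toFinset, t1 p :=
      Finset.single_le_sum (f := t1) (fun _ _ => Nat.zero_le _) (List.mem_toFinset.2 hp')
    exact ht1 p hp' t (by omega)
  have hR : Run (kk e) v (KU U) (2 * e) A S F
      (fun t => cnd KD e t (S t) (F (t + 1)) = true) := by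
    refine ⟨stg_zero _ _ _ _, ?_, ?_, hinf, hFA⟩
    · intro t h
      refine ⟨cnd_valid hK h, ?_⟩
      change stg KD v F e (t + 1) = _
      rw [stg_succ, nxt_act h]
    · intro t h
      change stg KD v F e (t + 1) = stg KD v F e t
      rw [stg_succ, nxt_not h]
  obtain ⟨H, J, W, h1, h2, h3⟩ := golden hs (kraft_KU hU) rfl hR
  refine ⟨fun t => alp H (S (J + t)), ?_, fun t => h1 (J + t) (by omega), ?_, W, h3⟩
  · unfold alp atH
    have hSp : Primrec fun t => S (J + t) :=
      (pr_stg hK.prim hv hF).comp (Primrec.const e) (pr_add (Primrec.const J) Primrec.id)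
    have hfr : Primrec fun t => (S (J + t)).2.1.reverse.getD H default :=
      pr_getD default (Primrec.list_reverse.comp (Primrec.fst.comp (Primrec.snd.comp hSp)))
        (Primrec.const H)
    exact pr_take (pr_add (pr_fx hfr) (pr_len (pr_fD hfr))) (pr_headD [] (Primrec.fst.comp hSp))
  · intro n
    obtain ⟨N, hN⟩ := h2 n
    exact ⟨N, fun t ht => hN (J + t) (by omega)⟩

end

end Pool.Agent.U35.OW
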