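import Pool.Agent.U35.OW.Gamma

set_option autoImplicit false

/-! Guesses for the complexity of the pairs. -/

open Encodable
open Pool.Agent.Helper227 (S1 IsUniversal IsMachine KU KU_le KTrivial pre take_pre length_pre
  pre_prefix PP.ex_lt PP.all_lt PP.ex_mem PP.all_mem)

namespace Pool.Agent.U35.OW

section
variable (KD : ℕ → List Bool → ℕ → Bool)

def kle (t l q v : ℕ) : Prop :=
  2 * l ≤ v ∨ ∃ q' < q + 1, ∃ r < v + 1, Wt KD t (Nat.pair l q') r = true ∧ r + (q - q') ≤ v

instance (t l q v : ℕ) : Decidable (kle KD t l q v) := by unfold kle; infer_instance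

/-- the guess at stage `t` -/
def kap (t l q : ℕ) : ℕ := ((List.range (2 * l)).filter fun v => !decide (kle KD t l q v)).length

end

section
variable {KD : ℕ → List Bool → ℕ → Bool} {v : List Bool → ℕ} {α : ℕ → List Bool}
  {U : List Bool →. List Bool}

theorem pr_kle (hKD : Primrec fun p : ℕ × List Bool × ℕ => KD p.1 p.2.1 p.2.2) {β : Type*}
    [Primcodable β] {t l q v : β → ℕ} (ht : Primrec t) (hl : Primrec l) (hq : Primrec q)
    (hv : Primrec v) : PrimrecPred fun a => kle KD (t a) (l a) (q a) (v a) := by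
  unfold kle
  refine PrimrecPred.or (Primrec.nat_le.comp (pr_mul (Primrec.const 2) hl) hv) ?_
  refine PP.ex_lt (p := fun a q' => ∃ r < v a + 1,
    Wt KD (t a) (Nat.pair (l a) q') r = true ∧ r + (q a - q') ≤ v a) ?_ (Primrec.succ.comp hq)
  refine PP.ex_lt (α := β × ℕ) (p := fun x r => Wt KD (t x.1) (Nat.pair (l x.1) x.2) r = true ∧
    r + (q x.1 - x.2) ≤ v x.1) ?_ (Primrec.succ.comp (hv.comp Primrec.fst))
  have hb : Primrec fun x : (β × ℕ) × ℕ => x.1.1 := Primrec.fst.comp Primrec.fst
  refine PrimrecPred.and (pr_bool (pr_Wt hKD (ht.comp hb) (Primrec₂.natPair.comp (hl.comp hb)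
    (Primrec.snd.comp Primrec.fst)) Primrec.snd)) ?_
  exact Primrec.nat_le.comp (pr_add Primrec.snd (pr_sub (hq.comp hb)
    (Primrec.snd.comp Primrec.fst))) (hv.comp hb)

theorem pr_kap (hKD : Primrec fun p : ℕ × List Bool × ℕ => KD p.1 p.2.1 p.2.2) {β : Type*}
    [Primcodable β] {t l q : β → ℕ} (ht : Primrec t) (hl : Primrec l) (hq : Primrec q) :
    Primrec fun a => kap KD (t a) (l a) (q a) := by
  unfold kap
  refine pr_filter_len (f := fun a => List.range (2 * l a))
    (p := fun a v => !decide (kle KD (t a) (l a) (q a) v))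
    (Primrec.list_range.comp (pr_mul (Primrec.const 2) hl)) ?_
  exact (Primrec.not.comp (pr_kle hKD (ht.comp Primrec.fst) (hl.comp Primrec.fst)
    (hq.comp Primrec.fst) Primrec.snd).decide).to₂

theorem kle_mono {t l q v v' : ℕ} (h : v ≤ v') (hk : kle KD t l q v) : kle KD t l q v' := by
  rcases hk with hk | ⟨q', h1, r, h2, h3, h4⟩
  · exact Or.inl (hk.trans h)
  · exact Or.inr ⟨q', h1, r, by omega, h3, by omega⟩

theorem kap_le_iff {t l q v : ℕ} : kap KD t l q ≤ v ↔ kle KD t l q v := by
  have h1 := filter_range_iff (P := fun v => !decide (kle KD t l q v)) (by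
    intro y y' hy h
    simp only [Bool.not_eq_true', decide_eq_false_iff_not] at h ⊢
    exact fun h2 => h (kle_mono hy h2)) (2 * l)
  have h2 : kap KD t l q ≤ 2 * l := by
    unfold kap
    have := List.length_filter_le (fun v => !decide (kle KD t l q v)) (List.range (2 * l))
    rwa [List.length_range] at this
  rcases Nat.lt_or_ge v (2 * l) with h | h
  · have h3 := h1 v h
    simp only [Bool.not_eq_true', decide_eq_false_iff_not] at h3
    change ¬ kle KD t l q v ↔ v < kap KD t l q at h3
    constructor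
    · intro h4
      by_contra h5
      exact absurd (h3.1 h5) (by omega)
    · intro h4
      by_contra h5
      exact (h3.2 (by omega)) h4
  · exact ⟨fun _ => Or.inl h, fun _ => h2.trans h⟩

theorem kap_le_two (t l q : ℕ) : kap KD t l q ≤ 2 * l := kap_le_iff.2 (Or.inl le_rfl)

theorem kap_anti (hK : KApp U KD) {t t' l q : ℕ} (h : t ≤ t') :
    kap KD t' l q ≤ kap KD t l q := by
  rw [kap_le_iff]
  rcases kap_le_iff.1 (le_refl (kap KD t l q)) with h1 | ⟨q', h1, r, h2, h3, h4⟩
  · exact Or.inl h1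
  · exact Or.inr ⟨q', h1, r, h2, Wt_mono hK h h3, h4⟩

theorem kap_add (t l q d : ℕ) : kap KD t l (q + d) ≤ kap KD t l q + d := by
  rw [kap_le_iff]
  rcases kap_le_iff.1 (le_refl (kap KD t l q)) with h1 | ⟨q', h1, r, h2, h3, h4⟩
  · exact Or.inl (by omega)
  · exact Or.inr ⟨q', by omega, r, by omega, h3, by omega⟩

theorem kap_new {t l q : ℕ} (h : kap KD (t + 1) l q < kap KD t l q) :
    ∃ n r, Wt KD (t + 1) n r = true ∧ ¬ Wt KD t n r = true ∧ r ≤ kap KD (t + 1) l q := by
  have h0 := kap_le_two (KD := KD) t l q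
  rcases kap_le_iff.1 (le_refl (kap KD (t + 1) l q)) with h1 | ⟨q', h1, r, h2, h3, h4⟩
  · omega
  · refine ⟨_, r, h3, fun h5 => ?_, by omega⟩
    have h6 : kap KD t l q ≤ kap KD (t + 1) l q := kap_le_iff.2 (Or.inr ⟨q', h1, r, h2, h5, h4⟩)
    omega

/-- the number of pairs which are visited -/
theorem count (hK : KApp U KD) (cmp : ∀ t, α (t + 1) <+: α t ∨ α t <+: α (t + 1)) (l m s : ℕ)
    (h : m ≤ s) :
    ((Finset.Icc m s).image fun u => (Qf KD v α u l, kap KD u l (Qf KD v α u l))).card +
      (kap KD s l (Qf KD v α s l) - l) ≤ l + 1 + 2 * (Qf KD v α s l - Qf KD v α m l) := by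
  classical
  induction s, h using Nat.le_induction with
  | base =>
    rw [Finset.Icc_self, Finset.image_singleton, Finset.card_singleton]
    have := kap_le_two (KD := KD) m l (Qf KD v α m l)
    omega
  | succ s h ih =>
    have hI : Finset.Icc m (s + 1) = insert (s + 1) (Finset.Icc m s) := by
      ext x; simp only [Finset.mem_Icc, Finset.mem_insert]; omega
    rw [hI, Finset.image_insert]
    have hm := Qf_mono (KD := KD) (v := v) cmp l h
    have hs := Qf_mono (KD := KD) (v := v) cmp l (Nat.le_succ s)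
    rcases lt_or_eq_of_le hs with h1 | h1
    · obtain ⟨d, hd⟩ := Nat.exists_eq_add_of_le hs
      have h2 : kap KD (s + 1) l (Qf KD v α (s + 1) l) ≤ kap KD s l (Qf KD v α s l) + d := by
        rw [Nat.succ_eq_add_one] at hd
        rw [hd]
        exact (kap_anti hK (Nat.le_succ s)).trans (kap_add _ _ _ _)
      have h3 := Finset.card_insert_le (Qf KD v α (s + 1) l, kap KD (s + 1) l (Qf KD v α (s + 1) l))
        ((Finset.Icc m s).image fun u => (Qf KD v α u l, kap KD u l (Qf KD v α u l)))
      simp only [Nat.succ_eq_add_one] at hd h1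
      omega
    · simp only [Nat.succ_eq_add_one] at h1
      have h2 : kap KD (s + 1) l (Qf KD v α (s + 1) l) ≤ kap KD s l (Qf KD v α s l) := by
        rw [← h1]
        exact kap_anti hK (Nat.le_succ s)
      rcases lt_or_eq_of_le h2 with h3 | h3
      · rw [← h1] at h3 ⊢
        obtain ⟨n, r, h4, h5, h6⟩ := kap_new h3
        have h7 := gam_new (v := v) (α := α) hK cmp h4 h5
        have h8 : l < r := by
          by_contra hc
          have h9 : hp l ≤ hp r := hp_le (by omega)
          have h10 := (Qf_spec (KD := KD) (v := v) (α := α) s l).1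
          have h11 := (Qf_spec (KD := KD) (v := v) (α := α) (s + 1) l).2
          have h12 := hp_mul_two_pow l
          have h13 : (0 : ℝ) < 2 ^ l := by positivity
          rw [← h1] at h11
          nlinarith
        have h9 := Finset.card_insert_le (Qf KD v α s l, kap KD (s + 1) l (Qf KD v α s l))
          ((Finset.Icc m s).image fun u => (Qf KD v α u l, kap KD u l (Qf KD v α u l)))
        omega
      · rw [h3, ← h1, Finset.insert_eq_of_mem]
        · exact ih
        · exact Finset.mem_image.2 ⟨s, Finset.mem_Icc.2 ⟨h, le_rfl⟩, rfl⟩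

/-- the complexity of a pair is at most the guess plus a constant: first part -/
theorem pair_two (hU : IsUniversal U) (g : ℕ) :
    ∃ c, ∀ l q, q < 2 ^ (l + g) → KU U (zs (Nat.pair l q)) ≤ 2 * l + c := by
  classical
  let R : ℕ × List Bool → Prop := fun p => p.2 = zs p.2.length ∧
    ((Nat.unpair p.2.length).2 < 2 ^ ((Nat.unpair p.2.length).1 + g) ∧
      p.1 = 2 * (Nat.unpair p.2.length).1)
  have hlen : Primrec fun p : ℕ × List Bool => p.2.length := pr_len Primrec.snd
  have hu : Primrec fun p : ℕ × List Bool => Nat.unpair p.2.length := Primrec.unpair.comp hlen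
  have hR : S1 R := by
    refine S1.of_prim (PrimrecPred.and (pr_dec_eq Primrec.snd (pr_zs hlen))
      (PrimrecPred.and ?_ ?_))
    · exact Primrec.nat_lt.comp (Primrec.snd.comp hu) (pr_pw (Primrec.const 2)
        (pr_add (Primrec.fst.comp hu) (Primrec.const g)))
    · exact pr_dec_eq Primrec.fst (pr_mul (Primrec.const 2) (Primrec.fst.comp hu))
  obtain ⟨c, hc⟩ := kc_s1' hU hR (2 ^ (g + 1)) (by
    intro F hF
    have h1 : ∑ p ∈ F, hp p.1 = ∑ l ∈ F.image (fun p => (Nat.unpair p.2.length).1),
        ∑ p ∈ F with (Nat.unpair p.2.length).1 = l, hp p.1 := by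
      rw [Finset.sum_fiberwise_of_maps_to]
      intro p hp'
      exact Finset.mem_image_of_mem (fun p : ℕ × List Bool => (Nat.unpair p.2.length).1) hp'
    rw [h1]
    have h2 : ∀ l ∈ F.image (fun p => (Nat.unpair p.2.length).1),
        ∑ p ∈ F with (Nat.unpair p.2.length).1 = l, hp p.1 ≤ 2 ^ g * hp l := by
      intro l _
      have h3 : ∀ p ∈ F.filter (fun p => (Nat.unpair p.2.length).1 = l), hp p.1 = hp (2 * l) := by
        intro p hp'
        rw [Finset.mem_filter] at hp'
        rw [(hF p hp'.1).2.2, hp'.2]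
      rw [Finset.sum_congr rfl h3, Finset.sum_const, nsmul_eq_mul]
      have h4 : (F.filter fun p => (Nat.unpair p.2.length).1 = l).card ≤ 2 ^ (l + g) := by
        have h5 : ((F.filter fun p => (Nat.unpair p.2.length).1 = l).image
            fun p => (Nat.unpair p.2.length).2).card =
            (F.filter fun p => (Nat.unpair p.2.length).1 = l).card := by
          refine Finset.card_image_of_injOn ?_
          intro a ha b hb hab
          simp only [Finset.coe_filter, Set.mem_ofPred_eq] at ha hb hab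
          have h6 : Nat.unpair a.2.length = Nat.unpair b.2.length :=
            Prod.ext (ha.2.trans hb.2.symm) hab
          have h7 : a.2.length = b.2.length := by
            rw [← Nat.pair_unpair a.2.length, h6, Nat.pair_unpair]
          refine Prod.ext ?_ ?_
          · rw [(hF a ha.1).2.2, (hF b hb.1).2.2, h7]
          · rw [(hF a ha.1).1, (hF b hb.1).1, h7]
        rw [← h5]
        refine (Finset.card_le_card (t := Finset.range (2 ^ (l + g))) ?_).trans
          (by rw [Finset.card_range])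
        intro x hx
        obtain ⟨p, hp', rfl⟩ := Finset.mem_image.1 hx
        rw [Finset.mem_filter] at hp'
        rw [Finset.mem_range, ← hp'.2]
        exact (hF p hp'.1).2.1
      have h5 : ((F.filter fun p => (Nat.unpair p.2.length).1 = l).card : ℝ) ≤ 2 ^ (l + g) := by
        exact_mod_cast h4
      have h6 : hp (2 * l) = hp l * hp l := by rw [← hp_add]; congr 1; omega
      have h7 := hp_mul_two_pow l
      have h8 := hp_pos l
      rw [h6]
      calc ((F.filter fun p => (Nat.unpair p.2.length).1 = l).card : ℝ) * (hp l * hp l) ≤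
          2 ^ (l + g) * (hp l * hp l) := mul_le_mul_of_nonneg_right h5 (by positivity)
        _ = 2 ^ g * hp l * (hp l * 2 ^ l) := by rw [pow_add]; ring
        _ = 2 ^ g * hp l := by rw [h7, mul_one]
    refine (Finset.sum_le_sum h2).trans ?_
    rw [← Finset.mul_sum]
    have h3 := sum_hp_le (F := F.image (fun p => (Nat.unpair p.2.length).1)) (r := 0)
      fun _ _ => Nat.zero_le _
    rw [hp_zero] at h3
    have h4 : (0 : ℝ) < 2 ^ g := by positivity
    rw [pow_succ]
    nlinarith)
  refine ⟨c, fun l q hq => ?_⟩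
  have := hc (2 * l, zs (Nat.pair l q)) ⟨by simp, by simpa using hq, by simp⟩
  simpa using this

/-- second part -/
theorem pair_step (hU : IsUniversal U) :
    ∃ c, ∀ l q' d ρ, KU U (zs (Nat.pair l q')) ≤ ρ →
      KU U (zs (Nat.pair l (q' + d))) ≤ ρ + d + c := by
  classical
  let Q : ℕ × List Bool → (ℕ × ℕ) × (ℕ × ℕ) → Prop := fun p a =>
    p = (a.2.2 + a.2.1, zs (Nat.pair a.1.1 (a.1.2 + a.2.1))) ∧
      KU U (zs (Nat.pair a.1.1 a.1.2)) ≤ a.2.2
  have h11 : Primrec fun x : (ℕ × List Bool) × ((ℕ × ℕ) × (ℕ × ℕ)) => x.2.1.1 :=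
    Primrec.fst.comp (Primrec.fst.comp Primrec.snd)
  have h12 : Primrec fun x : (ℕ × List Bool) × ((ℕ × ℕ) × (ℕ × ℕ)) => x.2.1.2 :=
    Primrec.snd.comp (Primrec.fst.comp Primrec.snd)
  have h21 : Primrec fun x : (ℕ × List Bool) × ((ℕ × ℕ) × (ℕ × ℕ)) => x.2.2.1 :=
    Primrec.fst.comp (Primrec.snd.comp Primrec.snd)
  have h22 : Primrec fun x : (ℕ × List Bool) × ((ℕ × ℕ) × (ℕ × ℕ)) => x.2.2.2 :=
    Primrec.snd.comp (Primrec.snd.comp Primrec.snd)
  have hQ : S1 fun x : (ℕ × List Bool) × ((ℕ × ℕ) × (ℕ × ℕ)) => Q x.1 x.2 := by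
    refine S1.and (S1.of_prim (pr_dec_eq Primrec.fst ((pr_add h22 h21).pair
      (pr_zs (Primrec₂.natPair.comp h11 (pr_add h12 h21)))))) ?_
    exact (s1_KU hU).comp (f := fun x : (ℕ × List Bool) × ((ℕ × ℕ) × (ℕ × ℕ)) =>
      (zs (Nat.pair x.2.1.1 x.2.1.2), x.2.2.2)) ((pr_zs (Primrec₂.natPair.comp h11 h12)).pair h22)
  obtain ⟨c, hc⟩ := kc_s1' hU (S1.ex hQ) 4 (by
    intro F hF
    choose! g hg1 hg2 using hF
    let h : ℕ × List Bool → (List Bool × ℕ) × ℕ := fun p =>
      ((zs (Nat.pair (g p).1.1 (g p).1.2), (g p).2.2), (g p).2.1)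
    have hinj : ∀ p ∈ F, ∀ p' ∈ F, h p = h p' → p = p' := by
      intro p hp' p' hp'' hh
      simp only [h, Prod.mk.injEq] at hh
      have h1 := congrArg List.length hh.1.1
      simp only [List.length_replicate] at h1
      have h2 := congrArg Nat.unpair h1
      rw [Nat.unpair_pair, Nat.unpair_pair, Prod.mk.injEq] at h2
      rw [hg1 p hp', hg1 p' hp'', hh.1.2, hh.2, h2.1, h2.2]
    have h1 : ∑ p ∈ F, hp p.1 = ∑ x ∈ F.image h, hp x.1.2 * hp x.2 := by
      rw [Finset.sum_image fun p hp' p' hp'' hh => hinj p hp' p' hp'' hh]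
      refine Finset.sum_congr rfl fun p hp' => ?_
      have := congrArg Prod.fst (hg1 p hp')
      simp only at this
      rw [this, hp_add]
    rw [h1]
    have h2 : F.image h ⊆ (F.image h).image Prod.fst ×ˢ (F.image h).image Prod.snd := by
      intro x hx
      exact Finset.mem_product.2 ⟨Finset.mem_image_of_mem _ hx, Finset.mem_image_of_mem _ hx⟩
    refine (Finset.sum_le_sum_of_subset_of_nonneg h2 fun x _ _ =>
      mul_nonneg (hp_nonneg _) (hp_nonneg _)).trans ?_
    rw [Finset.sum_product]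
    simp only
    rw [← Finset.sum_mul_sum]
    have h3 := sum_pairs hU ((F.image h).image Prod.fst) (by
      intro x hx
      rw [Finset.image_image] at hx
      obtain ⟨p, hp', rfl⟩ := Finset.mem_image.1 hx
      exact hg2 p hp')
    have h4 := sum_hp_le (F := (F.image h).image Prod.snd) (r := 0) fun _ _ => Nat.zero_le _
    rw [hp_zero] at h4
    have h5 : 0 ≤ ∑ j ∈ (F.image h).image Prod.snd, hp j :=
      Finset.sum_nonneg fun _ _ => hp_nonneg _
    nlinarith)
  refine ⟨c, fun l q' d ρ h => ?_⟩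
  exact hc (ρ + d, zs (Nat.pair l (q' + d))) ⟨((l, q'), (d, ρ)), rfl, h⟩

/-- the complexity of a pair is at most the guess plus a constant -/
theorem kap_sound (hU : IsUniversal U) (hK : KApp U KD) (g : ℕ) :
    ∃ c, ∀ t l q, q < 2 ^ (l + g) → KU U (zs (Nat.pair l q)) ≤ kap KD t l q + c := by
  obtain ⟨c1, hc1⟩ := pair_two hU g
  obtain ⟨c2, hc2⟩ := pair_step hU
  refine ⟨c1 + c2, fun t l q hq => ?_⟩
  rcases kap_le_iff.1 (le_refl (kap KD t l q)) with h1 | ⟨q', h1, r, h2, h3, h4⟩
  · have := hc1 l q hq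
    omega
  · have h5 := Wt_sound hK h3
    have h6 := hc2 l q' (q - q') r h5
    have h7 : q' + (q - q') = q := by omega
    rw [h7] at h6
    omega

/-- the guess is finally correct -/
theorem kap_final (hK : KApp U KD) (l q : ℕ) :
    ∃ N, ∀ t ≥ N, kap KD t l q ≤ KU U (zs (Nat.pair l q)) := by
  obtain ⟨t0, ht0⟩ := hK.compl (zs (Nat.pair l q)) _ le_rfl
  refine ⟨t0 + Nat.pair l q + KU U (zs (Nat.pair l q)) + 1, fun t ht => ?_⟩
  rw [kap_le_iff]
  refine Or.inr ⟨q, by omega, KU U (zs (Nat.pair l q)), by omega, ?_, by omega⟩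
  unfold Wt
  simp only [Bool.and_eq_true, decide_eq_true_eq]
  exact ⟨⟨by omega, by omega⟩, ht0 t (by omega)⟩

end

end Pool.Agent.U35.OW
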