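import Pool.Agent.U35.OW.Act

set_option autoImplicit false

/-! The full invariant of the machine, and the law for confirmed elements. -/

namespace Pool.Agent.U35.OW

theorem hp_one : hp 1 = 1 / 2 := by
  have := hp_succ 0
  rwa [hp_zero] at this

structure Inv (k : ℕ) (v : List Bool → ℕ) (Kf : List Bool → ℕ) (e' : ℕ) (s : St) : Prop where
  ne : s.1 ≠ []
  hb : s.1.length ≤ (s.1.headD []).length + 1
  top : ∃ f rest, s.2.1 = f :: rest ∧ Top k v s.1 s.2.2 (s.1.headD []) f rest
  pend : s.2.1.length = k → (s.1.length - 1, fh (s.2.1.headD default)) ∈ s.2.2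
  lt : ∀ p ∈ s.2.2, p.1 < s.1.length
  fn : ∀ p ∈ s.2.2, ∀ q ∈ s.2.2, p.1 = q.1 → p = q
  nd : ∀ p, (elems s.2.1).count p ≤ 1
  el : ∀ p ∈ elems s.2.1, p.1 + 1 < s.1.length
  cf : ∀ p ∈ s.2.2, ∀ c ∈ vers s.1 p.1, Kf c ≤ p.2 + e' ∧ c.length = p.1

/-- the new string is confirmed -/
structure Valid (Kf : List Bool → ℕ) (e' : ℕ) (s : St) (b' : List Bool) : Prop where
  len : s.1.length ≤ b'.length
  cf : ∀ p ∈ s.2.2, Kf (b'.take p.1) ≤ p.2 + e'

theorem w_toFinset {L : List Elt} (h : L.Nodup) : w L = ∑ p ∈ L.toFinset, hp p.2 := by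
  rw [List.sum_toFinset _ h]
  rfl

theorem law {hist : List (List Bool)} {iss : List Elt} {Kf : List Bool → ℕ} {e' i x : ℕ}
    (hK : ∀ F : Finset (List Bool), ∑ c ∈ F, hp (Kf c) ≤ 1)
    (fn : ∀ p ∈ iss, ∀ q ∈ iss, p.1 = q.1 → p = q)
    (cf : ∀ p ∈ iss, ∀ c ∈ vers hist p.1, Kf c ≤ p.2 + e' ∧ c.length = p.1)
    {L : List Elt} (hL : Gd hist iss i x L) (hn : L.Nodup) : (i : ℝ) * w L ≤ 2 ^ e' := by
  rw [w_toFinset hn, Finset.mul_sum]
  have h1 : ∀ p ∈ L.toFinset, (i : ℝ) * hp p.2 ≤
      ∑ c ∈ vers hist p.1, 2 ^ e' * hp (Kf c) := by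
    intro p hp'
    rw [List.mem_toFinset] at hp'
    obtain ⟨h2, -, -, h3, -⟩ := hL p hp'
    have h4 : ∀ c ∈ vers hist p.1, hp p.2 ≤ 2 ^ e' * hp (Kf c) := by
      intro c hc
      have h5 : hp (p.2 + e') ≤ hp (Kf c) := hp_le (cf p h2 c hc).1
      rw [hp_add] at h5
      have h6 := hp_mul_two_pow e'
      have h7 : (0 : ℝ) < 2 ^ e' := by positivity
      calc hp p.2 = 2 ^ e' * (hp p.2 * hp e') := by
            rw [mul_comm (hp p.2), ← mul_assoc, mul_comm (2 ^ e') (hp e'), h6, one_mul]
        _ ≤ _ := mul_le_mul_of_nonneg_left h5 h7.le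
    have h8 := Finset.sum_le_sum h4
    rw [Finset.sum_const, nsmul_eq_mul] at h8
    refine le_trans ?_ h8
    exact mul_le_mul_of_nonneg_right (by exact_mod_cast h3) (hp_nonneg _)
  refine (Finset.sum_le_sum h1).trans ?_
  rw [← Finset.sum_biUnion]
  · rw [← Finset.mul_sum]
    have h7 : (0 : ℝ) ≤ 2 ^ e' := by positivity
    have := mul_le_mul_of_nonneg_left (hK (L.toFinset.biUnion fun p => vers hist p.1)) h7
    simpa using this
  · intro p hp' q hq hpq
    rw [Finset.mem_coe, List.mem_toFinset] at hp' hq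
    rw [Function.onFun, Finset.disjoint_left]
    intro c hc hc'
    apply hpq
    have h1 := (cf p (hL p hp').1 c hc).2
    have h2 := (cf q (hL q hq).1 c hc').2
    exact fn p (hL p hp').1 q (hL q hq).1 (by omega)

section
variable {k : ℕ} {v : List Bool → ℕ} {Kf : List Bool → ℕ} {e' : ℕ} {s : St} {b' : List Bool}

theorem cf_cons (h : Inv k v Kf e' s) (hb : Valid Kf e' s b') :
    ∀ p ∈ s.2.2, ∀ c ∈ vers (b' :: s.1) p.1, Kf c ≤ p.2 + e' ∧ c.length = p.1 := by
  intro p hp' c hc
  have hlt := h.lt p hp'
  rw [vers_cons hlt, Finset.mem_insert] at hc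
  rcases hc with rfl | hc
  · refine ⟨hb.cf p hp', ?_⟩
    rw [List.length_take]
    have := hb.len
    omega
  · exact h.cf p hp' c hc

/-- the selected data -/
abbrev sI (s : St) (b' : List Bool) : ℕ := idx (s.1.headD []) b' s.2.1
abbrev sF (s : St) (b' : List Bool) : Frame := s.2.1.getD (sI s b') default
abbrev sR (s : St) (b' : List Bool) : List Frame := s.2.1.drop (sI s b' + 1)
abbrev sE (k : ℕ) (s : St) (b' : List Bool) : List Elt :=
  colE k s.1.length (sI s b') s.2.1 (sF s b')
abbrev sU (k : ℕ) (s : St) (b' : List Bool) : Frame :=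
  upd (s.1.headD []) b' (sE k s b') (sF s b')

theorem stp_stack : (stp k v s b').2.1 = action k v s.1.length b' (sU k s b') (sR s b') := rfl

theorem Inv.sel (hv : SumV v) (h : Inv k v Kf e' s) :
    sI s b' < s.2.1.length ∧
    Sel k v s.1 s.2.2 (s.1.headD []) b' (sF s b') (sR s b') (sE k s b') := by
  obtain ⟨f, rest, he, ht⟩ := h.top
  refine select hv rfl h.hb h.ne he ht fun hk => ?_
  have := h.pend hk
  rw [he] at this
  exact this

theorem drop_sI (h : sI s b' < s.2.1.length) : s.2.1.drop (sI s b') = sF s b' :: sR s b' := by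
  rw [List.drop_eq_getElem_cons h]
  unfold sF
  rw [List.getD_eq_getElem _ _ h]

/-- the pending request -/
def pnd (k : ℕ) (s : St) : List Elt :=
  if s.2.1.length = k then [(s.1.length - 1, fh (s.2.1.headD default))] else []

theorem cnt_step (h : sI s b' < s.2.1.length) (p : Elt) :
    (elems (sU k s b' :: sR s b')).count p ≤ (pnd k s).count p + (elems s.2.1).count p := by
  have h1 : (elems (sU k s b' :: sR s b')).count p = (sE k s b').count p +
      (elems (s.2.1.drop (sI s b'))).count p := by
    rw [drop_sI h, cnt_elems_cons, cnt_elems_cons, cnt_upd]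
    ring
  rw [h1]
  rcases Nat.eq_zero_or_pos (sI s b') with h0 | h0
  · have h2 : sE k s b' = pnd k s := by
      unfold sE sF pnd colE
      rw [h0, if_neg (by omega)]
      rw [List.getD_eq_getElem?_getD, ← List.head?_eq_getElem?]
      cases s.2.1 <;> rfl
    rw [h2, h0, List.drop_zero]
  · obtain ⟨n, hn⟩ := Nat.exists_eq_add_of_lt h0
    rw [Nat.zero_add] at hn
    have h2 : sE k s b' = fE (s.2.1.getD n default) := by
      unfold sE colE
      rw [hn, if_pos (by omega)]
      rfl
    have h3 : s.2.1.drop n = s.2.1.getD n default :: s.2.1.drop (n + 1) := by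
      rw [List.drop_eq_getElem_cons (by omega), List.getD_eq_getElem _ _ (by omega)]
    have h4 := cnt_elems_drop p s.2.1 n
    rw [h3, cnt_elems_cons] at h4
    rw [h2, hn]
    omega

theorem cnt_action (T : ℕ) (p : Elt) {f : Frame} {rest : List Frame}
    (hr : big (fg f) (fE f) = true → rest ≠ []) :
    (elems (action k v T b' f rest)).count p ≤ (elems (f :: rest)).count p := by
  unfold action
  split_ifs with h1 h2
  · cases rest with
    | nil => exact absurd rfl (hr h1)
    | cons q r =>
      simp only [List.headD_cons, List.tail_cons]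
      rw [cnt_elems_cons, cnt_elems_cons, cnt_elems_cons]
      have e1 : (fD (att (fE f) q)).flatten.count p = (fD q).flatten.count p + (fE f).count p := by
        change (fD q ++ [fE f]).flatten.count p = _
        rw [List.flatten_append, List.count_append]
        simp
      have e2 : fE (att (fE f) q) = fE q := rfl
      rw [e1, e2]
      omega
  · rw [cnt_elems_cons]
    have e1 : fD (newF v T b' f) = [] := rfl
    have e2 : fE (newF v T b' f) = [] := rfl
    rw [e1, e2]
    simp
  · exact le_rfl

theorem pnd_cnt (h : Inv k v Kf e' s) (p : Elt) :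
    (pnd k s).count p + (elems s.2.1).count p ≤ 1 := by
  by_cases hp' : p ∈ pnd k s
  · have h1 : (elems s.2.1).count p = 0 := by
      rw [List.count_eq_zero]
      intro hc
      have h2 := h.el p hc
      unfold pnd at hp'
      split_ifs at hp' with hk
      · rw [List.mem_singleton] at hp'
        rw [hp'] at h2
        simp only at h2
        omega
      · simp at hp'
    have h2 : (pnd k s).count p ≤ 1 := by
      refine List.count_le_length.trans ?_
      unfold pnd
      split_ifs <;> simp
    omega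
  · rw [List.count_eq_zero.2 hp']
    have := h.nd p
    omega

/-- the bottom frame never returns -/
theorem not_bottom (hv : SumV v) (hK : ∀ F : Finset (List Bool), ∑ c ∈ F, hp (Kf c) ≤ 1)
    (hk : k = 2 ^ (e' + 1) + 1) (h : Inv k v Kf e' s) (hb : Valid Kf e' s b')
    (hbig : big (fg (sU k s b')) (fE (sU k s b')) = true) : sR s b' ≠ [] := by
  intro hR
  obtain ⟨hlt, hS⟩ := h.sel (b' := b') hv
  obtain ⟨hF, -, -⟩ := upd_good rfl hS
  have h1 := hS.bel
  rw [hR] at h1
  obtain ⟨-, h2, -, -⟩ := h1
  rw [big_iff] at hbig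
  have h3 : fg (sU k s b') = 1 := h2
  rw [h3] at hbig
  have h4 : (fE (sU k s b')).Nodup := by
    rw [List.nodup_iff_count_le_one]
    intro p
    have h5 := cnt_step (k := k) hlt p
    have h6 := pnd_cnt h p
    rw [cnt_elems_cons] at h5
    omega
  have h5 := law hK h.fn (cf_cons h hb) hF.e h4
  rw [hR, List.length_nil, Nat.sub_zero, hk] at h5
  have h6 : hp 1 = 1 / 2 := hp_one
  rw [h6] at hbig
  have h7 : (0 : ℝ) < 2 ^ e' := by positivity
  push_cast at h5
  rw [pow_succ] at h5
  subst hk
  nlinarith

/-- the three cases of a step -/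
inductive Cases (k : ℕ) (v : List Bool → ℕ) (s : St) (b' : List Bool) : Prop
  | ret (p : Frame) (r : List Frame) (hR : sR s b' = p :: r)
      (hbig : hp (fg (sU k s b')) ≤ w (fE (sU k s b')))
      (he : (stp k v s b').2.1 = att (fE (sU k s b')) p :: r)
      (hi : (stp k v s b').2.2 = s.2.2) : Cases k v s b'
  | push (hk : (sR s b').length + 1 < k)
      (hbig : ¬ hp (fg (sU k s b')) ≤ w (fE (sU k s b')))
      (he : (stp k v s b').2.1 = newF v s.1.length b' (sU k s b') :: sU k s b' :: sR s b')
      (hi : (stp k v s b').2.2 = if (sR s b').length + 2 = k then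
        (s.1.length, fh (newF v s.1.length b' (sU k s b'))) :: s.2.2 else s.2.2) : Cases k v s b'
  | stay (hk : (sR s b').length + 1 = k)
      (hbig : ¬ hp (fg (sU k s b')) ≤ w (fE (sU k s b')))
      (he : (stp k v s b').2.1 = sU k s b' :: sR s b')
      (hi : (stp k v s b').2.2 = (s.1.length, fh (sF s b')) :: s.2.2) : Cases k v s b'

theorem cases_step (hv : SumV v) (hK : ∀ F : Finset (List Bool), ∑ c ∈ F, hp (Kf c) ≤ 1)
    (hk : k = 2 ^ (e' + 1) + 1) (h : Inv k v Kf e' s) (hb : Valid Kf e' s b') :
    Cases k v s b' := by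
  obtain ⟨hlt, hS⟩ := h.sel (b' := b') hv
  have hlen := hS.len
  have hiss : (stp k v s b').2.2 = issue k s.1.length (stp k v s b').2.1 s.2.2 := rfl
  by_cases hbig : big (fg (sU k s b')) (fE (sU k s b')) = true
  · have hne := not_bottom hv hK hk h hb hbig
    obtain ⟨p, r, hR⟩ := List.exists_cons_of_ne_nil hne
    have he : (stp k v s b').2.1 = att (fE (sU k s b')) p :: r := by
      rw [stp_stack]
      unfold action
      rw [if_pos hbig, hR]
      rfl
    refine Cases.ret p r hR (big_iff.1 hbig) he ?_
    rw [hiss, he]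
    unfold issue
    rw [if_neg]
    rw [hR] at hlen
    simp only [List.length_cons] at hlen ⊢
    omega
  · have hb2 := hbig
    rw [big_iff] at hb2
    rcases lt_or_eq_of_le hlen with h1 | h1
    · have he : (stp k v s b').2.1 = newF v s.1.length b' (sU k s b') :: sU k s b' :: sR s b' := by
        rw [stp_stack]
        unfold action
        rw [if_neg hbig, if_pos h1]
      refine Cases.push h1 hb2 he ?_
      rw [hiss, he]
      unfold issue
      simp only [List.length_cons, List.headD_cons]
    · have he : (stp k v s b').2.1 = sU k s b' :: sR s b' := by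
        rw [stp_stack]
        unfold action
        rw [if_neg hbig, if_neg (by omega)]
      refine Cases.stay h1 hb2 he ?_
      rw [hiss, he]
      unfold issue
      rw [if_pos (by simpa using h1)]
      rfl

theorem inv_stp (hv : SumV v) (hK : ∀ F : Finset (List Bool), ∑ c ∈ F, hp (Kf c) ≤ 1)
    (hk : k = 2 ^ (e' + 1) + 1) (h : Inv k v Kf e' s) (hb : Valid Kf e' s b') :
    Inv k v Kf e' (stp k v s b') := by
  obtain ⟨hlt, hS⟩ := h.sel (b' := b') hv
  have hlen := hS.len
  have hl : 0 < s.1.length := List.length_pos_of_ne_nil h.ne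
  have hhist : (stp k v s b').1 = b' :: s.1 := rfl
  have hcount : ∀ p, (elems (stp k v s b').2.1).count p ≤
      (pnd k s).count p + (elems s.2.1).count p := by
    intro p
    refine le_trans ?_ (cnt_step (k := k) hlt p)
    rw [stp_stack]
    exact cnt_action _ _ fun hbig => not_bottom hv hK hk h hb hbig
  have hnd : ∀ p, (elems (stp k v s b').2.1).count p ≤ 1 := fun p =>
    (hcount p).trans (pnd_cnt h p)
  have hel : ∀ p ∈ elems (stp k v s b').2.1, p.1 + 1 < (stp k v s b').1.length := by
    intro p hp'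
    rw [hhist, List.length_cons]
    have h1 := hcount p
    have h2 := List.count_pos_iff.2 hp'
    by_cases h3 : p ∈ pnd k s
    · unfold pnd at h3
      split_ifs at h3 with h4
      · rw [List.mem_singleton] at h3
        rw [h3]
        simp only
        omega
      · simp at h3
    · rw [List.count_eq_zero.2 h3] at h1
      have h4 := h.el p (List.count_pos_iff.1 (by omega))
      omega
  -- properties of the issued requests
  have key : ∀ iss', (stp k v s b').2.2 = iss' →
      (iss' = s.2.2 ∨ ∃ q, iss' = (s.1.length, q) :: s.2.2) →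
      (∀ p ∈ (stp k v s b').2.2, p.1 < (stp k v s b').1.length) ∧
      (∀ p ∈ (stp k v s b').2.2, ∀ q ∈ (stp k v s b').2.2, p.1 = q.1 → p = q) ∧
      (∀ p ∈ (stp k v s b').2.2, ∀ c ∈ vers (stp k v s b').1 p.1,
        Kf c ≤ p.2 + e' ∧ c.length = p.1) := by
    intro iss' h1 h2
    rw [h1, hhist]
    have hcf := cf_cons h hb
    rcases h2 with h2 | ⟨q0, h2⟩
    · rw [h2]
      refine ⟨?_, h.fn, hcf⟩
      intro p hp'
      have := h.lt p hp'
      simp only [List.length_cons]; omega
    · rw [h2]
      refine ⟨?_, ?_, ?_⟩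
      · intro p hp'
        rcases List.mem_cons.1 hp' with rfl | hp'
        · simp
        · have := h.lt p hp'
          simp only [List.length_cons]; omega
      · intro p hp' q hq hpq
        rcases List.mem_cons.1 hp' with rfl | hp'
        · rcases List.mem_cons.1 hq with rfl | hq
          · rfl
          · have := h.lt q hq
            simp only at hpq
            omega
        · rcases List.mem_cons.1 hq with rfl | hq
          · have := h.lt p hp'
            simp only at hpq
            omega
          · exact h.fn p hp' q hq hpq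
      · intro p hp' c hc
        rcases List.mem_cons.1 hp' with rfl | hp'
        · exfalso
          unfold vers tl at hc
          simp at hc
        · exact hcf p hp' c hc
  have hne : (stp k v s b').1 ≠ [] := by rw [hhist]; simp
  have hhb : (stp k v s b').1.length ≤ ((stp k v s b').1.headD []).length + 1 := by
    rw [hhist]
    have := hb.len
    simp only [List.length_cons, List.headD_cons]; omega
  rcases cases_step hv hK hk h hb with ⟨p, r, hR, hbig, he, hi⟩ | ⟨hk2, hbig, he, hi⟩ | ⟨hk2, hbig, he, hi⟩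
  · obtain ⟨k1, k2, k3⟩ := key _ hi (Or.inl rfl)
    refine ⟨hne, hhb, ⟨_, _, he, ?_⟩, ?_, k1, k2, hnd, hel, k3⟩
    · rw [hi, hhist]
      rw [hR] at hS
      exact Top.return rfl hS hbig
    · intro h1
      rw [he] at h1
      rw [hR] at hlen
      simp only [List.length_cons] at h1 hlen
      omega
  · have hd : (if (sR s b').length + 2 = k then
        (s.1.length, fh (newF v s.1.length b' (sU k s b'))) :: s.2.2 else s.2.2) = s.2.2 ∨
        ∃ q, (if (sR s b').length + 2 = k then
        (s.1.length, fh (newF v s.1.length b' (sU k s b'))) :: s.2.2 else s.2.2) =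
          (s.1.length, q) :: s.2.2 := by
      split_ifs
      · exact Or.inr ⟨_, rfl⟩
      · exact Or.inl rfl
    obtain ⟨k1, k2, k3⟩ := key _ hi hd
    refine ⟨hne, hhb, ⟨_, _, he, ?_⟩, ?_, k1, k2, hnd, hel, k3⟩
    · rw [hhist]
      exact Top.push rfl h.ne h.lt hS hk2 hbig rfl hi
    · intro h1
      rw [he] at h1
      simp only [List.length_cons] at h1
      rw [he, hi, if_pos (by omega), hhist]
      simp
  · obtain ⟨k1, k2, k3⟩ := key _ hi (Or.inr ⟨_, rfl⟩)
    refine ⟨hne, hhb, ⟨_, _, he, ?_⟩, ?_, k1, k2, hnd, hel, k3⟩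
    · rw [hi, hhist]
      exact Top.stay rfl hS hk2 hbig
    · intro h1
      rw [he, hi, hhist]
      simp only [List.length_cons, Nat.add_sub_cancel, List.headD_cons]
      exact List.mem_cons_self

theorem inv_init (hk : 2 ≤ k) : Inv k v Kf e' init := by
  refine ⟨by simp [init], by simp [init], ⟨((0, 1), (1, 0), ([], [])), [], rfl, ?_⟩, ?_, ?_, ?_, ?_,
    ?_, ?_⟩
  · refine ⟨by simp only [List.length_nil]; omega, ⟨rfl, rfl, rfl, rfl⟩, ⟨Gd.nil _ _ _ _, ?_⟩, ?_, ?_,
      ?_, ?_, ?_⟩
    · intro y hy
      simp [fD] at hy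
    · change w [] < hp 1
      rw [w_nil]
      exact hp_pos 1
    · simp [init]
    · simp [init]
    · intro _
      change Uu [] 0 + hp (1 + 2 + 0) ≤ w [] + hp (1 + 1) * VD v _ _ + hp (1 + 2 + 0)
      have e1 : Uu [] 0 = 0 := by simp [Uu]
      have e2 : VD v (init.1.headD []) ((0, 1), (1, 0), ([], [])) = 0 := by
        unfold VD
        simp [fD]
      rw [e1, e2, w_nil]
      simp
    · intro h
      simp only [List.length_nil] at h
      omega
  · intro h
    simp only [init, List.length_singleton] at h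
    omega
  · intro p hp'
    simp [init] at hp'
  · intro p hp'
    simp [init] at hp'
  · intro p
    simp [init, elems, fel, fD, fE]
  · intro p hp'
    simp [init, elems, fel, fD, fE] at hp'
  · intro p hp'
    simp [init] at hp'

/-- the total weight issued -/
theorem total (hv : SumV v) (h : Inv k v Kf e' s) : w s.2.2 ≤ 1 := by
  obtain ⟨f, rest, he, ht⟩ := h.top
  have hch := chain hv h.hb he ht
  have hpos : 0 < s.2.1.length := by rw [he]; simp
  have hN := hch (s.2.1.length - 1) (by omega)
  have hd : s.2.1.drop (s.2.1.length - 1 + 1) = [] := by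
    rw [List.drop_eq_nil_iff]; omega
  rw [hd] at hN
  obtain ⟨-, h1, h2, h3⟩ := hN.bel
  have h4 := hN.us
  have h5 := hN.wt
  rw [h3, h2] at h4
  rw [h1] at h5
  have h6 : Uu s.2.2 0 = w s.2.2 := by
    unfold Uu
    congr 1
    rw [List.filter_eq_self]
    intro p _
    simp
  have h7 : hp 1 = 1 / 2 := hp_one
  rw [h6] at h4
  linarith

end

end Pool.Agent.U35.OW
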