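import Pool.Agent.U35.OW.Sets

set_option autoImplicit false

/-! The final open sets. -/

open Encodable MeasureTheory
open scoped ENNReal
open Pool.Agent.Helper227 (S1 IsUniversal IsMachine KU KU_le KTrivial pre take_pre length_pre
  pre_prefix PP.ex_lt PP.all_lt PP.ex_mem PP.all_mem lam cyl lam_cyl UE Mono3 mem_cyl_iff
  measurableSet_cyl)

namespace Pool.Agent.U35.OW

section
variable (KD : ℕ → List Bool → ℕ → Bool) (v : List Bool → ℕ) (α : ℕ → List Bool) (c7 a : ℕ)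

/-- the level of `s` above `m` -/
def lev (m s n : ℕ) : Prop :=
  big (n + 1) ((Gm KD v α s).drop (Gm KD v α m).length) = true ∧
    (n = 0 ∨ ¬ big n ((Gm KD v α s).drop (Gm KD v α m).length) = true)

/-- the index of the open set -/
def cset (s n : ℕ) : (ℕ × ℕ) × ℕ :=
  ((2 * n, Qf KD v α s (2 * n)), kap KD s (2 * n) (Qf KD v α s (2 * n)))

abbrev L3 (c : (ℕ × ℕ) × ℕ) : ℕ := c.1.1

def HE (m : ℕ) (ζ : List Bool) : Prop := ∃ x : ℕ × ℕ × ℕ, (m < x.1 ∧ x.2.2 ≤ ζ.length) ∧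
  (lev KD v α m x.1 x.2.1 ∧ (covB KD c7 (cset KD v α x.1 x.2.1) (zs x.2.2) (ζ.take x.2.2) ∧
    trn (covB KD c7) a L3 (cset KD v α x.1 x.2.1) (zs x.2.2)))

/-- the open sets -/
def HS (m : ℕ) : Set (ℕ → Bool) := {X | ∃ t, HE KD v α c7 a m (pre X t)}

end

theorem pre_false (n : ℕ) : pre (fun _ => false) n = zs n := by
  unfold Pool.Agent.Helper227.pre
  refine List.ext_getElem (by simp) fun i h1 h2 => by simp

section
variable {KD : ℕ → List Bool → ℕ → Bool} {v : List Bool → ℕ} {α : ℕ → List Bool} {c7 a : ℕ}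
  {U : List Bool →. List Bool}

theorem s1_HE (hKD : Primrec fun p : ℕ × List Bool × ℕ => KD p.1 p.2.1 p.2.2) (hv : Primrec v)
    (hα : Primrec α) : S1 fun x : ℕ × List Bool => HE KD v α c7 a x.1 x.2 := by
  unfold HE
  have hs : Primrec fun y : (ℕ × List Bool) × (ℕ × ℕ × ℕ) => y.2.1 := Primrec.fst.comp Primrec.snd
  have hn : Primrec fun y : (ℕ × List Bool) × (ℕ × ℕ × ℕ) => y.2.2.1 :=
    Primrec.fst.comp (Primrec.snd.comp Primrec.snd)
  have hn' : Primrec fun y : (ℕ × List Bool) × (ℕ × ℕ × ℕ) => y.2.2.2 :=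
    Primrec.snd.comp (Primrec.snd.comp Primrec.snd)
  have hm : Primrec fun y : (ℕ × List Bool) × (ℕ × ℕ × ℕ) => y.1.1 := Primrec.fst.comp Primrec.fst
  have hz : Primrec fun y : (ℕ × List Bool) × (ℕ × ℕ × ℕ) => y.1.2 := Primrec.snd.comp Primrec.fst
  have hG := pr_Gm hKD hv hα
  have hQ := pr_Qf hKD hv hα
  have hl : Primrec fun y : (ℕ × List Bool) × (ℕ × ℕ × ℕ) => 2 * y.2.2.1 :=
    pr_mul (Primrec.const 2) hn
  have hQs : Primrec fun y : (ℕ × List Bool) × (ℕ × ℕ × ℕ) => Qf KD v α y.2.1 (2 * y.2.2.1) :=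
    hQ.comp hs hl
  have hc : Primrec fun y : (ℕ × List Bool) × (ℕ × ℕ × ℕ) => cset KD v α y.2.1 y.2.2.1 := by
    unfold cset
    exact (hl.pair hQs).pair (pr_kap hKD hs hl hQs)
  have hd : Primrec fun y : (ℕ × List Bool) × (ℕ × ℕ × ℕ) =>
      (Gm KD v α y.2.1).drop (Gm KD v α y.1.1).length :=
    pr_drop (pr_len (hG.comp hm)) (hG.comp hs)
  have h1 := PrimrecPred.and (Primrec.nat_lt.comp hm hs) (Primrec.nat_le.comp hn' (pr_len hz))
  have h2 := pr_bool (pr_big (pr_add hn (Primrec.const 1)) hd)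
  have h3 := PrimrecPred.or (pr_dec_eq hn (Primrec.const 0)) (pr_bool (pr_big hn hd)).not
  have h4 := (pr_covB (c7 := c7) hKD).comp ((hc.pair (pr_zs hn')).pair (pr_take hn' hz))
  have h5 := (pr_trn (a := a) (L := L3) (pr_covB (c7 := c7) hKD)
    (Primrec.fst.comp Primrec.fst)).comp (hc.pair (pr_zs hn'))
  exact S1.ex (S1.of_prim (PrimrecPred.and h1 (PrimrecPred.and (PrimrecPred.and h2 h3)
    (PrimrecPred.and h4 h5))))

theorem HE_mono {m : ℕ} {ζ ζ' : List Bool} (h : ζ <+: ζ') (hH : HE KD v α c7 a m ζ) :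
    HE KD v α c7 a m ζ' := by
  obtain ⟨x, ⟨h1, h2⟩, h3, h4, h5⟩ := hH
  refine ⟨x, ⟨h1, h2.trans h.length_le⟩, h3, ?_, h5⟩
  rw [take_of_prefix h h2]
  exact h4

theorem mem_HS {m : ℕ} {X : ℕ → Bool} : X ∈ HS KD v α c7 a m ↔ ∃ s n, m < s ∧
    lev KD v α m s n ∧ X ∈ TS (covB KD c7) a L3 (fun _ => false) (cset KD v α s n) := by
  constructor
  · rintro ⟨t, x, ⟨h1, h2⟩, h3, h4, h5⟩
    rw [length_pre] at h2
    rw [take_pre X _ _ h2] at h4
    refine ⟨x.1, x.2.1, h1, h3, x.2.2, ?_, ?_⟩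
    · rw [pre_false]; exact h4
    · rw [pre_false]; exact h5
  · rintro ⟨s, n, h1, h2, n', h3, h4⟩
    rw [pre_false] at h3 h4
    refine ⟨n', (s, n, n'), ⟨h1, by rw [length_pre]⟩, h2, ?_, h4⟩
    simp only
    rw [take_pre X _ _ le_rfl]
    exact h3

variable (cmp : ∀ t, α (t + 1) <+: α t ∨ α t <+: α (t + 1))
include cmp

omit cmp in
theorem lev_iff {m s n : ℕ} (h : m ≤ s) : lev KD v α m s n ↔
    hp (n + 1) ≤ gam KD v α s - gam KD v α m ∧
      (n = 0 ∨ gam KD v α s - gam KD v α m < hp n) := by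
  unfold lev
  rw [big_iff, big_iff, w_Gm_drop h, not_le]

theorem gam_gap {m s : ℕ} (h : m < s) : hp s ≤ gam KD v α s - gam KD v α m := by
  obtain ⟨s', rfl⟩ : ∃ s', s = s' + 1 := ⟨s - 1, by omega⟩
  have h1 := gam_lt (KD := KD) (v := v) cmp s'
  have h2 := gam_mono (KD := KD) (v := v) cmp (show m ≤ s' by omega)
  linarith

theorem ex_lev {m s : ℕ} (h : m < s) : ∃ n, hp (n + 1) ≤ gam KD v α s - gam KD v α m :=
  ⟨s, (hp_le (Nat.le_succ s)).trans (gam_gap cmp h)⟩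

theorem lev_le {m s n : ℕ} (h : m < s) (hl : lev KD v α m s n) : n ≤ s := by
  rcases ((lev_iff h.le).1 hl).2 with h1 | h1
  · omega
  · by_contra hc
    have h2 := gam_gap (KD := KD) (v := v) cmp h
    have h3 : hp n ≤ hp s := hp_le (by omega)
    linarith

/-- number of pairs at level `n` -/
theorem card_level (hK : KApp U KD) {Γ : ℝ} (hΓ : ∀ t, gam KD v α t ≤ Γ) (hΓ1 : 1 ≤ Γ)
    (m S n : ℕ) [DecidablePred fun s => m < s ∧ lev KD v α m s n] :
    ((((Finset.Icc m S).filter fun s => m < s ∧ lev KD v α m s n).image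
      fun u => (Qf KD v α u (2 * n), kap KD u (2 * n) (Qf KD v α u (2 * n)))).card : ℝ) *
        hp (2 * n) ≤ (5 + 2 * Γ) * hp n := by
  classical
  have hpos : 0 ≤ (5 + 2 * Γ) * hp n := mul_nonneg (by linarith) (hp_nonneg _)
  rcases ((Finset.Icc m S).filter fun s => m < s ∧ lev KD v α m s n).eq_empty_or_nonempty with
    h0 | hne
  · rw [h0]
    simpa using hpos
  obtain ⟨s, hs, hmax⟩ := Finset.exists_max_image _ id hne
  rw [Finset.mem_filter] at hs
  obtain ⟨hs1, hms, hls⟩ := hs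
  have hsub : ((Finset.Icc m S).filter fun s => m < s ∧ lev KD v α m s n) ⊆ Finset.Icc m s := by
    intro u hu
    have h1 := hmax u hu
    rw [Finset.mem_filter] at hu
    exact Finset.mem_Icc.2 ⟨hu.2.1.le, h1⟩
  have h1 := Finset.card_le_card (Finset.image_subset_image
    (f := fun u => (Qf KD v α u (2 * n), kap KD u (2 * n) (Qf KD v α u (2 * n)))) hsub)
  have h2 := count (v := v) hK cmp (2 * n) m s hms.le
  have hQ := Qf_mono (KD := KD) (v := v) cmp (2 * n) hms.le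
  have h3 : ((((Finset.Icc m S).filter fun s => m < s ∧ lev KD v α m s n).image
      fun u => (Qf KD v α u (2 * n), kap KD u (2 * n) (Qf KD v α u (2 * n)))).card : ℝ) ≤
      2 * n + 1 + 2 * ((Qf KD v α s (2 * n) : ℝ) - Qf KD v α m (2 * n)) := by
    have h4 : (((Finset.Icc m S).filter fun s => m < s ∧ lev KD v α m s n).image
      fun u => (Qf KD v α u (2 * n), kap KD u (2 * n) (Qf KD v α u (2 * n)))).card +
        2 * Qf KD v α m (2 * n) ≤ 2 * n + 1 + 2 * Qf KD v α s (2 * n) := by omega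
    have h5 : ((((Finset.Icc m S).filter fun s => m < s ∧ lev KD v α m s n).image
      fun u => (Qf KD v α u (2 * n), kap KD u (2 * n) (Qf KD v α u (2 * n)))).card : ℝ) +
        2 * Qf KD v α m (2 * n) ≤ 2 * n + 1 + 2 * Qf KD v α s (2 * n) := by exact_mod_cast h4
    linarith
  have h4 := (Qf_spec (KD := KD) (v := v) (α := α) s (2 * n)).1
  have h5 := (Qf_spec (KD := KD) (v := v) (α := α) m (2 * n)).2
  have h6 : gam KD v α s - gam KD v α m ≤ Γ * hp n := by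
    rcases ((lev_iff hms.le).1 hls).2 with h7 | h7
    · rw [h7, hp_zero, mul_one]
      have := hΓ s
      have := gam_nonneg (KD := KD) (v := v) (α := α) m
      linarith
    · have := hp_pos n
      nlinarith
  have e1 : hp (2 * n) = hp n * hp n := by rw [← hp_add]; congr 1; omega
  have e2 : (2 : ℝ) ^ (2 * n) = 2 ^ n * 2 ^ n := by rw [← pow_add]; congr 1; omega
  have e3 := hp_mul_two_pow n
  have e4 := hp_pos n
  have e5 : (n : ℝ) < 2 ^ n := by exact_mod_cast Nat.lt_two_pow_self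
  have e6 : (1 : ℝ) ≤ 2 ^ n := one_le_pow₀ (by norm_num)
  have e7 : (0 : ℝ) < 2 ^ n := by positivity
  have h7 : (gam KD v α s - gam KD v α m) * 2 ^ (2 * n) ≤ Γ * 2 ^ n := by
    rw [e2]
    calc (gam KD v α s - gam KD v α m) * (2 ^ n * 2 ^ n) ≤ Γ * hp n * (2 ^ n * 2 ^ n) :=
          mul_le_mul_of_nonneg_right h6 (by positivity)
      _ = Γ * 2 ^ n * (hp n * 2 ^ n) := by ring
      _ = Γ * 2 ^ n := by rw [e3, mul_one]
  have h8 : ((((Finset.Icc m S).filter fun s => m < s ∧ lev KD v α m s n).image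
      fun u => (Qf KD v α u (2 * n), kap KD u (2 * n) (Qf KD v α u (2 * n)))).card : ℝ) ≤
      (5 + 2 * Γ) * 2 ^ n := by nlinarith
  rw [e1]
  calc _ ≤ (5 + 2 * Γ) * 2 ^ n * (hp n * hp n) :=
        mul_le_mul_of_nonneg_right h8 (by positivity)
    _ = (5 + 2 * Γ) * hp n * (hp n * 2 ^ n) := by ring
    _ = _ := by rw [e3, mul_one]

theorem lam_HS (hK : KApp U KD) {Γ : ℝ} (hΓ : ∀ t, gam KD v α t ≤ Γ) (hΓ1 : 1 ≤ Γ) {g : ℝ}
    (hg : ∀ t, gam KD v α t ≤ g) (m : ℕ) :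
    lam (HS KD v α c7 a m) ≤
      ENNReal.ofReal ((5 + 2 * Γ) * 2 ^ a * 4 * (g - gam KD v α m)) := by
  classical
  let SS : ℕ → Set (ℕ → Bool) := fun S => {X | ∃ s n, (m < s ∧ s ≤ S) ∧
    lev KD v α m s n ∧ X ∈ TS (covB KD c7) a L3 (fun _ => false) (cset KD v α s n)}
  have h1 : HS KD v α c7 a m = ⋃ S, SS S := by
    ext X
    rw [mem_HS, Set.mem_iUnion]
    constructor
    · rintro ⟨s, n, h1, h2, h3⟩
      exact ⟨s, s, n, ⟨h1, le_rfl⟩, h2, h3⟩
    · rintro ⟨S, s, n, ⟨h1, -⟩, h2, h3⟩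
      exact ⟨s, n, h1, h2, h3⟩
  have hmono : Monotone SS := by
    rintro S S' hS X ⟨s, n, ⟨h1, h2⟩, h3⟩
    exact ⟨s, n, ⟨h1, h2.trans hS⟩, h3⟩
  rw [h1, hmono.measure_iUnion]
  refine iSup_le fun S => ?_
  have hcoef : 0 ≤ (5 + 2 * Γ) * 2 ^ a * 4 := by
    have : (0 : ℝ) < 2 ^ a := by positivity
    nlinarith
  rcases Nat.lt_or_ge m S with hmS | hmS
  swap
  · have : SS S = ∅ := by
      ext X
      simp only [Set.mem_empty_iff_false, iff_false]
      rintro ⟨s, n, ⟨h2, h3⟩, -⟩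
      omega
    rw [this, measure_empty]
    exact bot_le
  have hex := ex_lev (KD := KD) (v := v) cmp hmS
  have hN0 := Nat.find_spec hex
  have hN1 := fun n => Nat.find_min' hex (m := n)
  set N0 := Nat.find hex with hN0def
  have hsub : SS S ⊆ ⋃ n ∈ Finset.Icc N0 S, ⋃ x ∈ (((Finset.Icc m S).filter
      fun s => m < s ∧ lev KD v α m s n).image
      fun u => (Qf KD v α u (2 * n), kap KD u (2 * n) (Qf KD v α u (2 * n)))),
      TS (covB KD c7) a L3 (fun _ => false) ((2 * n, x.1), x.2) := by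
    rintro X ⟨s, n, ⟨h2, h3⟩, h4, h5⟩
    rw [Set.mem_iUnion₂]
    refine ⟨n, Finset.mem_Icc.2 ⟨?_, (lev_le cmp h2 h4).trans h3⟩, ?_⟩
    · refine hN1 n ?_
      have h6 := ((lev_iff h2.le).1 h4).1
      have h7 := gam_mono (KD := KD) (v := v) cmp h3
      linarith
    · rw [Set.mem_iUnion₂]
      exact ⟨_, Finset.mem_image.2 ⟨s, Finset.mem_filter.2 ⟨Finset.mem_Icc.2 ⟨h2.le, h3⟩, h2, h4⟩,
        rfl⟩, h5⟩
  refine (measure_mono hsub).trans ((measure_biUnion_finset_le _ _).trans ?_)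
  have h2 : ∀ n ∈ Finset.Icc N0 S, lam (⋃ x ∈ (((Finset.Icc m S).filter
      fun s => m < s ∧ lev KD v α m s n).image
      fun u => (Qf KD v α u (2 * n), kap KD u (2 * n) (Qf KD v α u (2 * n)))),
      TS (covB KD c7) a L3 (fun _ => false) ((2 * n, x.1), x.2)) ≤
      ENNReal.ofReal ((5 + 2 * Γ) * 2 ^ a * hp n) := by
    intro n _
    refine (measure_biUnion_finset_le _ _).trans ?_
    have hh : ∀ x : ℕ × ℕ, lam (TS (covB KD c7) a L3 (fun _ => false) ((2 * n, x.1), x.2)) ≤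
        ENNReal.ofReal (2 ^ a * hp (2 * n)) :=
      fun x => lam_TS (covB_mono hK) ((2 * n, x.1), x.2)
    refine (Finset.sum_le_sum fun x _ => hh x).trans ?_
    rw [Finset.sum_const, nsmul_eq_mul, ← ENNReal.ofReal_natCast,
      ← ENNReal.ofReal_mul (by positivity)]
    refine ENNReal.ofReal_le_ofReal ?_
    have h3 := card_level cmp hK hΓ hΓ1 m S n
    have h4 : (0 : ℝ) < 2 ^ a := by positivity
    have h5 := mul_le_mul_of_nonneg_left h3 h4.le
    calc _ = 2 ^ a * (((((Finset.Icc m S).filter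
      fun s => m < s ∧ lev KD v α m s n).image
      fun u => (Qf KD v α u (2 * n), kap KD u (2 * n) (Qf KD v α u (2 * n)))).card : ℝ) *
        hp (2 * n)) := by ring
      _ ≤ 2 ^ a * ((5 + 2 * Γ) * hp n) := h5
      _ = _ := by ring
  refine (Finset.sum_le_sum h2).trans ?_
  have hc2 : 0 ≤ (5 + 2 * Γ) * 2 ^ a := by
    have : (0 : ℝ) < 2 ^ a := by positivity
    nlinarith
  rw [← ENNReal.ofReal_sum_of_nonneg fun n _ => mul_nonneg hc2 (hp_nonneg n), ← Finset.mul_sum]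
  refine ENNReal.ofReal_le_ofReal ?_
  have h3 := sum_hp_le (F := Finset.Icc N0 S) (r := N0) fun n hn => (Finset.mem_Icc.1 hn).1
  have h4 := hp_succ N0
  have h5 := hg S
  have h6 : ∑ n ∈ Finset.Icc N0 S, hp n ≤ 4 * (g - gam KD v α m) := by linarith
  calc _ ≤ (5 + 2 * Γ) * 2 ^ a * (4 * (g - gam KD v α m)) := mul_le_mul_of_nonneg_left h6 hc2
    _ = _ := by ring

end

end Pool.Agent.U35.OW
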