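import Pool.Agent.U35.OW.Tsum

set_option autoImplicit false

/-! K-trivial sets are low for K (for bounded oracle request sets). -/

open Encodable
open Pool.Agent.Helper227 (S1 IsUniversal IsMachine KU KU_le KTrivial pre take_pre length_pre
  PP.ex_lt PP.all_lt PP.ex_mem PP.all_mem)

namespace Pool.Agent.U35.OW

/-- requests -/
abbrev Rq := ℕ × List Bool

/-- the candidate at length `l` -/
def cand (l : ℕ) : Option (ℕ × Rq) := if l = 0 then none else decode (l - 1)

theorem pr_cand : Primrec cand := by
  unfold cand
  exact pr_ite (pr_dec_eq Primrec.id (Primrec.const 0)) (Primrec.const none)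
    (Primrec.decode.comp (pr_sub Primrec.id (Primrec.const 1)))

section
variable (q : List Bool × Rq → ℕ → Prop) [∀ a n, Decidable (q a n)]

/-- validity of a candidate -/
def vld (τ : List Bool) (a : ℕ × Rq) : Prop := ∃ i < τ.length + 1, q (τ.take i, a.2) a.1

instance (τ : List Bool) (a : ℕ × Rq) : Decidable (vld q τ a) := by unfold vld; infer_instance

def hitf (τ : List Bool) : Option Rq :=
  (cand τ.length).bind fun a => if vld q τ a then some a.2 else none

def newp (τ : List Bool) (p : Rq) : Prop := ∀ j < τ.length, ¬ hitf q (τ.take j) = some p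

instance (τ : List Bool) (p : Rq) : Decidable (newp q τ p) := by unfold newp; infer_instance

def selr (τ : List Bool) : Option Rq :=
  (hitf q τ).bind fun p => if newp q τ p then some p else none

def lv (τ : List Bool) : ℕ := ((selr q τ).map fun p => p.1 + 1).getD (τ.length + 1)

variable {q}

omit [∀ a n, Decidable (q a n)] in
theorem pr_vld (hq : PrimrecRel q) : PrimrecPred fun x : List Bool × (ℕ × Rq) => vld q x.1 x.2 := by
  unfold vld
  refine PP.ex_lt (p := fun (x : List Bool × (ℕ × Rq)) i => q (x.1.take i, x.2.2) x.2.1) ?_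
    (Primrec.succ.comp (pr_len Primrec.fst))
  exact hq.comp ((pr_take Primrec.snd (Primrec.fst.comp Primrec.fst)).pair
    (Primrec.snd.comp (Primrec.snd.comp Primrec.fst)))
    (Primrec.fst.comp (Primrec.snd.comp Primrec.fst))

theorem pr_hitf (hq : PrimrecRel q) : Primrec (hitf q) := by
  unfold hitf
  refine Primrec.option_bind (f := fun τ : List Bool => cand τ.length)
    (g := fun τ a => if vld q τ a then some a.2 else none)
    (pr_cand.comp Primrec.list_length) ?_
  exact (Primrec.ite (pr_vld hq) (Primrec.option_some.comp (Primrec.snd.comp Primrec.snd))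
    (Primrec.const none)).to₂

theorem pr_newp (hq : PrimrecRel q) : PrimrecPred fun x : List Bool × Rq => newp q x.1 x.2 := by
  unfold newp
  refine PP.all_lt (p := fun (x : List Bool × Rq) j => ¬ hitf q (x.1.take j) = some x.2) ?_
    (pr_len Primrec.fst)
  exact PrimrecPred.not (pr_dec_eq ((pr_hitf hq).comp (pr_take Primrec.snd
    (Primrec.fst.comp Primrec.fst))) (Primrec.option_some.comp (Primrec.snd.comp Primrec.fst)))

theorem pr_selr (hq : PrimrecRel q) : Primrec (selr q) := by
  unfold selr
  refine Primrec.option_bind (f := fun τ : List Bool => hitf q τ)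
    (g := fun τ p => if newp q τ p then some p else none) (pr_hitf hq) ?_
  exact (Primrec.ite (pr_newp hq) (Primrec.option_some.comp Primrec.snd)
    (Primrec.const none)).to₂

theorem pr_lv (hq : PrimrecRel q) : Primrec (lv q) := by
  unfold lv
  refine Primrec.option_getD.comp (Primrec.option_map (pr_selr hq) ?_)
    (Primrec.succ.comp Primrec.list_length)
  exact (Primrec.succ.comp (Primrec.fst.comp Primrec.snd)).to₂

theorem selr_some {τ : List Bool} {p : Rq} (h : selr q τ = some p) :
    hitf q τ = some p ∧ newp q τ p := by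
  unfold selr at h
  rw [Option.bind_eq_some_iff] at h
  obtain ⟨p', h1, h2⟩ := h
  split_ifs at h2 with h3
  · simp only [Option.some.injEq] at h2
    subst h2
    exact ⟨h1, h3⟩

theorem selr_of {τ : List Bool} {p : Rq} (h1 : hitf q τ = some p) (h2 : newp q τ p) :
    selr q τ = some p := by
  unfold selr
  rw [h1, Option.bind_some, if_pos h2]

theorem hitf_some {τ : List Bool} {p : Rq} (h : hitf q τ = some p) :
    ∃ i < τ.length + 1, ∃ t, q (τ.take i, p) t := by
  unfold hitf at h
  rw [Option.bind_eq_some_iff] at h
  obtain ⟨a, h1, h2⟩ := h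
  split_ifs at h2 with h3
  · simp only [Option.some.injEq] at h2
    subst h2
    obtain ⟨i, hi, h4⟩ := h3
    exact ⟨i, hi, a.1, h4⟩

theorem selr_inj {τ : List Bool} {i j : ℕ} {p : Rq} (hj : j ≤ τ.length)
    (h1 : selr q (τ.take i) = some p) (h2 : selr q (τ.take j) = some p) (hij : i < j) : False := by
  obtain ⟨-, h3⟩ := selr_some h2
  refine h3 i (by rw [List.length_take]; omega) ?_
  rw [List.take_take, min_eq_left hij.le]
  exact (selr_some h1).1

theorem lowK {U : List Bool →. List Bool} (hU : IsUniversal U) {A : ℕ → Bool}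
    (hA : KTrivial U A) {P : List Bool → Rq → Prop} (hq : PrimrecRel q)
    (hqm : ∀ a m n, m ≤ n → q a m → q a n) (hP : ∀ τ p, P τ p ↔ ∃ n, q (τ, p) n)
    (hmono : ∀ τ τ' p, τ <+: τ' → P τ p → P τ' p)
    (hsum : ∀ G : Finset Rq, (∀ p ∈ G, ∃ n, P (pre A n) p) → ∑ p ∈ G, hp p.1 ≤ 1) :
    ∃ c, ∀ p n, P (pre A n) p → KU U p.2 ≤ p.1 + c := by
  classical
  obtain ⟨α, W, hα⟩ := KLt hU hA (pr_lv hq)
  have hselP : ∀ τ p, selr q τ = some p → P τ p := by
    intro τ p h
    obtain ⟨i, -, t, h1⟩ := hitf_some (selr_some h).1
    exact hmono _ _ _ (List.take_prefix i τ) ((hP _ _).2 ⟨t, h1⟩)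
  -- all true requests are selected
  have hF3 : ∀ p n, P (pre A n) p → ∃ l, 1 ≤ l ∧ selr q (pre A l) = some p := by
    intro p n h
    obtain ⟨t, ht⟩ := (hP _ _).1 h
    have hex : ∃ l, hitf q (pre A l) = some p := by
      refine ⟨encode (max t n, p) + 1, ?_⟩
      have h1 : max t n ≤ encode (max t n, p) := by
        rw [Encodable.encode_prod_val]
        exact Nat.left_le_pair _ _
      have h2 := le_max_left t n
      have h3 := le_max_right t n
      unfold hitf
      rw [length_pre]
      unfold cand
      rw [if_neg (by omega), Nat.add_sub_cancel, encodek, Option.bind_some, if_pos]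
      refine ⟨n, by rw [length_pre]; omega, ?_⟩
      rw [take_pre A _ n (by omega)]
      exact hqm _ _ _ h2 ht
    refine ⟨Nat.find hex, ?_, selr_of (Nat.find_spec hex) ?_⟩
    · by_contra hc
      have h0 : Nat.find hex = 0 := by omega
      have h1 := Nat.find_spec hex
      rw [h0] at h1
      unfold hitf at h1
      rw [length_pre] at h1
      simp [cand] at h1
    · intro j hj
      rw [length_pre] at hj
      rw [take_pre A _ j hj.le]
      exact Nat.find_min hex hj
  -- truncation is harmless along `A`
  have hok : ∀ l, okb (lv q) (pre A l) = true := by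
    intro l
    rw [okb_iff]
    unfold Vv
    rw [length_pre]
    have h1 : ∀ y ∈ Finset.range l, hp (lv q ((pre A l).take (y + 1))) ≤
        (if (selr q (pre A (y + 1))).isSome then
          hp ((selr q (pre A (y + 1))).getD default).1 / 2 else 0) + hp (y + 2) := by
      intro y hy
      rw [Finset.mem_range] at hy
      rw [take_pre A l _ (by omega)]
      cases h : selr q (pre A (y + 1)) with
      | none =>
        unfold lv
        rw [h]
        simp
      | some p =>
        unfold lv
        rw [h]
        simp only [Option.map_some, Option.getD_some, Option.isSome_some, if_true]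
        rw [hp_succ]
        have := hp_nonneg (y + 2)
        linarith
    refine (Finset.sum_le_sum h1).trans ?_
    rw [Finset.sum_add_distrib, ← Finset.sum_filter, ← Finset.sum_div]
    have h2 : ∑ y ∈ (Finset.range l).filter (fun y => (selr q (pre A (y + 1))).isSome = true),
        hp ((selr q (pre A (y + 1))).getD default).1 ≤ 1 := by
      rw [← Finset.sum_image (f := fun p : Rq => hp p.1)
        (g := fun y => (selr q (pre A (y + 1))).getD default)]
      · refine hsum _ fun p hp' => ?_
        obtain ⟨y, hy, rfl⟩ := Finset.mem_image.1 hp'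
        rw [Finset.mem_filter] at hy
        obtain ⟨p, hp2⟩ := Option.isSome_iff_exists.1 hy.2
        rw [hp2]
        exact ⟨y + 1, hselP _ _ hp2⟩
      · intro i hi j hj hij
        simp only [Finset.coe_filter, Finset.mem_range, Set.mem_ofPred_eq] at hi hj
        obtain ⟨p, hp2⟩ := Option.isSome_iff_exists.1 hi.2
        obtain ⟨p', hp2'⟩ := Option.isSome_iff_exists.1 hj.2
        simp only [hp2, hp2', Option.getD_some] at hij
        subst hij
        rcases lt_trichotomy i j with h | h | h
        · exfalso
          refine selr_inj (q := q) (τ := pre A l) (i := i + 1) (j := j + 1) (p := p)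
            (by rw [length_pre]; omega) ?_ ?_ (by omega)
          · rw [take_pre A _ _ (by omega)]; exact hp2
          · rw [take_pre A _ _ (by omega)]; exact hp2'
        · exact h
        · exfalso
          refine selr_inj (q := q) (τ := pre A l) (i := j + 1) (j := i + 1) (p := p)
            (by rw [length_pre]; omega) ?_ ?_ (by omega)
          · rw [take_pre A _ _ (by omega)]; exact hp2'
          · rw [take_pre A _ _ (by omega)]; exact hp2
    have h3 := sum_len l
    linarith
  -- the requests
  let Q : Rq → ℕ × ℕ → Prop := fun p a =>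
    (2 ≤ p.1 ∧ (1 ≤ a.2 ∧ a.2 ≤ (α a.1).length)) ∧
      (okb (lv q) ((α a.1).take a.2) = true ∧ selr q ((α a.1).take a.2) = some (p.1 - 2, p.2))
  have hQ : S1 fun x : Rq × (ℕ × ℕ) => Q x.1 x.2 := by
    have hα1 : Primrec fun x : Rq × (ℕ × ℕ) => α x.2.1 :=
      hα.pr.comp (Primrec.fst.comp Primrec.snd)
    have hα2 : Primrec fun x : Rq × (ℕ × ℕ) => (α x.2.1).take x.2.2 :=
      pr_take (Primrec.snd.comp Primrec.snd) hα1
    refine S1.of_prim (PrimrecPred.and (PrimrecPred.and ?_ (PrimrecPred.and ?_ ?_))
      (PrimrecPred.and ?_ ?_))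
    · exact Primrec.nat_le.comp (Primrec.const 2) (Primrec.fst.comp Primrec.fst)
    · exact Primrec.nat_le.comp (Primrec.const 1) (Primrec.snd.comp Primrec.snd)
    · exact Primrec.nat_le.comp (Primrec.snd.comp Primrec.snd) (pr_len hα1)
    · exact pr_bool ((pr_okb (pr_lv hq)).comp hα2)
    · exact pr_dec_eq ((pr_selr hq).comp hα2) (Primrec.option_some.comp
        ((pr_sub (Primrec.fst.comp Primrec.fst) (Primrec.const 2)).pair
          (Primrec.snd.comp Primrec.fst)))
  obtain ⟨c, hc⟩ := kc_s1' hU (S1.ex hQ) (1 + W) (by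
    intro G hG
    choose! g hg using hG
    have hinj : ∀ p ∈ G, ∀ p' ∈ G, (α (g p).1).take (g p).2 = (α (g p').1).take (g p').2 →
        p = p' := by
      intro p hp' p' hp'' h
      obtain ⟨⟨h1, -⟩, -, h2⟩ := hg p hp'
      obtain ⟨⟨h1', -⟩, -, h2'⟩ := hg p' hp''
      rw [h, h2', Option.some.injEq, Prod.mk.injEq] at h2
      exact Prod.ext (by omega) h2.2.symm
    have h1 : ∑ p ∈ G, hp p.1 =
        ∑ σ ∈ G.image (fun p => (α (g p).1).take (g p).2), hp (vt (lv q) σ) := by
      rw [Finset.sum_image fun p hp' q hq h => hinj p hp' q hq h]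
      refine Finset.sum_congr rfl fun p hp' => ?_
      obtain ⟨⟨h1, -⟩, h3, h2⟩ := hg p hp'
      congr 1
      unfold vt
      rw [if_pos h3]
      unfold lv
      rw [h2]
      simp only [Option.map_some, Option.getD_some]
      omega
    rw [h1]
    refine hα.sum (sumV_vt _) fun σ hσ => ?_
    obtain ⟨p, hp', rfl⟩ := Finset.mem_image.1 hσ
    obtain ⟨⟨-, h3, h4⟩, -⟩ := hg p hp'
    refine ⟨fun h => ?_, (g p).1, List.take_prefix _ _⟩
    have := congrArg List.length h
    rw [List.length_take, List.length_nil] at this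
    omega)
  refine ⟨c + 2, fun p n h => ?_⟩
  obtain ⟨l, hl1, hl2⟩ := hF3 p n h
  obtain ⟨N, hN⟩ := hα.lim l
  have h1 := hN N le_rfl
  have h2 : l ≤ (α N).length := by
    have := congrArg List.length h1
    rw [List.length_take, length_pre] at this
    omega
  have h3 := hc (p.1 + 2, p.2) ⟨(N, l), ⟨by simp, hl1, h2⟩, by rw [h1]; exact hok l, by
    rw [h1, hl2]; simp⟩
  simp only at h3
  omega

end

end Pool.Agent.U35.OW
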