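import Mathlib

set_option autoImplicit false

/-! The machine of the golden run argument: definitions and arithmetic. -/

namespace Pool.Agent.U35.OW

/-- `2 ^ (-n)` -/
noncomputable def hp (n : ℕ) : ℝ := (1 / 2 : ℝ) ^ n

theorem hp_pos (n : ℕ) : 0 < hp n := by unfold hp; positivity

theorem hp_nonneg (n : ℕ) : 0 ≤ hp n := (hp_pos n).le

theorem hp_zero : hp 0 = 1 := by simp [hp]

theorem hp_add (m n : ℕ) : hp (m + n) = hp m * hp n := by unfold hp; rw [pow_add]

theorem hp_succ (n : ℕ) : hp (n + 1) = hp n / 2 := by
  rw [hp_add]; simp [hp]; ring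

theorem hp_le {m n : ℕ} (h : m ≤ n) : hp n ≤ hp m := by
  unfold hp
  exact pow_le_pow_of_le_one (by norm_num) (by norm_num) h

theorem hp_le_one (n : ℕ) : hp n ≤ 1 := by
  have := hp_le (Nat.zero_le n)
  rwa [hp_zero] at this

theorem hp_mul_two_pow (n : ℕ) : hp n * 2 ^ n = 1 := by
  unfold hp
  rw [← mul_pow]; norm_num

theorem two_pow_mul_hp {r R : ℕ} (h : r ≤ R) : (2 : ℝ) ^ R * hp r = 2 ^ (R - r) := by
  obtain ⟨d, rfl⟩ := Nat.exists_eq_add_of_le h
  rw [Nat.add_sub_cancel_left, pow_add, mul_comm ((2 : ℝ) ^ r), mul_assoc, mul_comm ((2 : ℝ) ^ r),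
    hp_mul_two_pow, mul_one]

/-- a request: number and exponent of the weight -/
abbrev Elt := ℕ × ℕ

/-- a frame: position, exponent of the goal; exponent of the garbage quota, time of creation;
collected elements, attached sets -/
abbrev Frame := (ℕ × ℕ) × (ℕ × ℕ) × (List Elt × List (List Elt))

abbrev fx (f : Frame) : ℕ := f.1.1
abbrev fg (f : Frame) : ℕ := f.1.2
abbrev fh (f : Frame) : ℕ := f.2.1.1
abbrev fs (f : Frame) : ℕ := f.2.1.2
abbrev fE (f : Frame) : List Elt := f.2.2.1
abbrev fD (f : Frame) : List (List Elt) := f.2.2.2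

/-- weight of a list of elements -/
noncomputable def w (L : List Elt) : ℝ := (L.map fun p => hp p.2).sum

@[simp] theorem w_nil : w [] = 0 := rfl

@[simp] theorem w_cons (p : Elt) (L : List Elt) : w (p :: L) = hp p.2 + w L := by simp [w]

@[simp] theorem w_append (L L' : List Elt) : w (L ++ L') = w L + w L' := by simp [w]

theorem w_nonneg (L : List Elt) : 0 ≤ w L := by
  induction L with
  | nil => simp
  | cons p L ih => rw [w_cons]; have := hp_nonneg p.2; linarith

/-- sum of the exponents -/
def rs (L : List Elt) : ℕ := (L.map fun p => p.2).sum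

def wN (R : ℕ) (L : List Elt) : ℕ := (L.map fun p => 2 ^ (R - p.2)).sum

theorem le_rs {L : List Elt} {p : Elt} (h : p ∈ L) : p.2 ≤ rs L :=
  List.le_sum_of_mem (List.mem_map.2 ⟨p, h, rfl⟩)

theorem wN_cast {R : ℕ} {L : List Elt} (h : ∀ p ∈ L, p.2 ≤ R) : (wN R L : ℝ) = 2 ^ R * w L := by
  induction L with
  | nil => simp [wN]
  | cons p L ih =>
    have ih' := ih fun q hq => h q (List.mem_cons_of_mem _ hq)
    have hp' := h p List.mem_cons_self
    unfold wN at ih' ⊢
    rw [List.map_cons, List.sum_cons, Nat.cast_add, ih', w_cons, mul_add, two_pow_mul_hp hp']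
    push_cast
    rfl

/-- the weight of `L` is at least `2 ^ (-g)` -/
def big (g : ℕ) (L : List Elt) : Bool := decide (2 ^ rs L ≤ 2 ^ g * wN (rs L) L)

theorem big_iff {g : ℕ} {L : List Elt} : big g L = true ↔ hp g ≤ w L := by
  unfold big
  rw [decide_eq_true_eq]
  have h1 : (2 ^ rs L ≤ 2 ^ g * wN (rs L) L) ↔ ((2 : ℝ) ^ rs L ≤ 2 ^ g * (wN (rs L) L : ℝ)) := by
    exact_mod_cast Iff.rfl
  rw [h1, wN_cast fun p => le_rs]
  have h2 : (0 : ℝ) < 2 ^ rs L := by positivity
  have h3 : (0 : ℝ) < 2 ^ g := by positivity
  have h4 := hp_mul_two_pow g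
  constructor
  · intro h
    have h5 : (1 : ℝ) ≤ 2 ^ g * w L := by
      by_contra hc
      push Not at hc
      nlinarith
    by_contra hc
    push Not at hc
    nlinarith
  · intro h
    have h5 : (1 : ℝ) ≤ 2 ^ g * w L := by nlinarith
    nlinarith [mul_le_mul_of_nonneg_left h5 h2.le]

/-- the strings agree up to position `x` -/
def sm (b b' : List Bool) (x : ℕ) : Bool := decide (b.take x = b'.take x)

theorem sm_iff {b b' : List Bool} {x : ℕ} : sm b b' x = true ↔ b.take x = b'.take x := by
  simp [sm]

theorem sm_mono {b b' : List Bool} {x y : ℕ} (h : x ≤ y) (hy : sm b b' y = true) :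
    sm b b' x = true := by
  rw [sm_iff] at hy ⊢
  have := congrArg (List.take x) hy
  rwa [List.take_take, List.take_take, min_eq_left h] at this

theorem sm_zero (b b' : List Bool) : sm b b' 0 = true := by simp [sm]

/-- number of attached sets which remain -/
def keep (b b' : List Bool) (f : Frame) : ℕ :=
  ((List.range (fD f).length).filter fun y => sm b b' (fx f + y + 1)).length

section
variable (k : ℕ) (v : List Bool → ℕ)

/-- index of the first surviving frame -/
def idx (b b' : List Bool) (stk : List Frame) : ℕ := stk.findIdx fun f => sm b b' (fx f)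

/-- elements collected from the cancelled frame, or the pending request -/
def colE (T i : ℕ) (stk : List Frame) (f : Frame) : List Elt :=
  if 0 < i then fE (stk.getD (i - 1) default) else if stk.length = k then [(T - 1, fh f)] else []

/-- the surviving frame after the collection -/
def upd (b b' : List Bool) (Ec : List Elt) (f : Frame) : Frame :=
  ((fx f, fg f), (fh f, fs f), (Ec ++ (((fD f).drop (keep b b' f)).flatten ++ fE f),
    (fD f).take (keep b b' f)))

/-- a new frame -/
def newF (T : ℕ) (b' : List Bool) (f : Frame) : Frame :=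
  ((fx f + (fD f).length + 1, v (b'.take (fx f + (fD f).length + 1)) + fh f + 1),
    (fh f + 3 + T, T), ([], []))

/-- attach a set -/
def att (E : List Elt) (p : Frame) : Frame := ((fx p, fg p), (fh p, fs p), (fE p, fD p ++ [E]))

/-- the action for the surviving frame `f` (after the collection) above `rest` -/
def action (T : ℕ) (b' : List Bool) (f : Frame) (rest : List Frame) : List Frame :=
  if big (fg f) (fE f) = true then (att (fE f) (rest.headD default)) :: rest.tail
  else if rest.length + 1 < k then newF v T b' f :: f :: rest else f :: rest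

/-- one step for the stack -/
def stepS (T : ℕ) (b b' : List Bool) (stk : List Frame) : List Frame :=
  action k v T b' (upd b b' (colE k T (idx b b' stk) stk (stk.getD (idx b b' stk) default))
    (stk.getD (idx b b' stk) default)) (stk.drop (idx b b' stk + 1))

/-- history (latest string first), stack, requests issued -/
abbrev St := List (List Bool) × List Frame × List Elt

def issue (T : ℕ) (stk : List Frame) (iss : List Elt) : List Elt :=
  if stk.length = k then (T, fh (stk.headD default)) :: iss else iss

/-- one step with the new string `b'` -/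
def stp (s : St) (b' : List Bool) : St :=
  (b' :: s.1, stepS k v s.1.length (s.1.headD []) b' s.2.1,
    issue k s.1.length (stepS k v s.1.length (s.1.headD []) b' s.2.1) s.2.2)

/-- the initial state -/
def init : St := ([[]], [((0, 1), (1, 0), ([], []))], [])

end

end Pool.Agent.U35.OW
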