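import Pool.Agent.U35.OW.Mach
import Pool.Agent.H561R3.Prim

set_option autoImplicit false

/-! The machine is primitive recursive. -/

open Pool.Agent.H561R3 (pr_pow pr_sum)

namespace Pool.Agent.U35.OW

section
variable {α β : Type*} [Primcodable α] [Primcodable β]

theorem pr_filter_len {f : α → List β} {p : α → β → Bool} (hf : Primrec f) (hp : Primrec₂ p) :
    Primrec fun a => ((f a).filter (p a)).length := by
  have h1 : Primrec fun a => ((f a).map fun b => (p a b).toNat).sum := by
    refine pr_sum (g := fun a b => (p a b).toNat) hf ?_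
    exact (Primrec.dom_finite Bool.toNat).comp₂ hp
  refine h1.of_eq fun a => ?_
  induction f a with
  | nil => rfl
  | cons b l ih =>
    rw [List.map_cons, List.sum_cons, ih, List.filter_cons]
    cases p a b <;> simp [Nat.add_comm]

theorem pr_ite {c : α → Prop} [DecidablePred c] {f g : α → β} (hc : PrimrecPred c)
    (hf : Primrec f) (hg : Primrec g) : Primrec fun a => if c a then f a else g a :=
  Primrec.ite hc hf hg

theorem pr_take {f : α → ℕ} {g : α → List β} (hf : Primrec f) (hg : Primrec g) :
    Primrec fun a => (g a).take (f a) := Primrec.list_take.comp hf hg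

theorem pr_drop {f : α → ℕ} {g : α → List β} (hf : Primrec f) (hg : Primrec g) :
    Primrec fun a => (g a).drop (f a) := Primrec.list_drop.comp hf hg

theorem pr_add {f g : α → ℕ} (hf : Primrec f) (hg : Primrec g) : Primrec fun a => f a + g a :=
  Primrec.nat_add.comp hf hg

theorem pr_sub {f g : α → ℕ} (hf : Primrec f) (hg : Primrec g) : Primrec fun a => f a - g a :=
  Primrec.nat_sub.comp hf hg

theorem pr_mul {f g : α → ℕ} (hf : Primrec f) (hg : Primrec g) : Primrec fun a => f a * g a :=
  Primrec.nat_mul.comp hf hg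

theorem pr_pw {f g : α → ℕ} (hf : Primrec f) (hg : Primrec g) : Primrec fun a => f a ^ g a :=
  pr_pow.comp hf hg

theorem pr_append {f g : α → List β} (hf : Primrec f) (hg : Primrec g) :
    Primrec fun a => f a ++ g a := Primrec.list_append.comp hf hg

theorem pr_cons {f : α → β} {g : α → List β} (hf : Primrec f) (hg : Primrec g) :
    Primrec fun a => f a :: g a := Primrec.list_cons.comp hf hg

theorem pr_len {f : α → List β} (hf : Primrec f) : Primrec fun a => (f a).length :=
  Primrec.list_length.comp hf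

theorem pr_getD {f : α → List β} {g : α → ℕ} (d : β) (hf : Primrec f) (hg : Primrec g) :
    Primrec fun a => (f a).getD (g a) d := (Primrec.list_getD d).comp hf hg

theorem pr_headD {f : α → List β} (d : β) (hf : Primrec f) : Primrec fun a => (f a).headD d :=
  (pr_getD d hf (Primrec.const 0)).of_eq fun a => by cases f a <;> rfl

theorem pr_tail {f : α → List β} (hf : Primrec f) : Primrec fun a => (f a).tail :=
  Primrec.list_tail.comp hf

theorem pr_dec_eq [DecidableEq β] {f g : α → β} (hf : Primrec f) (hg : Primrec g) :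
    PrimrecPred fun a => f a = g a := Primrec.eq.comp hf hg

theorem pr_sm {b b' : α → List Bool} {x : α → ℕ} (hb : Primrec b) (hb' : Primrec b')
    (hx : Primrec x) : Primrec fun a => sm (b a) (b' a) (x a) := by
  unfold sm
  exact (pr_dec_eq (pr_take hx hb) (pr_take hx hb')).decide

theorem pr_fx {f : α → Frame} (hf : Primrec f) : Primrec fun a => fx (f a) :=
  Primrec.fst.comp (Primrec.fst.comp hf)
theorem pr_fg {f : α → Frame} (hf : Primrec f) : Primrec fun a => fg (f a) :=
  Primrec.snd.comp (Primrec.fst.comp hf)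
theorem pr_fh {f : α → Frame} (hf : Primrec f) : Primrec fun a => fh (f a) :=
  Primrec.fst.comp (Primrec.fst.comp (Primrec.snd.comp hf))
theorem pr_fs {f : α → Frame} (hf : Primrec f) : Primrec fun a => fs (f a) :=
  Primrec.snd.comp (Primrec.fst.comp (Primrec.snd.comp hf))
theorem pr_fE {f : α → Frame} (hf : Primrec f) : Primrec fun a => fE (f a) :=
  Primrec.fst.comp (Primrec.snd.comp (Primrec.snd.comp hf))
theorem pr_fD {f : α → Frame} (hf : Primrec f) : Primrec fun a => fD (f a) :=
  Primrec.snd.comp (Primrec.snd.comp (Primrec.snd.comp hf))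

theorem pr_frame {x g h s : α → ℕ} {E : α → List Elt} {D : α → List (List Elt)}
    (hx : Primrec x) (hg : Primrec g) (hh : Primrec h) (hs : Primrec s) (hE : Primrec E)
    (hD : Primrec D) : Primrec fun a => (((x a, g a), (h a, s a), (E a, D a)) : Frame) :=
  (hx.pair hg).pair ((hh.pair hs).pair (hE.pair hD))

theorem pr_rs {L : α → List Elt} (hL : Primrec L) : Primrec fun a => rs (L a) := by
  unfold rs
  exact pr_sum (g := fun _ (p : Elt) => p.2) hL (Primrec.snd.comp Primrec.snd).to₂

theorem pr_wN {R : α → ℕ} {L : α → List Elt} (hR : Primrec R) (hL : Primrec L) :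
    Primrec fun a => wN (R a) (L a) := by
  unfold wN
  refine pr_sum (g := fun a (p : Elt) => 2 ^ (R a - p.2)) hL ?_
  exact (pr_pw (Primrec.const 2) (pr_sub (hR.comp Primrec.fst)
    (Primrec.snd.comp Primrec.snd))).to₂

theorem pr_big {g : α → ℕ} {L : α → List Elt} (hg : Primrec g) (hL : Primrec L) :
    Primrec fun a => big (g a) (L a) := by
  unfold big
  exact (Primrec.nat_le.comp (pr_pw (Primrec.const 2) (pr_rs hL))
    (pr_mul (pr_pw (Primrec.const 2) hg) (pr_wN (pr_rs hL) hL))).decide

theorem pr_bool {c : α → Bool} (hc : Primrec c) : PrimrecPred fun a => c a = true :=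
  Primrec.eq.comp hc (Primrec.const true)

theorem pr_keep {b b' : α → List Bool} {f : α → Frame} (hb : Primrec b) (hb' : Primrec b')
    (hf : Primrec f) : Primrec fun a => keep (b a) (b' a) (f a) := by
  unfold keep
  refine pr_filter_len (p := fun a y => sm (b a) (b' a) (fx (f a) + y + 1))
    (Primrec.list_range.comp (pr_len (pr_fD hf))) ?_
  exact (pr_sm (hb.comp Primrec.fst) (hb'.comp Primrec.fst)
    (pr_add (pr_add (pr_fx (hf.comp Primrec.fst)) Primrec.snd) (Primrec.const 1))).to₂

theorem pr_idx {b b' : α → List Bool} {S : α → List Frame} (hb : Primrec b) (hb' : Primrec b')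
    (hS : Primrec S) : Primrec fun a => idx (b a) (b' a) (S a) := by
  unfold idx
  refine Primrec.list_findIdx (p := fun a f => sm (b a) (b' a) (fx f)) hS ?_
  exact (pr_sm (hb.comp Primrec.fst) (hb'.comp Primrec.fst) (pr_fx Primrec.snd)).to₂

theorem pr_colE {k T i : α → ℕ} {S : α → List Frame} {f : α → Frame} (hk : Primrec k)
    (hT : Primrec T) (hi : Primrec i) (hS : Primrec S) (hf : Primrec f) :
    Primrec fun a => colE (k a) (T a) (i a) (S a) (f a) := by
  unfold colE
  refine pr_ite (Primrec.nat_lt.comp (Primrec.const 0) hi)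
    (pr_fE (pr_getD default hS (pr_sub hi (Primrec.const 1)))) ?_
  refine pr_ite (pr_dec_eq (pr_len hS) hk) ?_ (Primrec.const [])
  exact pr_cons ((pr_sub hT (Primrec.const 1)).pair (pr_fh hf)) (Primrec.const [])

theorem pr_upd {b b' : α → List Bool} {E : α → List Elt} {f : α → Frame} (hb : Primrec b)
    (hb' : Primrec b') (hE : Primrec E) (hf : Primrec f) :
    Primrec fun a => upd (b a) (b' a) (E a) (f a) := by
  unfold upd
  exact pr_frame (pr_fx hf) (pr_fg hf) (pr_fh hf) (pr_fs hf)
    (pr_append hE (pr_append (Primrec.list_flatten.comp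
      (pr_drop (pr_keep hb hb' hf) (pr_fD hf))) (pr_fE hf)))
    (pr_take (pr_keep hb hb' hf) (pr_fD hf))

theorem pr_newF {v : List Bool → ℕ} (hv : Primrec v) {T : α → ℕ} {b' : α → List Bool}
    {f : α → Frame} (hT : Primrec T) (hb' : Primrec b') (hf : Primrec f) :
    Primrec fun a => newF v (T a) (b' a) (f a) := by
  unfold newF
  have h1 : Primrec fun a => fx (f a) + (fD (f a)).length + 1 :=
    pr_add (pr_add (pr_fx hf) (pr_len (pr_fD hf))) (Primrec.const 1)
  exact pr_frame h1 (pr_add (pr_add (hv.comp (pr_take h1 hb')) (pr_fh hf)) (Primrec.const 1))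
    (pr_add (pr_add (pr_fh hf) (Primrec.const 3)) hT) hT (Primrec.const []) (Primrec.const [])

theorem pr_att {E : α → List Elt} {f : α → Frame} (hE : Primrec E) (hf : Primrec f) :
    Primrec fun a => att (E a) (f a) := by
  unfold att
  exact pr_frame (pr_fx hf) (pr_fg hf) (pr_fh hf) (pr_fs hf) (pr_fE hf)
    (pr_append (pr_fD hf) (pr_cons hE (Primrec.const [])))

theorem pr_action {v : List Bool → ℕ} (hv : Primrec v) {k T : α → ℕ} {b' : α → List Bool}
    {f : α → Frame} {r : α → List Frame} (hk : Primrec k) (hT : Primrec T) (hb' : Primrec b')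
    (hf : Primrec f) (hr : Primrec r) :
    Primrec fun a => action (k a) v (T a) (b' a) (f a) (r a) := by
  unfold action
  refine pr_ite (pr_bool (pr_big (pr_fg hf) (pr_fE hf))) ?_ (pr_ite ?_ ?_ ?_)
  · exact pr_cons (pr_att (pr_fE hf) (pr_headD default hr)) (pr_tail hr)
  · exact Primrec.nat_lt.comp (pr_add (pr_len hr) (Primrec.const 1)) hk
  · exact pr_cons (pr_newF hv hT hb' hf) (pr_cons hf hr)
  · exact pr_cons hf hr

theorem pr_stepS {v : List Bool → ℕ} (hv : Primrec v) {k T : α → ℕ} {b b' : α → List Bool}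
    {S : α → List Frame} (hk : Primrec k) (hT : Primrec T) (hb : Primrec b) (hb' : Primrec b')
    (hS : Primrec S) : Primrec fun a => stepS (k a) v (T a) (b a) (b' a) (S a) := by
  unfold stepS
  have hi := pr_idx hb hb' hS
  have hF := pr_getD default hS hi
  exact pr_action hv hk hT hb' (pr_upd hb hb' (pr_colE hk hT hi hS hF) hF)
    (pr_drop (pr_add hi (Primrec.const 1)) hS)

theorem pr_issue {k T : α → ℕ} {S : α → List Frame} {I : α → List Elt} (hk : Primrec k)
    (hT : Primrec T) (hS : Primrec S) (hI : Primrec I) :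
    Primrec fun a => issue (k a) (T a) (S a) (I a) := by
  unfold issue
  exact pr_ite (pr_dec_eq (pr_len hS) hk)
    (pr_cons (hT.pair (pr_fh (pr_headD default hS))) hI) hI

theorem pr_stp {v : List Bool → ℕ} (hv : Primrec v) {k : α → ℕ} {s : α → St}
    {b' : α → List Bool} (hk : Primrec k) (hs : Primrec s) (hb' : Primrec b') :
    Primrec fun a => stp (k a) v (s a) (b' a) := by
  unfold stp
  have h1 := Primrec.fst.comp hs
  have h2 := Primrec.fst.comp (Primrec.snd.comp hs)
  have h3 := Primrec.snd.comp (Primrec.snd.comp hs)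
  have h4 := pr_stepS hv hk (pr_len h1) (pr_headD [] h1) hb' h2
  exact (pr_cons hb' h1).pair (h4.pair (pr_issue hk (pr_len h1) h4 h3))

end

/-- the condition for a step -/
def cnd (KD : ℕ → List Bool → ℕ → Bool) (e t : ℕ) (s : St) (b' : List Bool) : Bool :=
  decide (s.1.length ≤ b'.length) && s.2.2.all fun p => KD t (b'.take p.1) (p.2 + 2 * e)

/-- the number of levels -/
def kk (e : ℕ) : ℕ := 2 ^ (2 * e + 1) + 1

theorem pr_kk : Primrec kk :=
  pr_add (pr_pw (Primrec.const 2) (pr_add (pr_mul (Primrec.const 2) Primrec.id)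
    (Primrec.const 1))) (Primrec.const 1)

theorem pr_cnd {KD : ℕ → List Bool → ℕ → Bool}
    (hKD : Primrec fun p : ℕ × List Bool × ℕ => KD p.1 p.2.1 p.2.2) {α : Type*} [Primcodable α]
    {e t : α → ℕ} {s : α → St} {b : α → List Bool} (he : Primrec e) (ht : Primrec t)
    (hs : Primrec s) (hb : Primrec b) : Primrec fun a => cnd KD (e a) (t a) (s a) (b a) := by
  unfold cnd
  refine Primrec.and.comp (Primrec.nat_le.comp (pr_len (Primrec.fst.comp hs))
    (pr_len hb)).decide ?_
  have h1 : Primrec fun a =>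
      ((s a).2.2.filter fun p => !KD (t a) ((b a).take p.1) (p.2 + 2 * (e a))).length := by
    refine pr_filter_len (p := fun a (p : Elt) =>
      !KD (t a) ((b a).take p.1) (p.2 + 2 * (e a)))
      (Primrec.snd.comp (Primrec.snd.comp hs)) ?_
    refine (Primrec.not.comp (hKD.comp ((ht.comp Primrec.fst).pair
      ((pr_take (Primrec.fst.comp Primrec.snd) (hb.comp Primrec.fst)).pair
        (pr_add (Primrec.snd.comp Primrec.snd)
          (pr_mul (Primrec.const 2) (he.comp Primrec.fst))))))).to₂
  refine (pr_dec_eq h1 (Primrec.const 0)).decide.of_eq fun a => ?_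
  rw [Bool.eq_iff_iff, decide_eq_true_eq, List.length_eq_zero_iff, List.filter_eq_nil_iff,
    List.all_eq_true]
  simp

/-- one stage -/
def nxt (KD : ℕ → List Bool → ℕ → Bool) (v : List Bool → ℕ) (e t : ℕ) (s : St)
    (b : List Bool) : St :=
  if cnd KD e t s b = true then stp (kk e) v s b else s

theorem pr_nxt {KD : ℕ → List Bool → ℕ → Bool} {v : List Bool → ℕ}
    (hKD : Primrec fun p : ℕ × List Bool × ℕ => KD p.1 p.2.1 p.2.2) (hv : Primrec v)
    {α : Type*} [Primcodable α]
    {e t : α → ℕ} {s : α → St} {b : α → List Bool} (he : Primrec e) (ht : Primrec t)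
    (hs : Primrec s) (hb : Primrec b) : Primrec fun a => nxt KD v (e a) (t a) (s a) (b a) := by
  unfold nxt
  exact pr_ite (pr_bool (pr_cnd hKD he ht hs hb)) (pr_stp hv (pr_kk.comp he) hs hb) hs

/-- the state at stage `t` -/
def stg (KD : ℕ → List Bool → ℕ → Bool) (v : List Bool → ℕ) (F : ℕ → List Bool) (e t : ℕ) : St :=
  Nat.rec init (fun t s => nxt KD v e t s (F (t + 1))) t

theorem stg_zero (KD : ℕ → List Bool → ℕ → Bool) (v : List Bool → ℕ) (F : ℕ → List Bool)
    (e : ℕ) : stg KD v F e 0 = init := rfl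

theorem stg_succ (KD : ℕ → List Bool → ℕ → Bool) (v : List Bool → ℕ) (F : ℕ → List Bool)
    (e t : ℕ) : stg KD v F e (t + 1) = nxt KD v e t (stg KD v F e t) (F (t + 1)) := rfl

theorem pr_stg {KD : ℕ → List Bool → ℕ → Bool} {v : List Bool → ℕ} {F : ℕ → List Bool}
    (hKD : Primrec fun p : ℕ × List Bool × ℕ => KD p.1 p.2.1 p.2.2) (hv : Primrec v)
    (hF : Primrec F) : Primrec₂ (stg KD v F) := by
  unfold stg
  refine Primrec.nat_rec' (f := fun p : ℕ × ℕ => p.2) (g := fun _ => init)
    (h := fun p q => nxt KD v p.1 q.1 q.2 (F (q.1 + 1))) Primrec.snd (Primrec.const init) ?_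
  exact (pr_nxt hKD hv (Primrec.fst.comp Primrec.fst) (Primrec.fst.comp Primrec.snd)
    (Primrec.snd.comp Primrec.snd)
    (hF.comp (Primrec.succ.comp (Primrec.fst.comp Primrec.snd)))).to₂

end Pool.Agent.U35.OW
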