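import Pool.Agent.U35.OW.Trunc

set_option autoImplicit false

/-! Complexity bound for the relative open sets. -/

open Encodable MeasureTheory
open scoped ENNReal
open Pool.Agent.Helper227 (S1 IsUniversal IsMachine KU KU_le KTrivial pre take_pre length_pre
  pre_prefix PP.ex_lt PP.all_lt PP.ex_mem PP.all_mem lam cyl)

namespace Pool.Agent.U35.OW

/-- code of a pair of numbers and a string -/
def cod (c : ℕ × ℕ) (z : List Bool) : List Bool := zs (Nat.pair c.1 c.2) ++ true :: z

theorem findIdx_cod (n : ℕ) (z : List Bool) : (zs n ++ true :: z).findIdx (fun b => b) = n := by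
  induction n with
  | zero => rfl
  | succ n ih =>
    have h1 : zs (n + 1) = false :: zs n := rfl
    rw [h1, List.cons_append, List.findIdx_cons]
    simpa using ih

theorem cod_inj {c c' : ℕ × ℕ} {z z' : List Bool} (h : cod c z = cod c' z') :
    c = c' ∧ z = z' := by
  have h1 := congrArg (List.findIdx fun b => b) h
  unfold cod at h h1
  rw [findIdx_cod, findIdx_cod] at h1
  rw [h1] at h
  have h2 := congrArg Nat.unpair h1
  rw [Nat.unpair_pair, Nat.unpair_pair] at h2
  refine ⟨Prod.ext (Prod.mk.inj h2).1 (Prod.mk.inj h2).2, ?_⟩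
  exact (List.cons.inj (List.append_cancel_left h)).2

theorem pr_cod {β : Type*} [Primcodable β] {c : β → ℕ × ℕ} {z : β → List Bool}
    (hc : Primrec c) (hz : Primrec z) : Primrec fun a => cod (c a) (z a) := by
  unfold cod
  exact pr_append (pr_zs (Primrec₂.natPair.comp (Primrec.fst.comp hc) (Primrec.snd.comp hc)))
    (pr_cons (Primrec.const true) hz)

section
variable {U : List Bool →. List Bool} {A : ℕ → Bool}
  {cv : ℕ × ℕ → List Bool → List Bool → Prop} [∀ c τ z, Decidable (cv c τ z)]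

theorem rel_bound (hU : IsUniversal U) (hA : KTrivial U A)
    (hcv : PrimrecPred fun x : ((ℕ × ℕ) × List Bool) × List Bool => cv x.1.1 x.1.2 x.2)
    (hm : ∀ c τ τ' z z', τ <+: τ' → z <+: z' → cv c τ z → cv c τ' z') (a : ℕ) :
    ∃ c5, ∀ c z n, DD cv a Prod.fst c (pre A n) z →
      KU U (cod c z) + c.1 ≤ KU U (zs (Nat.pair c.1 c.2)) + z.length + c5 := by
  classical
  let P : List Bool → Rq → Prop := fun τ p => ∃ x : ((ℕ × ℕ) × ℕ) × List Bool,
    ((p.2 = cod x.1.1 x.2 ∧ p.1 + x.1.1.1 = x.1.2 + x.2.length + (a + 1)) ∧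
      DD cv a Prod.fst x.1.1 τ x.2) ∧ KU U (zs (Nat.pair x.1.1.1 x.1.1.2)) ≤ x.1.2
  have hP : S1 fun y : List Bool × Rq => P y.1 y.2 := by
    have h1 : Primrec fun y : (List Bool × Rq) × (((ℕ × ℕ) × ℕ) × List Bool) => y.2.1.1 :=
      Primrec.fst.comp (Primrec.fst.comp Primrec.snd)
    have h2 : Primrec fun y : (List Bool × Rq) × (((ℕ × ℕ) × ℕ) × List Bool) => y.2.1.2 :=
      Primrec.snd.comp (Primrec.fst.comp Primrec.snd)
    have h3 : Primrec fun y : (List Bool × Rq) × (((ℕ × ℕ) × ℕ) × List Bool) => y.2.2 :=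
      Primrec.snd.comp Primrec.snd
    have h4 : Primrec fun y : (List Bool × Rq) × (((ℕ × ℕ) × ℕ) × List Bool) => y.1.1 :=
      Primrec.fst.comp Primrec.fst
    have h5 : Primrec fun y : (List Bool × Rq) × (((ℕ × ℕ) × ℕ) × List Bool) => y.1.2 :=
      Primrec.snd.comp Primrec.fst
    refine S1.ex (S1.and (S1.of_prim (PrimrecPred.and (PrimrecPred.and ?_ ?_) ?_)) ?_)
    · exact pr_dec_eq (Primrec.snd.comp h5) (pr_cod h1 h3)
    · exact pr_dec_eq (pr_add (Primrec.fst.comp h5) (Primrec.fst.comp h1))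
        (pr_add (pr_add h2 (pr_len h3)) (Primrec.const (a + 1)))
    · exact (pr_DD (a := a) hcv Primrec.fst).comp
        (f := fun y : (List Bool × Rq) × (((ℕ × ℕ) × ℕ) × List Bool) =>
          ((y.2.1.1, y.1.1), y.2.2)) ((h1.pair h4).pair h3)
    · exact (s1_KU hU).comp (f := fun y : (List Bool × Rq) × (((ℕ × ℕ) × ℕ) × List Bool) =>
        (zs (Nat.pair y.2.1.1.1 y.2.1.1.2), y.2.1.2))
        ((pr_zs (Primrec₂.natPair.comp (Primrec.fst.comp h1) (Primrec.snd.comp h1))).pair h2)
  obtain ⟨q, hq, hqm, hqe⟩ := hP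
  obtain ⟨c, hc⟩ := lowK (P := P) hU hA hq hqm (fun τ p => hqe (τ, p)) (by
    rintro τ τ' p h ⟨x, ⟨h1, h2⟩, h3⟩
    exact ⟨x, ⟨h1, DD_mono h h2⟩, h3⟩) (by
    intro G hG
    choose! nn x hx1 hx2 using hG
    have hinj : ∀ p ∈ G, ∀ p' ∈ G, x p = x p' → p = p' := by
      intro p hp' p' hp'' h
      obtain ⟨⟨h1, h2⟩, -⟩ := hx1 p hp'
      obtain ⟨⟨h1', h2'⟩, -⟩ := hx1 p' hp''
      rw [h] at h1 h2
      exact Prod.ext (by omega) (h1.trans h1'.symm)
    have h1 : ∑ p ∈ G, hp p.1 = ∑ y ∈ G.image x,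
        hp y.1.2 * hp (a + 1) * 2 ^ y.1.1.1 * hp y.2.length := by
      rw [Finset.sum_image fun p hp' p' hp'' h => hinj p hp' p' hp'' h]
      refine Finset.sum_congr rfl fun p hp' => ?_
      obtain ⟨⟨-, h2⟩, -⟩ := hx1 p hp'
      have h3 : hp p.1 * hp (x p).1.1.1 = hp (x p).1.2 * hp (x p).2.length * hp (a + 1) := by
        rw [← hp_add, ← hp_add, ← hp_add, h2]
      have h4 := hp_mul_two_pow (x p).1.1.1
      calc hp p.1 = hp p.1 * (hp (x p).1.1.1 * 2 ^ (x p).1.1.1) := by rw [h4, mul_one]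
        _ = (hp p.1 * hp (x p).1.1.1) * 2 ^ (x p).1.1.1 := by ring
        _ = _ := by rw [h3]; ring
    rw [h1]
    have h2 : ∑ y ∈ G.image x, hp y.1.2 * hp (a + 1) * 2 ^ y.1.1.1 * hp y.2.length =
        ∑ u ∈ (G.image x).image Prod.fst, ∑ y ∈ G.image x with y.1 = u,
          hp y.1.2 * hp (a + 1) * 2 ^ y.1.1.1 * hp y.2.length := by
      rw [Finset.sum_fiberwise_of_maps_to]
      intro y hy
      exact Finset.mem_image_of_mem _ hy
    rw [h2]
    have h3 : ∀ u ∈ (G.image x).image Prod.fst, ∑ y ∈ G.image x with y.1 = u,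
          hp y.1.2 * hp (a + 1) * 2 ^ y.1.1.1 * hp y.2.length ≤ hp u.2 / 2 := by
      intro u _
      have h4 : ∑ y ∈ G.image x with y.1 = u,
          hp y.1.2 * hp (a + 1) * 2 ^ y.1.1.1 * hp y.2.length =
          hp u.2 * hp (a + 1) * 2 ^ u.1.1 *
            ∑ z ∈ ((G.image x).filter fun y => y.1 = u).image Prod.snd, hp z.length := by
        rw [Finset.sum_image, Finset.mul_sum]
        · refine Finset.sum_congr rfl fun y hy => ?_
          rw [Finset.mem_filter] at hy
          rw [hy.2]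
        · intro y hy y' hy' h
          simp only [Finset.coe_filter, Set.mem_ofPred_eq] at hy hy'
          exact Prod.ext (hy.2.trans hy'.2.symm) h
      rw [h4]
      have h5 := DD_sum (A := A) (a := a) (L := Prod.fst) hm (c := u.1)
        (F := ((G.image x).filter fun y => y.1 = u).image Prod.snd) (by
          intro z hz
          obtain ⟨y, hy, rfl⟩ := Finset.mem_image.1 hz
          rw [Finset.mem_filter] at hy
          obtain ⟨hy, hyu⟩ := hy
          obtain ⟨p, hp', rfl⟩ := Finset.mem_image.1 hy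
          obtain ⟨-, h6⟩ := hx1 p hp'
          rw [← hyu]
          exact ⟨nn p, h6⟩)
      have h6 : (0 : ℝ) ≤ hp u.2 * hp (a + 1) * 2 ^ u.1.1 := by
        have := hp_nonneg u.2
        have := hp_nonneg (a + 1)
        positivity
      refine (mul_le_mul_of_nonneg_left h5 h6).trans (le_of_eq ?_)
      have h7 := hp_mul_two_pow u.1.1
      have h8 := hp_mul_two_pow a
      rw [hp_succ]
      calc hp u.2 * (hp a / 2) * 2 ^ u.1.1 * (2 ^ a * hp u.1.1) =
          hp u.2 / 2 * (hp a * 2 ^ a) * (hp u.1.1 * 2 ^ u.1.1) := by ring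
        _ = _ := by rw [h7, h8]; ring
    refine (Finset.sum_le_sum h3).trans ?_
    rw [← Finset.sum_div]
    have h4 : ∑ u ∈ (G.image x).image Prod.fst, hp u.2 =
        ∑ w ∈ ((G.image x).image Prod.fst).image
          (fun u => (zs (Nat.pair u.1.1 u.1.2), u.2)), hp w.2 := by
      refine (Finset.sum_image (f := fun w : List Bool × ℕ => hp w.2)
        (g := fun u : (ℕ × ℕ) × ℕ => (zs (Nat.pair u.1.1 u.1.2), u.2)) ?_).symm
      intro u _ u' _ h
      simp only [Prod.mk.injEq] at h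
      have h5 := congrArg List.length h.1
      simp only [List.length_replicate] at h5
      have h6 := congrArg Nat.unpair h5
      rw [Nat.unpair_pair, Nat.unpair_pair] at h6
      exact Prod.ext (Prod.ext (Prod.mk.inj h6).1 (Prod.mk.inj h6).2) h.2
    have h5 := sum_pairs hU (((G.image x).image Prod.fst).image
          (fun u => (zs (Nat.pair u.1.1 u.1.2), u.2))) (by
        intro w hw
        obtain ⟨u, hu, rfl⟩ := Finset.mem_image.1 hw
        rw [Finset.image_image] at hu
        obtain ⟨p, hp', rfl⟩ := Finset.mem_image.1 hu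
        exact hx2 p hp')
    rw [h4]
    linarith)
  refine ⟨c + (a + 1), fun u z n hD => ?_⟩
  have h1 : u.1 ≤ z.length + a := by
    have h2 := DD_sum (A := A) (a := a) (L := Prod.fst) hm (c := u) (F := {z}) (by
      intro z' hz'
      rw [Finset.mem_singleton] at hz'
      rw [hz']
      exact ⟨n, hD⟩)
    rw [Finset.sum_singleton] at h2
    by_contra hlt
    push Not at hlt
    have h3 : hp u.1 ≤ hp (z.length + a + 1) := hp_le (by omega)
    rw [hp_succ, hp_add] at h3
    have h4 := hp_mul_two_pow a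
    have h5 := hp_pos z.length
    have h6 : (0 : ℝ) < 2 ^ a := by positivity
    have h7 : 2 ^ a * hp u.1 ≤ 2 ^ a * (hp z.length * hp a / 2) :=
      mul_le_mul_of_nonneg_left h3 h6.le
    have h8 : 2 ^ a * (hp z.length * hp a / 2) = hp z.length * (hp a * 2 ^ a) / 2 := by ring
    rw [h8, h4] at h7
    linarith
  have h2 := hc (KU U (zs (Nat.pair u.1 u.2)) + z.length + (a + 1) - u.1, cod u z) n
    ⟨((u, KU U (zs (Nat.pair u.1 u.2))), z), ⟨⟨rfl, by simp only; omega⟩, hD⟩, le_rfl⟩
  simp only at h2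
  omega

end

end Pool.Agent.U35.OW
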