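import Pool.Agent.U35.OW.Rel

set_option autoImplicit false

/-! The relative open sets and the open sets of bounded complexity. -/

open Encodable MeasureTheory
open scoped ENNReal
open Pool.Agent.Helper227 (S1 IsUniversal IsMachine KU KU_le KTrivial pre take_pre length_pre
  pre_prefix PP.ex_lt PP.all_lt PP.ex_mem PP.all_mem lam cyl lam_cyl UE Mono3 mem_cyl_iff
  measurableSet_cyl)

namespace Pool.Agent.U35.OW

theorem take_of_prefix {τ τ' : List Bool} (h : τ <+: τ') {j : ℕ} (hj : j ≤ τ.length) :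
    τ'.take j = τ.take j := by
  conv_rhs => rw [List.prefix_iff_eq_take.1 h, List.take_take, min_eq_left hj]

section covA
variable (qE : List Bool × ℕ × List Bool → ℕ → Prop) (Q : ℕ → ℕ → ℕ) (I : ℕ → ℕ)

def covA (c : ℕ × ℕ) (τ z : List Bool) : Prop :=
  ∃ t < τ.length + 1, Q t c.1 = c.2 ∧ ∃ i < τ.length + 1, ∃ j < z.length + 1,
    qE (τ.take i, I t, z.take j) τ.length

variable {qE Q I}

theorem pr_covA (hq : PrimrecRel qE) (hQ : Primrec₂ Q) (hI : Primrec I) :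
    PrimrecPred fun x : ((ℕ × ℕ) × List Bool) × List Bool => covA qE Q I x.1.1 x.1.2 x.2 := by
  unfold covA
  refine PP.ex_lt (p := fun (x : ((ℕ × ℕ) × List Bool) × List Bool) t => Q t x.1.1.1 = x.1.1.2 ∧
    ∃ i < x.1.2.length + 1, ∃ j < x.2.length + 1,
      qE (x.1.2.take i, I t, x.2.take j) x.1.2.length) ?_
      (Primrec.succ.comp (pr_len (Primrec.snd.comp Primrec.fst)))
  have h1 : Primrec fun x : (((ℕ × ℕ) × List Bool) × List Bool) × ℕ => x.1.1.1 :=
    Primrec.fst.comp (Primrec.fst.comp Primrec.fst)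
  refine PrimrecPred.and (pr_dec_eq (hQ.comp Primrec.snd (Primrec.fst.comp h1))
    (Primrec.snd.comp h1)) ?_
  refine PP.ex_lt (α := (((ℕ × ℕ) × List Bool) × List Bool) × ℕ)
    (p := fun x i => ∃ j < x.1.2.length + 1,
      qE (x.1.1.2.take i, I x.2, x.1.2.take j) x.1.1.2.length) ?_
      (Primrec.succ.comp (pr_len (Primrec.snd.comp (Primrec.fst.comp Primrec.fst))))
  refine PP.ex_lt (α := ((((ℕ × ℕ) × List Bool) × List Bool) × ℕ) × ℕ)
    (p := fun x j => qE (x.1.1.1.2.take x.2, I x.1.2, x.1.1.2.take j) x.1.1.1.2.length) ?_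
      (Primrec.succ.comp (pr_len (Primrec.snd.comp (Primrec.fst.comp Primrec.fst))))
  have h2 : Primrec fun x : (((((ℕ × ℕ) × List Bool) × List Bool) × ℕ) × ℕ) × ℕ => x.1.1.1 :=
    Primrec.fst.comp (Primrec.fst.comp Primrec.fst)
  have h3 : Primrec fun x : (((((ℕ × ℕ) × List Bool) × List Bool) × ℕ) × ℕ) × ℕ => x.1.1.1.1.2 :=
    Primrec.snd.comp (Primrec.fst.comp h2)
  exact hq.comp ((pr_take (Primrec.snd.comp Primrec.fst) h3).pair
    ((hI.comp (Primrec.snd.comp (Primrec.fst.comp Primrec.fst))).pair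
      (pr_take Primrec.snd (Primrec.snd.comp h2)))) (pr_len h3)

theorem covA_mono (hqm : ∀ a m n, m ≤ n → qE a m → qE a n) (c : ℕ × ℕ) (τ τ' z z' : List Bool)
    (h : τ <+: τ') (hz : z <+: z') (hc : covA qE Q I c τ z) : covA qE Q I c τ' z' := by
  obtain ⟨t, h1, h2, i, h3, j, h4, h5⟩ := hc
  have hl := h.length_le
  have hzl := hz.length_le
  refine ⟨t, by omega, h2, i, by omega, j, by omega, ?_⟩
  rw [take_of_prefix h (by omega), take_of_prefix hz (by omega)]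
  exact hqm _ _ _ hl h5

theorem covA_iff {E : List Bool × ℕ × List Bool → Prop} (hqm : ∀ a m n, m ≤ n → qE a m → qE a n)
    (hE : ∀ x, E x ↔ ∃ n, qE x n) {A X : ℕ → Bool} {c : ℕ × ℕ} :
    (∃ n, covA qE Q I c (pre A n) (pre X n)) ↔ ∃ t, Q t c.1 = c.2 ∧ X ∈ UE E A (I t) := by
  constructor
  · rintro ⟨n, t, -, h2, i, h3, j, h4, h5⟩
    rw [length_pre] at h3 h4
    rw [take_pre A _ _ (by omega), take_pre X _ _ (by omega)] at h5
    exact ⟨t, h2, i, j, (hE _).2 ⟨_, h5⟩⟩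
  · rintro ⟨t, h1, s, u, h2⟩
    obtain ⟨m, hm⟩ := (hE _).1 h2
    refine ⟨t + s + u + m, t, by rw [length_pre]; omega, h1, s, by rw [length_pre]; omega, u,
      by rw [length_pre]; omega, ?_⟩
    rw [take_pre A _ _ (by omega), take_pre X _ _ (by omega), length_pre]
    exact hqm _ _ _ (by omega) hm

end covA

section covB
variable (KD : ℕ → List Bool → ℕ → Bool) (c7 : ℕ)

def covB (c : (ℕ × ℕ) × ℕ) (τ z : List Bool) : Prop :=
  ∃ j < z.length + 1, c.1.1 ≤ c.2 + c7 + j ∧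
    KD τ.length (cod c.1 (z.take j)) (c.2 + c7 + j - c.1.1) = true

instance (c : (ℕ × ℕ) × ℕ) (τ z : List Bool) : Decidable (covB KD c7 c τ z) := by
  unfold covB; infer_instance

variable {KD c7} {U : List Bool →. List Bool}

theorem pr_covB (hKD : Primrec fun p : ℕ × List Bool × ℕ => KD p.1 p.2.1 p.2.2) :
    PrimrecPred fun x : (((ℕ × ℕ) × ℕ) × List Bool) × List Bool =>
      covB KD c7 x.1.1 x.1.2 x.2 := by
  unfold covB
  refine PP.ex_lt (p := fun (x : (((ℕ × ℕ) × ℕ) × List Bool) × List Bool) j =>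
    x.1.1.1.1 ≤ x.1.1.2 + c7 + j ∧ KD x.1.2.length (cod x.1.1.1 (x.2.take j))
      (x.1.1.2 + c7 + j - x.1.1.1.1) = true) ?_ (Primrec.succ.comp (pr_len Primrec.snd))
  have h1 : Primrec fun x : ((((ℕ × ℕ) × ℕ) × List Bool) × List Bool) × ℕ => x.1.1.1.1 :=
    Primrec.fst.comp (Primrec.fst.comp (Primrec.fst.comp Primrec.fst))
  have h2 : Primrec fun x : ((((ℕ × ℕ) × ℕ) × List Bool) × List Bool) × ℕ =>
      x.1.1.1.2 + c7 + x.2 :=
    pr_add (pr_add (Primrec.snd.comp (Primrec.fst.comp (Primrec.fst.comp Primrec.fst)))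
      (Primrec.const c7)) Primrec.snd
  have h3 : Primrec fun x : ((((ℕ × ℕ) × ℕ) × List Bool) × List Bool) × ℕ => x.1.1.2.length :=
    pr_len (Primrec.snd.comp (Primrec.fst.comp Primrec.fst))
  have h4 : Primrec fun x : ((((ℕ × ℕ) × ℕ) × List Bool) × List Bool) × ℕ =>
      cod x.1.1.1.1 (x.1.2.take x.2) :=
    pr_cod h1 (pr_take Primrec.snd (Primrec.snd.comp Primrec.fst))
  have h5 : Primrec fun x : ((((ℕ × ℕ) × ℕ) × List Bool) × List Bool) × ℕ =>
      x.1.1.1.2 + c7 + x.2 - x.1.1.1.1.1 := pr_sub h2 (Primrec.fst.comp h1)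
  have h6 := hKD.comp (h3.pair (h4.pair h5))
  have h7 := pr_bool h6
  have h8 := Primrec.nat_le.comp (Primrec.fst.comp h1) h2
  exact PrimrecPred.and h8 h7

theorem covB_mono (hK : KApp U KD) (c : (ℕ × ℕ) × ℕ) (τ τ' z z' : List Bool)
    (h : τ <+: τ') (hz : z <+: z') (hc : covB KD c7 c τ z) : covB KD c7 c τ' z' := by
  obtain ⟨j, h1, h2, h3⟩ := hc
  have hzl := hz.length_le
  refine ⟨j, by omega, h2, ?_⟩
  rw [take_of_prefix hz (by omega)]
  exact hK.mono _ _ _ _ _ h.length_le le_rfl h3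

/-- measure of the set of bounded complexity -/
theorem lam_covB (hU : IsUniversal U) (hK : KApp U KD) (c7 : ℕ) : ∃ a, ∀ (c : ℕ × ℕ) (ρ : ℕ),
    ρ ≤ KU U (zs (Nat.pair c.1 c.2)) →
    lam {X | ∃ n, covB KD c7 (c, ρ) (pre (fun _ => false) n) (pre X n)} ≤
      ENNReal.ofReal (2 ^ (a + c7) * hp c.1) := by
  classical
  obtain ⟨a, ha⟩ := coding hU (π := fun y => y.findIdx fun b => b) (by
    refine Primrec.list_findIdx (f := fun y : List Bool => y) (p := fun _ b => b) Primrec.id ?_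
    exact Primrec.snd.to₂)
  refine ⟨a, fun c ρ hρ => ?_⟩
  have hmono : Monotone fun n => {X | covB KD c7 (c, ρ) (pre (fun _ => false) n) (pre X n)} := by
    intro n n' hn X hX
    exact covB_mono hK _ _ _ _ _ (pre_prefix _ hn) (pre_prefix X hn) hX
  have h1 : {X | ∃ n, covB KD c7 (c, ρ) (pre (fun _ => false) n) (pre X n)} =
      ⋃ n, {X | covB KD c7 (c, ρ) (pre (fun _ => false) n) (pre X n)} := by
    ext X; simp
  rw [h1, hmono.measure_iUnion]
  refine iSup_le fun n => ?_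
  let F : Finset (List Bool) := (Pool.Agent.H561R3.upTo n).toFinset.filter fun z =>
    KU U (cod c z) + c.1 ≤ ρ + c7 + z.length
  have h2 : {X | covB KD c7 (c, ρ) (pre (fun _ => false) n) (pre X n)} ⊆ ⋃ z ∈ F, cyl z := by
    rintro X ⟨j, h3, h4, h5⟩
    rw [length_pre] at h3
    rw [take_pre X _ _ (by omega)] at h5
    rw [Set.mem_iUnion₂]
    refine ⟨pre X j, ?_, by rw [mem_cyl_iff, length_pre]⟩
    rw [Finset.mem_filter, List.mem_toFinset, Pool.Agent.H561R3.mem_upTo, length_pre]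
    have h6 := hK.sound _ _ _ h5
    simp only at h4 h6
    exact ⟨by omega, by omega⟩
  refine (measure_mono h2).trans ((measure_biUnion_finset_le _ _).trans ?_)
  have h3 : ∑ z ∈ F, lam (cyl z) = ENNReal.ofReal (∑ z ∈ F, hp z.length) := by
    rw [ENNReal.ofReal_sum_of_nonneg fun _ _ => hp_nonneg _]
    exact Finset.sum_congr rfl fun z _ => by rw [lam_cyl, ofReal_hp]
  rw [h3]
  refine ENNReal.ofReal_le_ofReal ?_
  have h4 : ∀ z ∈ F, hp z.length ≤ 2 ^ (ρ + c7) * hp c.1 * hp (KU U (cod c z)) := by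
    intro z hz
    rw [Finset.mem_filter] at hz
    have h5 := hp_le hz.2
    rw [hp_add (ρ + c7), hp_add (KU U (cod c z))] at h5
    have h6 := hp_mul_two_pow (ρ + c7)
    have h7 : (0 : ℝ) < 2 ^ (ρ + c7) := by positivity
    calc hp z.length = 2 ^ (ρ + c7) * (hp (ρ + c7) * hp z.length) := by
          rw [← mul_assoc, mul_comm (2 ^ (ρ + c7)) (hp (ρ + c7)), h6, one_mul]
      _ ≤ 2 ^ (ρ + c7) * (hp (KU U (cod c z)) * hp c.1) := mul_le_mul_of_nonneg_left h5 h7.le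
      _ = _ := by ring
  refine (Finset.sum_le_sum h4).trans ?_
  rw [← Finset.mul_sum]
  have h5 := ha (Nat.pair c.1 c.2) (F.image (cod c)) (by
    intro y hy
    obtain ⟨z, -, rfl⟩ := Finset.mem_image.1 hy
    exact findIdx_cod _ _)
  rw [Finset.sum_image fun z _ z' _ h => (cod_inj h).2] at h5
  have h6 : (2 : ℝ) ^ ρ * hp (KU U (zs (Nat.pair c.1 c.2))) ≤ 1 := by
    have h7 := hp_le hρ
    have h8 := hp_mul_two_pow ρ
    have h9 : (0 : ℝ) < 2 ^ ρ := by positivity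
    nlinarith
  have h7 : (0 : ℝ) ≤ 2 ^ (ρ + c7) * hp c.1 := mul_nonneg (by positivity) (hp_nonneg _)
  refine (mul_le_mul_of_nonneg_left h5 h7).trans ?_
  have h8 : (0 : ℝ) ≤ 2 ^ (a + c7) * hp c.1 := mul_nonneg (by positivity) (hp_nonneg _)
  calc (2 : ℝ) ^ (ρ + c7) * hp c.1 * (2 ^ a * hp (KU U (zs (Nat.pair c.1 c.2)))) =
      2 ^ (a + c7) * hp c.1 * (2 ^ ρ * hp (KU U (zs (Nat.pair c.1 c.2)))) := by
        rw [pow_add, pow_add]; ring
    _ ≤ 2 ^ (a + c7) * hp c.1 * 1 := mul_le_mul_of_nonneg_left h6 h8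
    _ = _ := mul_one _

theorem covB_of {KD : ℕ → List Bool → ℕ → Bool} (hK : KApp U KD) {c : ℕ × ℕ} {ρ n : ℕ}
    {X : ℕ → Bool} (h : KU U (cod c (pre X n)) + c.1 ≤ ρ + c7 + n) :
    ∃ m, covB KD c7 (c, ρ) (pre (fun _ => false) m) (pre X m) := by
  obtain ⟨t0, ht0⟩ := hK.compl (cod c (pre X n)) (ρ + c7 + n - c.1) (by omega)
  refine ⟨t0 + n, n, by rw [length_pre]; omega, by simp only; omega, ?_⟩
  rw [length_pre, take_pre X _ _ (by omega)]
  exact ht0 _ (by omega)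

end covB

end Pool.Agent.U35.OW
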