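import Pool.Agent.U35.OW.Inv

set_option autoImplicit false

/-! One step preserves the invariants. -/

namespace Pool.Agent.U35.OW

theorem filter_range_iff {P : ℕ → Bool} (hP : ∀ y y', y ≤ y' → P y' = true → P y = true) (n : ℕ) :
    ∀ y < n, (P y = true ↔ y < ((List.range n).filter P).length) := by
  induction n with
  | zero => intro y hy; omega
  | succ n ih =>
    intro y hy
    rw [List.range_succ, List.filter_append, List.length_append]
    by_cases hn : P n = true
    · have h1 : (List.range n).filter P = List.range n := by
        rw [List.filter_eq_self]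
        intro a ha
        exact hP a n (List.mem_range.1 ha).le hn
      rw [h1, List.length_range]
      simp only [hn, List.filter_cons_of_pos, List.filter_nil, List.length_singleton]
      exact ⟨fun _ => hy, fun _ => hP y n (by omega) hn⟩
    · have h2 : ([n].filter P).length = 0 := by
        simp [hn]
      rw [h2, Nat.add_zero]
      rcases Nat.lt_succ_iff_lt_or_eq.1 hy with h | h
      · exact ih y h
      · subst h
        constructor
        · intro h3; exact absurd h3 hn
        · intro h3
          have h4 := List.length_filter_le P (List.range y)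
          rw [List.length_range] at h4
          omega

theorem keep_le (b b' : List Bool) (f : Frame) : keep b b' f ≤ (fD f).length := by
  unfold keep
  have := List.length_filter_le (fun y => sm b b' (fx f + y + 1)) (List.range (fD f).length)
  rwa [List.length_range] at this

theorem keep_spec (b b' : List Bool) (f : Frame) :
    ∀ y < (fD f).length, (sm b b' (fx f + y + 1) = true ↔ y < keep b b' f) :=
  filter_range_iff (P := fun y => sm b b' (fx f + y + 1))
    (fun y y' h h' => sm_mono (by omega) h') _

theorem w_flatten (L : List (List Elt)) :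
    w L.flatten = ∑ y ∈ Finset.range L.length, w (L.getD y []) := by
  induction L with
  | nil => simp
  | cons a L ih =>
    rw [List.flatten_cons, w_append, ih, List.length_cons, Finset.sum_range_succ', add_comm]
    simp

theorem getD_take {α : Type*} (L : List α) {m y : ℕ} (h : y < m) (d : α) :
    (L.take m).getD y d = L.getD y d := by
  rw [List.getD_eq_getElem?_getD, List.getD_eq_getElem?_getD, List.getElem?_take, if_pos h]

theorem w_drop_flatten (L : List (List Elt)) {m : ℕ} (hm : m ≤ L.length) :
    w (L.drop m).flatten = ∑ y ∈ Finset.Ico m L.length, w (L.getD y []) := by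
  have h1 : w L.flatten = w (L.take m).flatten + w (L.drop m).flatten := by
    rw [← w_append, ← List.flatten_append, List.take_append_drop]
  rw [w_flatten, w_flatten, List.length_take, min_eq_left hm] at h1
  have h2 : ∑ y ∈ Finset.range m, w ((L.take m).getD y []) =
      ∑ y ∈ Finset.range m, w (L.getD y []) :=
    Finset.sum_congr rfl fun y hy => by rw [getD_take L (Finset.mem_range.1 hy)]
  rw [h2] at h1
  have h3 := Finset.sum_range_add_sum_Ico (fun y => w (L.getD y [])) hm
  linarith

section
variable {k : ℕ} {v : List Bool → ℕ} {hist : List (List Bool)} {iss : List Elt} {b b' : List Bool}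

theorem take_eq_of_sm {x y : ℕ} (h : sm b b' x = true) (hy : y ≤ x) : b.take y = b'.take y :=
  sm_iff.1 (sm_mono hy h)

theorem VD_same {f : Frame} (hs : sm b b' (fx f + (fD f).length) = true) :
    VD v b f = VD v b' f := by
  unfold VD
  refine Finset.sum_congr rfl fun y hy => ?_
  rw [take_eq_of_sm hs (by have := Finset.mem_range.1 hy; omega)]

theorem FrOK.same {i : ℕ} {f : Frame} (hh : hist.headD [] = b)
    (hs : sm b b' (fx f + (fD f).length) = true) (h : FrOK v hist iss b i f) :
    FrOK v (b' :: hist) iss b' i f := by
  refine ⟨h.e.same (by rw [hh]; exact sm_mono (by omega) hs), fun y hy => ?_⟩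
  obtain ⟨h1, h2⟩ := h.d y hy
  refine ⟨h1.same (by rw [hh]; exact sm_mono (by omega) hs), ?_⟩
  rwa [← take_eq_of_sm hs (by omega)]

theorem Below.same (hh : hist.headD [] = b) {rest : List Frame} {f : Frame}
    (hs : sm b b' (fx f) = true) (h : Below k v hist iss b f rest) :
    Below k v (b' :: hist) iss b' f rest := by
  induction rest generalizing f with
  | nil => exact h
  | cons p r ih =>
    obtain ⟨⟨h1, h2, h3, h4⟩, h5, h6, h7, h8⟩ := h
    have hs' : sm b b' (fx p + (fD p).length) = true := sm_mono (by omega) hs
    refine ⟨⟨h1, ?_, h3, h4⟩, h5, h6.same hh hs', ?_, ih (sm_mono (by omega) hs') h8⟩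
    · rw [← take_eq_of_sm hs le_rfl]; exact h2
    · rw [← VD_same hs']; exact h7

theorem Below.exists_zero {rest : List Frame} {f : Frame} (h : Below k v hist iss b f rest) :
    ∃ g ∈ f :: rest, fx g = 0 := by
  induction rest generalizing f with
  | nil => exact ⟨f, by simp, h.1⟩
  | cons p r ih =>
    obtain ⟨g, hg, h0⟩ := ih h.2.2.2.2
    exact ⟨g, List.mem_cons_of_mem _ hg, h0⟩

/-- new requests do not matter below -/
theorem FrOK.mono_iss {iss' : List Elt} (hs : ∀ p ∈ iss, p ∈ iss') {i : ℕ} {f : Frame}
    (h : FrOK v hist iss b i f) : FrOK v hist iss' b i f :=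
  ⟨h.e.mono_iss hs, fun y hy => ⟨(h.d y hy).1.mono_iss hs, (h.d y hy).2⟩⟩

theorem Below.issue {rest : List Frame} {f : Frame} {T q : ℕ}
    (h : Below k v hist iss b f rest) (hT : fs f ≤ T) :
    Below k v hist ((T, q) :: iss) b f rest := by
  induction rest generalizing f with
  | nil => exact h
  | cons p r ih =>
    obtain ⟨⟨h1, h2, h3, h4⟩, h5, h6, h7, h8⟩ := h
    refine ⟨⟨h1, h2, h3, h4⟩, h5, h6.mono_iss fun _ => List.mem_cons_of_mem _, ?_,
      ih h8 (by omega)⟩
    rw [Uu_cons (show fs p ≤ T by omega), Uu_cons hT]
    linarith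

/-- the selected surviving frame, with the elements to be collected -/
structure Sel (k : ℕ) (v : List Bool → ℕ) (hist : List (List Bool)) (iss : List Elt)
    (b b' : List Bool) (f : Frame) (rest : List Frame) (Ec : List Elt) : Prop where
  len : rest.length + 1 ≤ k
  bel : Below k v hist iss b f rest
  fr : FrOK v hist iss b (k - rest.length) f
  wt : w (fE f) < hp (fg f)
  sle : fs f < hist.length
  pos : fx f + (fD f).length < hist.length
  smf : sm b b' (fx f) = true
  gE : Gd (b' :: hist) iss (k - rest.length) (fx f) Ec
  us : Uu iss (fs f) ≤ w (fE f) + hp (fh f)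
  us2 : rest.length + 1 < k → Uu iss (fs f) + hp (fh f + 2 + (hist.length - 1)) ≤
    w (fE f) + w Ec + hp (fh f + 1) * VD v b f + hp (fh f + 2 + fs f)
  us1 : rest.length + 1 = k → fD f = [] ∧ Uu iss (fs f) ≤ w (fE f) + w Ec

theorem chain (hv : SumV v) (hb : hist.length ≤ b.length + 1) {stk : List Frame} {f0 : Frame}
    {rest0 : List Frame} (he : stk = f0 :: rest0) (h : Top k v hist iss b f0 rest0) :
    ∀ n < stk.length, Node k v hist iss b (stk.getD n default) (stk.drop (n + 1)) := by
  intro n
  induction n with
  | zero =>
    intro _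
    subst he
    simpa using h.node hv hb
  | succ n ih =>
    intro hn
    have h1 := ih (by omega)
    have h2 : stk.drop (n + 1) = stk.getD (n + 1) default :: stk.drop (n + 1 + 1) := by
      rw [List.drop_eq_getElem_cons hn, List.getD_eq_getElem _ _ hn]
    rw [h2] at h1
    exact h1.next hv hb

theorem select (hv : SumV v) (hh : hist.headD [] = b) (hb : hist.length ≤ b.length + 1)
    (hne : hist ≠ []) {stk : List Frame}
    {f0 : Frame} {rest0 : List Frame} (he : stk = f0 :: rest0) (h : Top k v hist iss b f0 rest0)
    (hpend : stk.length = k → (hist.length - 1, fh f0) ∈ iss) :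
    idx b b' stk < stk.length ∧
    Sel k v hist iss b b' (stk.getD (idx b b' stk) default) (stk.drop (idx b b' stk + 1))
      (colE k hist.length (idx b b' stk) stk (stk.getD (idx b b' stk) default)) := by
  have hl : 0 < hist.length := List.length_pos_of_ne_nil hne
  obtain ⟨g, hg, hg0⟩ := h.bel.exists_zero
  rw [← he] at hg
  have hlt : idx b b' stk < stk.length := by
    unfold idx
    exact List.findIdx_lt_length_of_exists ⟨g, hg, by rw [hg0]; exact sm_zero _ _⟩
  refine ⟨hlt, ?_⟩
  have hsm : sm b b' (fx (stk.getD (idx b b' stk) default)) = true := by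
    rw [List.getD_eq_getElem _ _ hlt]
    exact List.findIdx_getElem (w := hlt)
  have hch := chain hv hb he h
  have hN := hch _ hlt
  rcases Nat.eq_zero_or_pos (idx b b' stk) with h0 | h0
  · -- no cancellation
    rw [h0] at hsm hN ⊢
    subst he
    simp only [List.getD_cons_zero, Nat.zero_add, List.drop_succ_cons, List.drop_zero] at hsm hN ⊢
    have hE : colE k hist.length 0 (f0 :: rest0) f0 =
        if rest0.length + 1 = k then [(hist.length - 1, fh f0)] else [] := by
      simp [colE]
    rw [hE]
    refine ⟨h.len, h.bel, h.fr, h.wt, h.sle, h.pos, hsm, ?_, hN.us, ?_, ?_⟩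
    · split_ifs with hk
      · have h1 : k - rest0.length = 1 := by omega
        rw [h1]
        exact Gd.pend hne (by have := h.pos; omega) (hpend (by simpa using hk))
      · exact Gd.nil _ _ _ _
    · intro hk
      rw [if_neg (by omega), w_nil, add_zero]
      exact h.us2 hk
    · intro hk
      rw [if_pos hk]
      refine ⟨(h.us1 hk).1, ?_⟩
      simpa using (h.us1 hk).2
  · -- the frame above is cancelled
    obtain ⟨n, hn⟩ := Nat.exists_eq_add_of_lt h0
    rw [Nat.zero_add] at hn
    rw [hn] at hsm hN hlt ⊢
    have hC := hch n (by omega)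
    have h2 : stk.drop (n + 1) = stk.getD (n + 1) default :: stk.drop (n + 1 + 1) := by
      rw [List.drop_eq_getElem_cons hlt, List.getD_eq_getElem _ _ hlt]
    rw [h2] at hC
    have hcs : sm b b' (fx (stk.getD n default)) = false := by
      have h3 : n < stk.findIdx (fun f => sm b b' (fx f)) := by
        have : idx b b' stk = stk.findIdx (fun f => sm b b' (fx f)) := rfl
        omega
      have h4 := List.not_of_lt_findIdx h3
      rw [List.getD_eq_getElem _ _ (by omega)]
      simpa using h4
    have hE : colE k hist.length (n + 1) stk (stk.getD (n + 1) default) =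
        fE (stk.getD n default) := by
      simp [colE]
    rw [hE]
    set c := stk.getD n default with hc
    set f := stk.getD (n + 1) default with hf
    set rest := stk.drop (n + 1 + 1) with hrest
    obtain ⟨⟨h3, h4, h5, h6⟩, h7, h8, h9, h10⟩ := hC.bel
    have hlen := hC.len
    simp only [List.length_cons] at hlen
    refine ⟨hN.len, hN.bel, hN.fr, hN.wt, hN.sle, ?_, hsm, ?_, hN.us, ?_, ?_⟩
    · have := hC.pos; omega
    · have h11 := hC.fr.e
      simp only [List.length_cons] at h11
      have h12 := Gd.change (b' := b') (x0 := fx f) h11 (by omega) (by rw [hh]; exact hcs)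
        (by rw [hh]; exact hsm)
      have h13 : k - (rest.length + 1) + 1 = k - rest.length := by omega
      rwa [h13] at h12
    · intro _
      have h11 := hC.us
      have e1 : hp (fh c) = hp (fh f + 1 + fs c) / 4 := by
        rw [h5, show fh f + 3 + fs c = fh f + 1 + fs c + 1 + 1 by omega, hp_succ, hp_succ]; ring
      have e2 : hp (fh f + 2 + (hist.length - 1)) ≤ hp (fh f + 1 + fs c) / 2 := by
        rw [← hp_succ]; exact hp_le (by have := hC.sle; omega)
      have e3 := hp_pos (fh f + 1 + fs c)
      linarith
    · intro h; omega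

theorem upd_good {f : Frame} {rest : List Frame} {Ec : List Elt} (hh : hist.headD [] = b)
    (h : Sel k v hist iss b b' f rest Ec) :
    FrOK v (b' :: hist) iss b' (k - rest.length) (upd b b' Ec f) ∧
    (rest.length + 1 < k → Uu iss (fs f) + hp (fh f + 2 + (hist.length - 1)) ≤
      w (fE (upd b b' Ec f)) + hp (fh f + 1) * VD v b' (upd b b' Ec f) + hp (fh f + 2 + fs f)) ∧
    (rest.length + 1 = k → fD (upd b b' Ec f) = [] ∧ Uu iss (fs f) ≤ w (fE (upd b b' Ec f))) := by
  have hlen := h.len
  have hk1 : k - rest.length - 1 + 1 = k - rest.length := by omega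
  have hkl := keep_le b b' f
  have hks := keep_spec b b' f
  have hfx : fx (upd b b' Ec f) = fx f := rfl
  have hfh : fh (upd b b' Ec f) = fh f := rfl
  have hfE : fE (upd b b' Ec f) = Ec ++ (((fD f).drop (keep b b' f)).flatten ++ fE f) := rfl
  have hfD : fD (upd b b' Ec f) = (fD f).take (keep b b' f) := rfl
  have hDl : ((fD f).take (keep b b' f)).length = keep b b' f := by
    rw [List.length_take, min_eq_left hkl]
  refine ⟨⟨?_, ?_⟩, ?_, ?_⟩
  · rw [hfx, hfE]
    refine h.gE.append (Gd.append (Gd.flatten ?_) (h.fr.e.same (by rw [hh]; exact h.smf)))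
    intro l hl
    obtain ⟨y, hy, rfl⟩ := List.getElem_of_mem hl
    rw [List.length_drop] at hy
    rw [List.getElem_drop]
    have hy' : keep b b' f + y < (fD f).length := by omega
    have h1 := (h.fr.d _ hy').1
    rw [List.getD_eq_getElem _ _ hy'] at h1
    have h2 : sm b b' (fx f + (keep b b' f + y) + 1) = false := by
      have := hks _ hy'
      by_contra hc
      rw [Bool.not_eq_false] at hc
      have := this.1 hc
      omega
    have h3 := Gd.change (b' := b') (x0 := fx f) h1 (by omega) (by rw [hh]; exact h2)
      (by rw [hh]; exact h.smf)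
    rwa [hk1] at h3
  · intro y hy
    rw [hfD, hDl] at hy
    rw [hfx, hfh, hfD, getD_take _ hy]
    obtain ⟨h1, h2⟩ := h.fr.d y (by omega)
    have h3 := (hks y (by omega)).2 hy
    refine ⟨h1.same (by rw [hh]; exact h3), ?_⟩
    rwa [← take_eq_of_sm h3 le_rfl]
  · intro hk
    have h1 := h.us2 hk
    have h2 : VD v b f = VD v b' (upd b b' Ec f) +
        ∑ y ∈ Finset.Ico (keep b b' f) (fD f).length, hp (v (b.take (fx f + y + 1))) := by
      unfold VD
      rw [hfD, hDl, hfx, ← Finset.sum_range_add_sum_Ico _ hkl]
      congr 1
      refine Finset.sum_congr rfl fun y hy => ?_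
      have hy' := Finset.mem_range.1 hy
      rw [take_eq_of_sm ((hks y (by omega)).2 hy') le_rfl]
    have h3 : hp (fh f + 1) *
        ∑ y ∈ Finset.Ico (keep b b' f) (fD f).length, hp (v (b.take (fx f + y + 1))) ≤
        w ((fD f).drop (keep b b' f)).flatten := by
      rw [w_drop_flatten _ hkl, Finset.mul_sum]
      refine Finset.sum_le_sum fun y hy => ?_
      rw [← hp_add]
      refine le_trans (le_of_eq ?_) (h.fr.d y (Finset.mem_Ico.1 hy).2).2
      congr 1; omega
    rw [hfE, w_append, w_append]
    rw [h2] at h1
    nlinarith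
  · intro hk
    obtain ⟨h1, h2⟩ := h.us1 hk
    rw [hfD, hfE, h1, List.drop_nil, List.take_nil, List.flatten_nil, List.nil_append, w_append]
    exact ⟨rfl, by linarith⟩

end

end Pool.Agent.U35.OW
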