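import Pool.Agent.U35.OW.Kap
import Pool.Agent.Helper227.Meas

set_option autoImplicit false

/-! Truncated enumerations of open sets. -/

open Encodable MeasureTheory
open scoped ENNReal
open Pool.Agent.Helper227 (S1 IsUniversal IsMachine KU KU_le KTrivial pre take_pre length_pre
  pre_prefix PP.ex_lt PP.all_lt PP.ex_mem PP.all_mem lam cyl lam_cyl lam_finset allStr
  mem_allStr nodup_allStr primrec_allStr mem_cyl_iff mem_cyl_pre measurableSet_cyl
  measurableSet_pre)

namespace Pool.Agent.U35.OW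

theorem ofReal_hp (n : ℕ) : ENNReal.ofReal (hp n) = (1 / 2 : ℝ≥0∞) ^ n := by
  unfold hp
  rw [ENNReal.ofReal_pow (by norm_num)]
  congr 1
  rw [ENNReal.ofReal_div_of_pos (by norm_num)]
  simp

section
variable {γ : Type*} (cv : γ → List Bool → List Bool → Prop)
  [∀ c τ z, Decidable (cv c τ z)] (a : ℕ) (L : γ → ℕ)

/-- number of covered strings -/
def cc (c : γ) (τ : List Bool) : ℕ :=
  ((allStr τ.length).filter fun z => decide (cv c τ z)).length

/-- truncation -/
def trn (c : γ) (τ : List Bool) : Prop := cc cv c τ * 2 ^ L c ≤ 2 ^ (a + τ.length)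

instance (c : γ) (τ : List Bool) : Decidable (trn cv a L c τ) := by unfold trn; infer_instance

/-- newly covered strings -/
def DD (c : γ) (τ z : List Bool) : Prop :=
  (z.length < τ.length + 1 ∧ cv c (τ.take z.length) z) ∧
    ((∀ j < z.length, ¬ cv c (τ.take j) (z.take j)) ∧ trn cv a L c (τ.take z.length))

/-- the truncated open set -/
def TS (A : ℕ → Bool) (c : γ) : Set (ℕ → Bool) :=
  {X | ∃ n, cv c (pre A n) (pre X n) ∧ trn cv a L c (pre A n)}

end

section
variable {γ : Type*} {cv : γ → List Bool → List Bool → Prop}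
  [∀ c τ z, Decidable (cv c τ z)] {a : ℕ} {L : γ → ℕ} {A : ℕ → Bool}

theorem pr_trn [Primcodable γ] (hcv : PrimrecPred fun x : (γ × List Bool) × List Bool => cv x.1.1 x.1.2 x.2)
    (hL : Primrec L) : PrimrecPred fun x : γ × List Bool => trn cv a L x.1 x.2 := by
  unfold trn cc
  refine Primrec.nat_le.comp (pr_mul ?_ (pr_pw (Primrec.const 2) (hL.comp Primrec.fst)))
    (pr_pw (Primrec.const 2) (pr_add (Primrec.const a) (pr_len Primrec.snd)))
  refine pr_filter_len (f := fun x : γ × List Bool => allStr x.2.length)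
    (p := fun x z => decide (cv x.1 x.2 z)) (primrec_allStr.comp (pr_len Primrec.snd)) ?_
  exact hcv.decide.to₂

theorem pr_DD [Primcodable γ] (hcv : PrimrecPred fun x : (γ × List Bool) × List Bool => cv x.1.1 x.1.2 x.2)
    (hL : Primrec L) :
    PrimrecPred fun x : (γ × List Bool) × List Bool => DD cv a L x.1.1 x.1.2 x.2 := by
  unfold DD
  have h1 : Primrec fun x : (γ × List Bool) × List Bool => x.1.1 := Primrec.fst.comp Primrec.fst
  have h2 : Primrec fun x : (γ × List Bool) × List Bool => x.1.2 := Primrec.snd.comp Primrec.fst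
  have h3 : Primrec fun x : (γ × List Bool) × List Bool => x.2 := Primrec.snd
  refine PrimrecPred.and (PrimrecPred.and ?_ ?_) (PrimrecPred.and ?_ ?_)
  · exact Primrec.nat_lt.comp (pr_len h3) (Primrec.succ.comp (pr_len h2))
  · exact hcv.comp (f := fun x : (γ × List Bool) × List Bool =>
      ((x.1.1, x.1.2.take x.2.length), x.2)) ((h1.pair (pr_take (pr_len h3) h2)).pair h3)
  · refine PP.all_lt (p := fun (x : (γ × List Bool) × List Bool) j =>
      ¬ cv x.1.1 (x.1.2.take j) (x.2.take j)) ?_ (pr_len h3)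
    refine PrimrecPred.not (hcv.comp (f := fun x : ((γ × List Bool) × List Bool) × ℕ =>
      ((x.1.1.1, x.1.1.2.take x.2), x.1.2.take x.2)) ?_)
    exact ((h1.comp Primrec.fst).pair (pr_take Primrec.snd (h2.comp Primrec.fst))).pair
      (pr_take Primrec.snd (h3.comp Primrec.fst))
  · exact (pr_trn hcv hL).comp (f := fun x : (γ × List Bool) × List Bool =>
      (x.1.1, x.1.2.take x.2.length)) (h1.pair (pr_take (pr_len h3) h2))

theorem DD_mono {c : γ} {τ τ' z : List Bool} (h : τ <+: τ') (hD : DD cv a L c τ z) :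
    DD cv a L c τ' z := by
  obtain ⟨⟨h1, h2⟩, h3, h4⟩ := hD
  have hl := h.length_le
  have ht : ∀ j ≤ τ.length, τ'.take j = τ.take j := by
    intro j hj
    conv_rhs => rw [List.prefix_iff_eq_take.1 h, List.take_take, min_eq_left hj]
  refine ⟨⟨by omega, ?_⟩, fun j hj => ?_, ?_⟩
  · rw [ht _ (by omega)]; exact h2
  · rw [ht _ (by omega)]; exact h3 j hj
  · rw [ht _ (by omega)]; exact h4

theorem lam_cv (c : γ) (n : ℕ) : lam {X | cv c (pre A n) (pre X n)} =
    ENNReal.ofReal (cc cv c (pre A n) * hp n) := by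
  classical
  have h1 : {X : ℕ → Bool | cv c (pre A n) (pre X n)} =
      {X | pre X n ∈ ((allStr n).filter fun z => decide (cv c (pre A n) z)).toFinset} := by
    ext X
    simp only [Set.mem_ofPred_eq, List.mem_toFinset, List.mem_filter, mem_allStr, length_pre,
      true_and, decide_eq_true_eq]
  rw [h1, lam_finset _ n (by
    intro σ hσ
    rw [List.mem_toFinset, List.mem_filter, mem_allStr] at hσ
    exact hσ.1), List.toFinset_card_of_nodup ((nodup_allStr n).filter _),
    ENNReal.ofReal_mul (by positivity), ofReal_hp, ENNReal.ofReal_natCast]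
  unfold cc
  rw [length_pre]

theorem trn_iff {c : γ} {n : ℕ} : trn cv a L c (pre A n) ↔
    (cc cv c (pre A n) : ℝ) * hp n ≤ 2 ^ a * hp (L c) := by
  unfold trn
  rw [length_pre]
  have h1 : (cc cv c (pre A n) * 2 ^ L c ≤ 2 ^ (a + n)) ↔
      ((cc cv c (pre A n) : ℝ) * 2 ^ L c ≤ 2 ^ a * 2 ^ n) := by
    rw [← pow_add]
    exact_mod_cast Iff.rfl
  rw [h1]
  have h2 := hp_mul_two_pow n
  have h3 := hp_mul_two_pow (L c)
  have h4 := hp_pos n
  have h5 := hp_pos (L c)
  have h6 : (0 : ℝ) < 2 ^ n := by positivity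
  have h7 : (0 : ℝ) < 2 ^ L c := by positivity
  constructor
  · intro h
    have h8 := mul_le_mul_of_nonneg_right h (mul_nonneg h4.le h5.le)
    calc (cc cv c (pre A n) : ℝ) * hp n = (cc cv c (pre A n) : ℝ) * hp n * (hp (L c) * 2 ^ L c) := by
          rw [h3, mul_one]
      _ = (cc cv c (pre A n) : ℝ) * 2 ^ L c * (hp n * hp (L c)) := by ring
      _ ≤ 2 ^ a * 2 ^ n * (hp n * hp (L c)) := h8
      _ = 2 ^ a * hp (L c) * (hp n * 2 ^ n) := by ring
      _ = _ := by rw [h2, mul_one]
  · intro h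
    have h8 := mul_le_mul_of_nonneg_right h (mul_nonneg h6.le h7.le)
    calc (cc cv c (pre A n) : ℝ) * 2 ^ L c = (cc cv c (pre A n) : ℝ) * 2 ^ L c * (hp n * 2 ^ n) := by
          rw [h2, mul_one]
      _ = (cc cv c (pre A n) : ℝ) * hp n * (2 ^ n * 2 ^ L c) := by ring
      _ ≤ 2 ^ a * hp (L c) * (2 ^ n * 2 ^ L c) := h8
      _ = 2 ^ a * 2 ^ n * (hp (L c) * 2 ^ L c) := by ring
      _ = _ := by rw [h3, mul_one]

theorem lam_le_of_trn {c : γ} {n : ℕ} (h : trn cv a L c (pre A n)) :
    lam {X | cv c (pre A n) (pre X n)} ≤ ENNReal.ofReal (2 ^ a * hp (L c)) := by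
  rw [lam_cv]
  exact ENNReal.ofReal_le_ofReal (trn_iff.1 h)

theorem trn_of_lam {c : γ} (n : ℕ)
    (h : lam {X | ∃ n, cv c (pre A n) (pre X n)} ≤ ENNReal.ofReal (2 ^ a * hp (L c))) :
    trn cv a L c (pre A n) := by
  rw [trn_iff]
  have h1 : lam {X | cv c (pre A n) (pre X n)} ≤ ENNReal.ofReal (2 ^ a * hp (L c)) := by
    refine le_trans (measure_mono ?_) h
    intro X hX
    exact ⟨n, hX⟩
  rw [lam_cv] at h1
  exact (ENNReal.ofReal_le_ofReal_iff (mul_nonneg (by positivity) (hp_nonneg _))).1 h1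

/-- measure of the truncated set -/
theorem lam_TS (hm : ∀ c τ τ' z z', τ <+: τ' → z <+: z' → cv c τ z → cv c τ' z') (c : γ) :
    lam (TS cv a L A c) ≤ ENNReal.ofReal (2 ^ a * hp (L c)) := by
  classical
  let S : ℕ → Set (ℕ → Bool) := fun n =>
    {X | ∃ m ≤ n, cv c (pre A m) (pre X m) ∧ trn cv a L c (pre A m)}
  have h1 : TS cv a L A c = ⋃ n, S n := by
    ext X
    simp only [TS, S, Set.mem_ofPred_eq, Set.mem_iUnion]
    constructor
    · rintro ⟨n, h⟩
      exact ⟨n, n, le_rfl, h⟩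
    · rintro ⟨n, m, -, h⟩
      exact ⟨m, h⟩
  have h2 : Monotone S := by
    intro n n' hn X hX
    obtain ⟨m, h3, h4⟩ := hX
    exact ⟨m, h3.trans hn, h4⟩
  rw [h1, h2.measure_iUnion]
  refine iSup_le fun n => ?_
  by_cases hex : ∃ m ≤ n, trn cv a L c (pre A m)
  · obtain ⟨m0, hm0, ht0⟩ := hex
    have hsp := Nat.findGreatest_spec (P := fun m => trn cv a L c (pre A m)) hm0 ht0
    set m := Nat.findGreatest (fun m => trn cv a L c (pre A m)) n with hmdef
    refine (measure_mono ?_).trans (lam_le_of_trn hsp)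
    rintro X ⟨m', h3, h4, h5⟩
    have h6 : m' ≤ m := Nat.le_findGreatest h3 h5
    exact hm _ _ _ _ _ (pre_prefix A h6) (pre_prefix X h6) h4
  · have : S n = ∅ := by
      ext X
      simp only [S, Set.mem_ofPred_eq, Set.mem_empty_iff_false, iff_false]
      rintro ⟨m, h3, -, h4⟩
      exact hex ⟨m, h3, h4⟩
    rw [this]
    simp

theorem DD_sum (hm : ∀ c τ τ' z z', τ <+: τ' → z <+: z' → cv c τ z → cv c τ' z') {c : γ}
    {F : Finset (List Bool)} (hF : ∀ z ∈ F, ∃ n, DD cv a L c (pre A n) z) :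
    ∑ z ∈ F, hp z.length ≤ 2 ^ a * hp (L c) := by
  classical
  have hpos : 0 ≤ 2 ^ a * hp (L c) := mul_nonneg (by positivity) (hp_nonneg _)
  rcases F.eq_empty_or_nonempty with rfl | hne
  · simpa using hpos
  have hF' : ∀ z ∈ F, cv c (pre A z.length) z ∧
      (∀ j < z.length, ¬ cv c (pre A j) (z.take j)) ∧ trn cv a L c (pre A z.length) := by
    intro z hz
    obtain ⟨n, ⟨h1, h2⟩, h3, h4⟩ := hF z hz
    rw [length_pre] at h1
    rw [take_pre A n _ (by omega)] at h2 h4
    refine ⟨h2, fun j hj => ?_, h4⟩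
    have := h3 j hj
    rwa [take_pre A n _ (by omega)] at this
  obtain ⟨z0, hz0, hmax⟩ := Finset.exists_max_image F List.length hne
  have h1 : lam (⋃ z ∈ F, cyl z) = ENNReal.ofReal (∑ z ∈ F, hp z.length) := by
    rw [measure_biUnion_finset, ENNReal.ofReal_sum_of_nonneg fun _ _ => hp_nonneg _]
    · exact Finset.sum_congr rfl fun z _ => by rw [lam_cyl, ofReal_hp]
    · intro z hz z' hz' hne
      rw [Function.onFun, Set.disjoint_left]
      intro X h2 h3
      rw [mem_cyl_iff] at h2 h3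
      have key : ∀ z z', z ∈ F → z' ∈ F → pre X z.length = z → pre X z'.length = z' →
          z.length < z'.length → False := by
        intro z z' hz hz' h2 h3 hlt
        refine (hF' z' hz').2.1 z.length hlt ?_
        rw [← h3, length_pre] at *
        rw [take_pre X _ _ hlt.le, h2]
        exact (hF' z hz).1
      rcases lt_trichotomy z.length z'.length with h | h | h
      · exact key z z' hz hz' h2 h3 h
      · apply hne
        rw [← h2, ← h3, h]
      · exact key z' z hz' hz h3 h2 h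
    · exact fun z _ => measurableSet_cyl z
  have h2 : lam (⋃ z ∈ F, cyl z) ≤ ENNReal.ofReal (2 ^ a * hp (L c)) := by
    refine (measure_mono ?_).trans (lam_le_of_trn (hF' z0 hz0).2.2)
    intro X hX
    rw [Set.mem_iUnion₂] at hX
    obtain ⟨z, hz, hX⟩ := hX
    rw [mem_cyl_iff] at hX
    have h3 := hmax z hz
    refine hm _ _ _ _ _ (pre_prefix A h3) ?_ (hF' z hz).1
    conv_lhs => rw [← hX]
    exact pre_prefix X h3
  rw [h1] at h2
  exact (ENNReal.ofReal_le_ofReal_iff hpos).1 h2

theorem DD_cover {c : γ} (ht : ∀ n, trn cv a L c (pre A n)) {X : ℕ → Bool}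
    (hX : ∃ n, cv c (pre A n) (pre X n)) : ∃ n, DD cv a L c (pre A n) (pre X n) := by
  classical
  have h1 := Nat.find_spec hX
  have h2 := fun j => Nat.find_min hX (m := j)
  refine ⟨Nat.find hX, ⟨?_, ?_⟩, fun j hj => ?_, ?_⟩
  · rw [length_pre, length_pre]; omega
  · rw [length_pre, take_pre A _ _ le_rfl]; exact h1
  · rw [length_pre] at hj
    rw [take_pre A _ _ hj.le, take_pre X _ _ hj.le]
    exact h2 j hj
  · rw [length_pre, take_pre A _ _ le_rfl]
    exact ht _

end

end Pool.Agent.U35.OW
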