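import Pool.Agent.U35.OW.KL

set_option autoImplicit false

/-! Sums over all the prefixes of the approximations; truncated weights. -/

open Encodable
open Pool.Agent.Helper227 (S1 IsUniversal IsMachine KU KU_le KTrivial pre take_pre length_pre
  PP.ex_lt PP.all_lt PP.ex_mem PP.all_mem)

namespace Pool.Agent.U35.OW

/-- an approximation with bounded waste for `v` -/
structure Good (v : List Bool → ℕ) (A : ℕ → Bool) (α : ℕ → List Bool) (W : ℝ) : Prop where
  pr : Primrec α
  cmp : ∀ t, α (t + 1) <+: α t ∨ α t <+: α (t + 1)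
  lim : ∀ n, ∃ N, ∀ t ≥ N, (α t).take n = pre A n
  ws : ∀ n, ∑ t ∈ Finset.range n, max 0 (Vv v (α t) - Vv v (α (t + 1))) ≤ W

section
variable {v : List Bool → ℕ} {A : ℕ → Bool} {α : ℕ → List Bool} {W : ℝ}

theorem Vv_nonneg (v : List Bool → ℕ) (σ : List Bool) : 0 ≤ Vv v σ :=
  Finset.sum_nonneg fun _ _ => hp_nonneg _

/-- sum over a set of prefixes of `b` of length greater than `m` -/
theorem sum_prefixes {b : List Bool} {m : ℕ} (hm : m ≤ b.length) {G : Finset (List Bool)}
    (hG : ∀ σ ∈ G, σ <+: b ∧ m < σ.length) :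
    ∑ σ ∈ G, hp (v σ) ≤ Vv v b - Vv v (b.take m) := by
  have h1 : G ⊆ (Finset.Ico m b.length).image fun y => b.take (y + 1) := by
    intro σ hσ
    obtain ⟨h1, h2⟩ := hG σ hσ
    have h3 := h1.length_le
    rw [Finset.mem_image]
    refine ⟨σ.length - 1, Finset.mem_Ico.2 ⟨by omega, by omega⟩, ?_⟩
    rw [Nat.sub_add_cancel (by omega)]
    exact (List.prefix_iff_eq_take.1 h1).symm
  refine (Finset.sum_le_sum_of_subset_of_nonneg h1 fun _ _ _ => hp_nonneg _).trans ?_
  rw [Finset.sum_image]
  · rw [Vv_take hm]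
    unfold Vv
    have := Finset.sum_range_add_sum_Ico (fun y => hp (v (b.take (y + 1)))) hm
    linarith
  · intro y hy y' hy' h
    have h2 := congrArg List.length h
    simp only [Finset.coe_Ico, Set.mem_Ico] at hy hy'
    rw [List.length_take, List.length_take] at h2
    omega

theorem sum_trace (hc : ∀ t, α (t + 1) <+: α t ∨ α t <+: α (t + 1)) (T : ℕ) :
    ∀ G : Finset (List Bool), (∀ σ ∈ G, σ ≠ [] ∧ ∃ t ≤ T, σ <+: α t) →
      ∑ σ ∈ G, hp (v σ) ≤ Vv v (α T) +
        ∑ t ∈ Finset.range T, max 0 (Vv v (α t) - Vv v (α (t + 1))) := by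
  classical
  induction T with
  | zero =>
    intro G hG
    have h1 := sum_prefixes (v := v) (b := α 0) (m := 0) (Nat.zero_le _) (G := G) fun σ hσ => by
      obtain ⟨h1, t, ht, h2⟩ := hG σ hσ
      rw [Nat.le_zero.1 ht] at h2
      exact ⟨h2, List.length_pos_of_ne_nil h1⟩
    rw [List.take_zero] at h1
    have h2 : Vv v [] = 0 := by simp [Vv]
    rw [h2] at h1
    simp only [Finset.range_zero, Finset.sum_empty, add_zero]
    linarith
  | succ T ih =>
    intro G hG
    rw [← Finset.sum_filter_add_sum_filter_not G (fun σ => ∃ t ≤ T, σ <+: α t)]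
    have h1 := ih (G.filter fun σ => ∃ t ≤ T, σ <+: α t) fun σ hσ => by
      rw [Finset.mem_filter] at hσ
      exact ⟨(hG σ hσ.1).1, hσ.2⟩
    have h2 : ∀ σ ∈ G.filter (fun σ => ¬ ∃ t ≤ T, σ <+: α t), σ <+: α (T + 1) ∧
        ¬ σ <+: α T := by
      intro σ hσ
      rw [Finset.mem_filter] at hσ
      obtain ⟨-, t, ht, h3⟩ := hG σ hσ.1
      have h4 : t = T + 1 := by
        by_contra hne
        exact hσ.2 ⟨t, by omega, h3⟩
      exact ⟨h4 ▸ h3, fun h => hσ.2 ⟨T, le_rfl, h⟩⟩
    rw [Finset.sum_range_succ]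
    rcases hc T with h3 | h3
    · have h4 : G.filter (fun σ => ¬ ∃ t ≤ T, σ <+: α t) = ∅ :=
        Finset.eq_empty_of_forall_notMem fun σ hσ => (h2 σ hσ).2 ((h2 σ hσ).1.trans h3)
      rw [h4, Finset.sum_empty, add_zero]
      have := le_max_right 0 (Vv v (α T) - Vv v (α (T + 1)))
      linarith
    · have h4 := sum_prefixes (v := v) (b := α (T + 1)) (m := (α T).length) h3.length_le
        (G := G.filter (fun σ => ¬ ∃ t ≤ T, σ <+: α t)) fun σ hσ => by
          obtain ⟨h5, h6⟩ := h2 σ hσ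
          refine ⟨h5, ?_⟩
          by_contra hc2
          exact h6 (List.prefix_of_prefix_length_le h5 h3 (by omega))
      rw [← List.prefix_iff_eq_take.1 h3] at h4
      have := le_max_left 0 (Vv v (α T) - Vv v (α (T + 1)))
      linarith

/-- sum over the trace -/
theorem Good.sum (hs : SumV v) (h : Good v A α W) {G : Finset (List Bool)}
    (hG : ∀ σ ∈ G, σ ≠ [] ∧ ∃ t, σ <+: α t) : ∑ σ ∈ G, hp (v σ) ≤ 1 + W := by
  classical
  have hG2 : ∀ σ ∈ G, ∃ t, σ <+: α t := fun σ h => (hG σ h).2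
  choose! g hg2 using hG2
  have h1 := sum_trace (v := v) h.cmp (∑ σ ∈ G, g σ) G fun σ hσ =>
    ⟨(hG σ hσ).1, g σ, Finset.single_le_sum (f := g) (fun _ _ => Nat.zero_le _) hσ, hg2 σ hσ⟩
  have h2 := h.ws (∑ σ ∈ G, g σ)
  have h3 : Vv v (α (∑ σ ∈ G, g σ)) ≤ 1 := hs _
  linarith

/-- total variation -/
theorem Good.var (hs : SumV v) (h : Good v A α W) (n : ℕ) :
    ∑ t ∈ Finset.range n, |Vv v (α (t + 1)) - Vv v (α t)| ≤ 1 + 2 * W := by
  have h1 : ∑ t ∈ Finset.range n, |Vv v (α (t + 1)) - Vv v (α t)| =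
      Vv v (α n) - Vv v (α 0) +
        2 * ∑ t ∈ Finset.range n, max 0 (Vv v (α t) - Vv v (α (t + 1))) := by
    induction n with
    | zero => simp
    | succ n ih =>
      rw [Finset.sum_range_succ, ih, Finset.sum_range_succ]
      rcases le_total (Vv v (α n)) (Vv v (α (n + 1))) with h2 | h2
      · rw [abs_of_nonneg (by linarith), max_eq_left (by linarith)]; ring
      · rw [abs_of_nonpos (by linarith), max_eq_right (by linarith)]; ring
  have h2 := h.ws n
  have h3 : Vv v (α n) ≤ 1 := hs _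
  have h4 := Vv_nonneg v (α 0)
  linarith

end

/-- the values along `τ` -/
def tr (v0 : List Bool → ℕ) (τ : List Bool) : List Elt :=
  (List.range τ.length).map fun y => (0, v0 (τ.take (y + 1)))

theorem list_sum_range (f : ℕ → ℝ) (n : ℕ) :
    ((List.range n).map f).sum = ∑ i ∈ Finset.range n, f i := by
  induction n with
  | zero => simp
  | succ n ih => rw [List.range_succ, List.map_append, List.sum_append, ih,
      Finset.sum_range_succ]; simp

theorem w_tr (v0 : List Bool → ℕ) (τ : List Bool) : w (tr v0 τ) = Vv v0 τ := by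
  unfold w tr Vv
  rw [List.map_map, ← list_sum_range]
  rfl

/-- the total weight is at most one -/
def sml (L : List Elt) : Bool := decide (wN (rs L) L ≤ 2 ^ rs L)

theorem sml_iff {L : List Elt} : sml L = true ↔ w L ≤ 1 := by
  unfold sml
  rw [decide_eq_true_eq]
  have h1 : (wN (rs L) L ≤ 2 ^ rs L) ↔ ((wN (rs L) L : ℝ) ≤ (2 : ℝ) ^ rs L) := by
    exact_mod_cast Iff.rfl
  rw [h1, wN_cast fun p => le_rs]
  have h2 : (0 : ℝ) < 2 ^ rs L := by positivity
  constructor
  · intro h
    by_contra hc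
    push Not at hc
    nlinarith
  · intro h
    nlinarith

/-- truncation test -/
def okb (v0 : List Bool → ℕ) (τ : List Bool) : Bool := sml (tr v0 τ)

theorem okb_iff {v0 : List Bool → ℕ} {τ : List Bool} : okb v0 τ = true ↔ Vv v0 τ ≤ 1 := by
  unfold okb
  rw [sml_iff, w_tr]

theorem Vv_mono {v0 : List Bool → ℕ} {σ τ : List Bool} (h : σ <+: τ) : Vv v0 σ ≤ Vv v0 τ := by
  rw [List.prefix_iff_eq_take.1 h, Vv_take h.length_le]
  unfold Vv
  refine Finset.sum_le_sum_of_subset_of_nonneg ?_ fun _ _ _ => hp_nonneg _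
  exact Finset.range_subset_range.2 h.length_le

theorem okb_prefix {v0 : List Bool → ℕ} {σ τ : List Bool} (h : σ <+: τ)
    (ht : okb v0 τ = true) : okb v0 σ = true := by
  rw [okb_iff] at ht ⊢
  exact (Vv_mono h).trans ht

/-- the truncated weights -/
def vt (v0 : List Bool → ℕ) (τ : List Bool) : ℕ :=
  if okb v0 τ = true then v0 τ + 1 else τ.length + 1

theorem sum_len (n : ℕ) : ∑ y ∈ Finset.range n, hp (y + 2) ≤ 1 / 2 := by
  have h1 : ∑ y ∈ Finset.range n, hp (y + 2) = (∑ y ∈ Finset.range n, hp (y + 1)) / 2 := by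
    rw [Finset.sum_div]
    refine Finset.sum_congr rfl fun y _ => ?_
    rw [show y + 2 = y + 1 + 1 from rfl, hp_succ (y + 1)]
  rw [h1]
  have := sum_hp_range n
  linarith

theorem sumV_vt (v0 : List Bool → ℕ) : SumV (vt v0) := by
  intro σ
  have key : ∀ n ≤ σ.length, ∑ y ∈ Finset.range n, hp (vt v0 (σ.take (y + 1))) ≤
      min 1 (Vv v0 (σ.take n)) / 2 + ∑ y ∈ Finset.range n, hp (y + 2) := by
    intro n
    induction n with
    | zero =>
      intro _
      simp [Vv]
    | succ n ih =>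
      intro hn
      have ih' := ih (by omega)
      rw [Finset.sum_range_succ, Finset.sum_range_succ]
      have h1 : Vv v0 (σ.take (n + 1)) = Vv v0 (σ.take n) + hp (v0 (σ.take (n + 1))) := by
        rw [Vv_take hn, Vv_take (by omega), Finset.sum_range_succ]
      by_cases hok : okb v0 (σ.take (n + 1)) = true
      · have h2 := okb_iff.1 hok
        have h3 : Vv v0 (σ.take n) ≤ 1 := by
          have := hp_nonneg (v0 (σ.take (n + 1)))
          linarith
        rw [min_eq_right h3] at ih'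
        rw [min_eq_right h2, h1]
        have h4 : hp (vt v0 (σ.take (n + 1))) = hp (v0 (σ.take (n + 1))) / 2 := by
          unfold vt
          rw [if_pos hok, hp_succ]
        have h5 := hp_nonneg (n + 2)
        linarith
      · have h4 : hp (vt v0 (σ.take (n + 1))) = hp (n + 2) := by
          unfold vt
          rw [if_neg hok, List.length_take, min_eq_left hn]
        have h5 : min 1 (Vv v0 (σ.take n)) ≤ min 1 (Vv v0 (σ.take (n + 1))) := by
          refine min_le_min le_rfl ?_
          have := hp_nonneg (v0 (σ.take (n + 1)))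
          linarith
        linarith
  have h1 := key σ.length le_rfl
  have h2 := sum_len σ.length
  have h3 := min_le_left 1 (Vv v0 (σ.take σ.length))
  linarith

theorem pr_tr {v0 : List Bool → ℕ} (hv : Primrec v0) : Primrec (tr v0) := by
  unfold tr
  refine Primrec.list_map (f := fun τ : List Bool => List.range τ.length)
    (g := fun τ y => ((0, v0 (τ.take (y + 1))) : Elt))
    (Primrec.list_range.comp Primrec.list_length) ?_
  exact ((Primrec.const 0).pair (hv.comp (pr_take (Primrec.succ.comp Primrec.snd)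
    Primrec.fst))).to₂

theorem pr_okb {v0 : List Bool → ℕ} (hv : Primrec v0) : Primrec (okb v0) := by
  unfold okb sml
  exact (Primrec.nat_le.comp (pr_wN (pr_rs (pr_tr hv)) (pr_tr hv))
    (pr_pw (Primrec.const 2) (pr_rs (pr_tr hv)))).decide

theorem pr_vt {v0 : List Bool → ℕ} (hv : Primrec v0) : Primrec (vt v0) := by
  unfold vt
  exact pr_ite (pr_bool (pr_okb hv)) (pr_add hv (Primrec.const 1))
    (pr_add Primrec.list_length (Primrec.const 1))

/-- the main lemma for truncated weights -/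
theorem KLt {U : List Bool →. List Bool} (hU : IsUniversal U) {A : ℕ → Bool}
    (hA : KTrivial U A) {v0 : List Bool → ℕ} (hv : Primrec v0) :
    ∃ α W, Good (vt v0) A α W := by
  obtain ⟨α, h1, h2, h3, W, h4⟩ := KL hU hA (pr_vt hv) (sumV_vt v0)
  exact ⟨α, W, h1, h2, h3, h4⟩

end Pool.Agent.U35.OW
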